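import Pool.Agent.Y50.FE.Uni

/-!
# Varieties of groups whose 3-generated members are finite, prime powers at most five
-/

set_option autoImplicit false

namespace Pool.Agent.Y50.FE

open Pool.Agent.H32BU

/-- exponent five: three generators suffice for varieties too -/
theorem var_five (d : ℕ) (hd : 3 ≤ d) (L : Set (FreeGroup ℕ))
    (hfin : ∀ (G : Type) [Group G], Obeys L G →
      (∃ s : Fin d → G, Subgroup.closure (Set.range s) = ⊤) → Finite G)
    (G : Type) [Group G] (hG : Obeys L G) (h5 : ∀ x : G, x ^ 5 = 1) (hfg : Group.FG G) :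
    Finite G := by
  have h3 : ∀ x y z : G, Finite (Subgroup.closure ({x, y, z} : Set G)) := by
    intro x y z
    have m0 : x ∈ Subgroup.closure ({x, y, z} : Set G) := Subgroup.subset_closure (by simp)
    have m1 : y ∈ Subgroup.closure ({x, y, z} : Set G) := Subgroup.subset_closure (by simp)
    have m2 : z ∈ Subgroup.closure ({x, y, z} : Set G) := Subgroup.subset_closure (by simp)
    refine hfin _ (obeys_inj (Subgroup.subtype _) (Subgroup.subtype_injective _) hG)
      ⟨fun i => if i.1 = 0 then ⟨x, m0⟩ else if i.1 = 1 then ⟨y, m1⟩ else ⟨z, m2⟩, ?_⟩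
    rw [eq_top_iff, ← Subgroup.closure_closure_coe_preimage, Subgroup.closure_le]
    rintro ⟨g, hg⟩ hg'
    rcases hg' with h | h | h
    · refine Subgroup.subset_closure ⟨⟨0, by omega⟩, ?_⟩
      exact Subtype.ext h.symm
    · refine Subgroup.subset_closure ⟨⟨1, by omega⟩, ?_⟩
      exact Subtype.ext h.symm
    · refine Subgroup.subset_closure ⟨⟨2, by omega⟩, ?_⟩
      exact Subtype.ext h.symm
  obtain ⟨S, hS⟩ := hfg.out
  have h := main5_u G h5 h3 (S : Set G) S.finite_toSet
  rw [hS] at h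
  exact Finite.of_equiv _ (Subgroup.topEquiv (G := G)).toEquiv

theorem var_three (d : ℕ) (hd : 3 ≤ d) (L : Set (FreeGroup ℕ)) (n : ℕ) (hn : 1 ≤ n)
    (hexp : ∀ (G : Type) [Group G], Obeys L G → ∀ x : G, x ^ n = 1)
    (hfin : ∀ (G : Type) [Group G], Obeys L G →
      (∃ s : Fin d → G, Subgroup.closure (Set.range s) = ⊤) → Finite G)
    (hsol : n.primeFactors.card ≤ 2 ∨ ∀ (G : Type) [Group G], Obeys L G →
      (∃ s : Fin d → G, Subgroup.closure (Set.range s) = ⊤) → Group.IsSolvable G)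
    (hloc : ∀ p k : ℕ, p.Prime → p ^ k ∣ n → 5 < p ^ k → ∀ (G : Type) [Group G], Obeys L G →
      (∀ x : G, x ^ p ^ k = 1) → Group.FG G → Finite G) :
    ∀ (G : Type) [Group G], Obeys L G → Group.FG G → Finite G := by
  refine vfinal2 x_INDV x_SOLH x_MAPS x_LFD x_L34 x_BUR x_CRD d hd L n hn hexp hfin hsol ?_
  intro p k hp hk h4 G _ hG hx hfg
  rcases Nat.lt_or_ge 5 (p ^ k) with h5 | h5
  · exact hloc p k hp hk h5 G hG hx hfg
  · have e : p ^ k = 5 := by omega
    rw [e] at hx
    exact var_five d hd L hfin G hG hx hfg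

theorem var_small (d : ℕ) (hd : 3 ≤ d) (L : Set (FreeGroup ℕ)) (n : ℕ)
    (hn : n = 5 ∨ n = 10 ∨ n = 15 ∨ n = 20)
    (hexp : ∀ (G : Type) [Group G], Obeys L G → ∀ x : G, x ^ n = 1)
    (hfin : ∀ (G : Type) [Group G], Obeys L G →
      (∃ s : Fin d → G, Subgroup.closure (Set.range s) = ⊤) → Finite G) :
    ∀ (G : Type) [Group G], Obeys L G → Group.FG G → Finite G := by
  refine var_three d hd L n (by omega) hexp hfin (Or.inl (card_small hn)) ?_
  intro p k hp hk h5
  have := pp_dvd_twenty hn hp hk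
  omega

end Pool.Agent.Y50.FE
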