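import Pool.Agent.Y50.FE.Uni

/-!
# A word which decides local finiteness for exponent five
-/

set_option autoImplicit false

namespace Pool.Agent.Y50.FE

open Subgroup
open scoped commutatorElement
open Pool.Agent.H32BU

universe u v

/-- the commutator `[y, x, x, x, x]` -/
def e4 {G : Type u} [Group G] (x y : G) : G := ⁅⁅⁅⁅y, x⁆, x⁆, x⁆, x⁆

theorem map_e4 {G : Type u} {H : Type v} [Group G] [Group H] (f : G →* H) (x y : G) :
    f (e4 x y) = e4 (f x) (f y) := by
  simp only [e4, map_commutatorElement]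

/-- In finite groups of exponent five, `[g, c, c] = 1` for `c = [y, x, x, x, x]`. -/
theorem lemA {G : Type u} [Group G] [Finite G] (h5 : ∀ g : G, g ^ 5 = 1) (s : ℕ → G)
    (hs : closure ({s 0, s 1, s 2} : Set G) = ⊤) :
    ⁅⁅s 2, e4 (s 0) (s 1)⁆, e4 (s 0) (s 1)⁆ = 1 := by
  have hH := hyp (mns s w13) h5 (gx s w13) (hom_gx s w13 fun e _ => w13_one e)
  have h0 := mns_gen s w13 0 (by omega)
  have h1 := mns_gen s w13 1 (by omega)
  have h2 := mns_gen s w13 2 (by omega)
  have hb : (mns s w13).H 91 = ⊥ := by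
    refine mns_vanish h5 13 (by omega) hs (fun e _ => w13_one e) (fun e _ => w13_le e) 91
      (by omega) ?_
    intro w hw hn h91
    by_contra hne
    obtain ⟨b0, b1, b2⟩ := BB.bound hH w hw hne
    rw [wwt13 w hw] at h91
    omega
  have c1 : e4 (s 0) (s 1) ∈ (mns s w13).H (1 + 13 + 13 + 13 + 13) :=
    (mns s w13).comm ((mns s w13).comm ((mns s w13).comm ((mns s w13).comm h1 h0) h0) h0) h0
  have c2 := (mns s w13).comm ((mns s w13).comm h2 c1) c1
  have c3 := (mns s w13).anti (show 91 ≤ 1 + (1 + 13 + 13 + 13 + 13) + (1 + 13 + 13 + 13 + 13)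
    by omega) c2
  rw [hb] at c3
  exact mem_bot.1 c3

theorem lemA' {G : Type u} [Group G] (h5 : ∀ g : G, g ^ 5 = 1)
    (h3 : ∀ a b c : G, Finite (closure ({a, b, c} : Set G))) (x y g : G) :
    ⁅⁅g, e4 x y⁆, e4 x y⁆ = 1 := by
  have hf := h3 x y g
  have m0 : x ∈ closure ({x, y, g} : Set G) := subset_closure (by simp)
  have m1 : y ∈ closure ({x, y, g} : Set G) := subset_closure (by simp)
  have m2 : g ∈ closure ({x, y, g} : Set G) := subset_closure (by simp)
  let s : ℕ → closure ({x, y, g} : Set G) :=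
    fun e => if e = 0 then ⟨x, m0⟩ else if e = 1 then ⟨y, m1⟩ else ⟨g, m2⟩
  have hs : closure ({s 0, s 1, s 2} : Set (closure ({x, y, g} : Set G))) = ⊤ := by
    rw [← closure_closure_coe_preimage]
    congr 1
    ext x
    obtain ⟨x, hx⟩ := x
    simp [s, Subtype.ext_iff]
  have h1 := lemA (fun g => Subtype.ext (h5 _)) s hs
  exact congrArg Subtype.val h1

/-- the normal subgroup generated by all `[y, x, x, x, x]` -/
def En4 (G : Type u) [Group G] : Subgroup G := normalClosure {w | ∃ x y : G, w = e4 x y}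

instance (G : Type u) [Group G] : (En4 G).Normal := normalClosure_normal

theorem e4_mem {G : Type u} [Group G] (x y : G) : e4 x y ∈ En4 G :=
  subset_normalClosure ⟨x, y, rfl⟩

theorem en4_le {G : Type u} {H : Type v} [Group G] [Group H] (f : G →* H)
    (h : ∀ x y : G, e4 (f x) (f y) = 1) : En4 G ≤ f.ker := by
  apply normalClosure_le_normal
  rintro _ ⟨x, y, rfl⟩
  change f _ = 1
  rw [map_e4]
  exact h x y

theorem fin_image {G : Type u} {H : Type v} [Group G] [Group H] (f : G →* H)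
    (hf : Function.Surjective f) (h : ∀ x y : G, e4 (f x) (f y) = 1) (hG : Finite (G ⧸ En4 G)) :
    Finite H := by
  refine Finite.of_surjective (QuotientGroup.lift _ f (en4_le f h)) ?_
  intro y
  obtain ⟨x, rfl⟩ := hf y
  exact ⟨QuotientGroup.mk x, rfl⟩

theorem fin_en4 {G : Type u} {H : Type v} [Group G] [Group H] (f : G →* H)
    (hf : Function.Surjective f) (hG : Finite (G ⧸ En4 G)) : Finite (H ⧸ En4 H) := by
  refine fin_image ((QuotientGroup.mk' (En4 H)).comp f)
    ((QuotientGroup.mk'_surjective _).comp hf) (fun x y => ?_) hG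
  change e4 (QuotientGroup.mk' (En4 H) (f x)) (QuotientGroup.mk' (En4 H) (f y)) = 1
  rw [← map_e4]
  exact (QuotientGroup.eq_one_iff _).2 (e4_mem _ _)

theorem map_three {G : Type u} {H : Type v} [Group G] [Group H] (f : G →* H) (a b c : G) :
    (closure ({a, b, c} : Set G)).map f = closure ({f a, f b, f c} : Set H) := by
  rw [MonoidHom.map_closure, Set.image_insert_eq, Set.image_pair]

/-- Local finiteness from the word and the 4-Engel quotients. -/
theorem main_word {G : Type} [Group G] (h5 : ∀ g : G, g ^ 5 = 1)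
    (hA : ∀ x y g : G, ⁅⁅g, e4 x y⁆, e4 x y⁆ = 1)
    (hE : ∀ a b c : G, Finite (closure ({a, b, c} : Set G) ⧸ En4 (closure ({a, b, c} : Set G)))) :
    LF G := by
  have q5 : ∀ g : G ⧸ Rd G, g ^ 5 = 1 := by
    intro g
    obtain ⟨g, rfl⟩ := QuotientGroup.mk_surjective g
    rw [← QuotientGroup.mk_pow, h5]
    rfl
  have q4 : ∀ x y : G ⧸ Rd G, e4 x y = 1 := by
    intro x y
    obtain ⟨x, rfl⟩ := QuotientGroup.mk'_surjective _ x
    obtain ⟨y, rfl⟩ := QuotientGroup.mk'_surjective _ y
    refine Rd_quot _ (lemP q5 _ fun h => ?_)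
    obtain ⟨h, rfl⟩ := QuotientGroup.mk'_surjective _ h
    rw [← map_e4, ← map_commutatorElement, ← map_commutatorElement, hA, map_one]
  have q3 : ∀ a b c : G ⧸ Rd G, Finite (closure ({a, b, c} : Set (G ⧸ Rd G))) := by
    intro a b c
    obtain ⟨a, rfl⟩ := QuotientGroup.mk'_surjective _ a
    obtain ⟨b, rfl⟩ := QuotientGroup.mk'_surjective _ b
    obtain ⟨c, rfl⟩ := QuotientGroup.mk'_surjective _ c
    rw [← map_three]
    refine fin_image ((QuotientGroup.mk' (Rd G)).subgroupMap (closure ({a, b, c} : Set G)))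
      (MonoidHom.subgroupMap_surjective _ _) (fun x y => ?_) (hE a b c)
    exact Subtype.ext (q4 _ _)
  exact t_SCH G (Rd G) ((lfs_iff _).1 LFs_Rd) (main5 q5 q3)

theorem word_iff (G : Type u) [Group G] (h5 : ∀ x : G, x ^ 5 = 1) :
    (∀ S : Set G, S.Finite → Finite (closure S)) ↔
      (∀ x y g : G, ⁅⁅g, e4 x y⁆, e4 x y⁆ = 1) ∧
      ∀ a b c : G, Finite (closure ({a, b, c} : Set G) ⧸ En4 (closure ({a, b, c} : Set G))) := by
  constructor
  · intro h
    have h3 : ∀ a b c : G, Finite (closure ({a, b, c} : Set G)) := fun a b c => h _ (by simp)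
    exact ⟨lemA' h5 h3, fun a b c => inferInstance⟩
  · rintro ⟨hA, hE⟩ S hS
    refine Pool.Agent.W629.finite_closure_u S hS fun Q _ f hf => ?_
    refine main_word (fun x => hf (by rw [map_pow, map_one]; exact h5 _)) (fun x y g => hf ?_)
      fun a b c => ?_
    · rw [map_commutatorElement, map_commutatorElement, map_e4, map_one]
      exact hA _ _ _
    · have e := (closure ({a, b, c} : Set Q)).equivMapOfInjective f hf
      have h := hE (f a) (f b) (f c)
      rw [← map_three] at h
      exact fin_en4 (e.symm : _ →* _) e.symm.surjective h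

/-- the generators of the free Burnside group -/
def bg (n : ℕ) (i : Fin 3) : Bu 3 n := QuotientGroup.mk (FreeGroup.of i)

theorem bu_lift {n : ℕ} {G : Type u} [Group G] (hG : ∀ x : G, x ^ n = 1) (x y z : G) :
    ∃ F : Bu 3 n →* G, F (bg n 0) = x ∧ F (bg n 1) = y ∧ F (bg n 2) = z := by
  let f : FreeGroup (Fin 3) →* G := FreeGroup.lift ![x, y, z]
  have hker : normalClosure (Set.range fun w : FreeGroup (Fin 3) => w ^ n) ≤ f.ker := by
    apply normalClosure_le_normal
    rintro _ ⟨w, rfl⟩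
    simp [MonoidHom.mem_ker, hG]
  refine ⟨QuotientGroup.lift _ f hker, ?_, ?_, ?_⟩
  · change f (FreeGroup.of 0) = x; simp [f]
  · change f (FreeGroup.of 1) = y; simp [f]
  · change f (FreeGroup.of 2) = z; simp [f]

theorem bg_gen (n : ℕ) : closure ({bg n 0, bg n 1, bg n 2} : Set (Bu 3 n)) = ⊤ := by
  rw [eq_top_iff]
  rintro x -
  obtain ⟨w, rfl⟩ := QuotientGroup.mk_surjective x
  induction w using FreeGroup.induction_on with
  | C1 => exact one_mem _
  | of i =>
    refine subset_closure ?_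
    fin_cases i
    · exact Or.inl rfl
    · exact Or.inr (Or.inl rfl)
    · exact Or.inr (Or.inr rfl)
  | inv_of i hi =>
    have := inv_mem hi
    exact this
  | mul a b ha hb =>
    have := mul_mem ha hb
    exact this

/-- `5 ∈ 𝓛` if and only if one element of `B(3,5)` is trivial and the 4-Engel quotient of
`B(3,5)` is finite. -/
theorem inL_word : InL.{u} 5 ↔
    ⁅⁅bg 5 2, e4 (bg 5 0) (bg 5 1)⁆, e4 (bg 5 0) (bg 5 1)⁆ = 1 ∧ Finite (Bu 3 5 ⧸ En4 (Bu 3 5)) := by
  rw [inL_five]
  constructor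
  · intro h
    let s : ℕ → Bu 3 5 := fun e => if e = 0 then bg 5 0 else if e = 1 then bg 5 1 else bg 5 2
    exact ⟨lemA (x_LFD.2.2.2 3 5) s (bg_gen 5), inferInstance⟩
  · rintro ⟨hw, hE⟩
    refine inL_five.{0}.1 fun G _ h5 => (word_iff G h5).2 ⟨fun x y g => ?_, fun a b c => ?_⟩
    · obtain ⟨F, rfl, rfl, rfl⟩ := bu_lift h5 x y g
      rw [← map_e4, ← map_commutatorElement, ← map_commutatorElement, hw, map_one]
    · have k5 : ∀ x : closure ({a, b, c} : Set G), x ^ 5 = 1 := fun x => Subtype.ext (h5 _)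
      have m0 : a ∈ closure ({a, b, c} : Set G) := subset_closure (by simp)
      have m1 : b ∈ closure ({a, b, c} : Set G) := subset_closure (by simp)
      have m2 : c ∈ closure ({a, b, c} : Set G) := subset_closure (by simp)
      obtain ⟨F, h0, h1, h2⟩ := bu_lift k5 ⟨a, m0⟩ ⟨b, m1⟩ ⟨c, m2⟩
      refine fin_en4 F ?_ hE
      rw [← MonoidHom.range_eq_top, eq_top_iff, ← closure_closure_coe_preimage, closure_le]
      rintro ⟨x, hx⟩ hx'
      rcases hx' with h | h | h
      · exact ⟨_, h0.trans (Subtype.ext h.symm)⟩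
      · exact ⟨_, h1.trans (Subtype.ext h.symm)⟩
      · exact ⟨_, h2.trans (Subtype.ext h.symm)⟩

end Pool.Agent.Y50.FE
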