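import Mathlib

/-!
# A checker for nilpotent quotients of Lie rings of characteristic five: definitions
-/

set_option autoImplicit false

namespace Pool.Agent.Y50.FE

/-- base of the packing, `2 ^ 80` -/
abbrev Bs : ℕ := 1208925819614629174706176

/-- the label of a generator -/
def un : ℕ → ℕ
  | 0 => 32769
  | 1 => 32800
  | _ => 33792

/-- the data of one multihomogeneous component: codes of the basis, bound, the actions of the three
generators and the components to which they lead -/
inductive Nd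
  | nil
  | mk (codes : List ℕ) (c4 : ℕ) (r0 r1 r2 : List ℕ) (n0 n1 n2 : Nd)

def Nd.codes (n : Nd) : List ℕ :=
  Nd.casesOn (motive := fun _ => List ℕ) n [] fun c _ _ _ _ _ _ _ => c

def Nd.c4 (n : Nd) : ℕ :=
  Nd.casesOn (motive := fun _ => ℕ) n 0 fun _ c _ _ _ _ _ _ => c

def Nd.rows (n : Nd) (e : ℕ) : List ℕ :=
  Nd.casesOn (motive := fun _ => List ℕ) n [] fun _ _ r0 r1 r2 _ _ _ =>
    Nat.casesOn (motive := fun _ => List ℕ) e r0 fun e' =>
      Nat.casesOn (motive := fun _ => List ℕ) e' r1 fun _ => r2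

def Nd.next (n : Nd) (e : ℕ) : Nd :=
  Nd.casesOn (motive := fun _ => Nd) n .nil fun _ _ _ _ _ n0 n1 n2 =>
    Nat.casesOn (motive := fun _ => Nd) e n0 fun e' =>
      Nat.casesOn (motive := fun _ => Nd) e' n1 fun _ => n2

/-- search trees for the components -/
inductive Tr
  | nil
  | node (k : ℕ) (c : Nd) (l r : Tr)

noncomputable def Tr.get (t : Tr) (q : ℕ) : Nd :=
  Tr.rec (motive := fun _ => Nd) .nil (fun k c _ _ ihl ihr =>
    Bool.casesOn (motive := fun _ => Nd) (Nat.beq q k)
      (Bool.casesOn (motive := fun _ => Nd) (Nat.ble q k) ihr ihl) c) t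

/-- multiplication of a packed vector with a list of packed rows -/
noncomputable def mv (rs : List ℕ) : ℕ → ℕ → ℕ :=
  List.rec (motive := fun _ => ℕ → ℕ → ℕ) (fun _ acc => acc)
    (fun r _ ih n acc => ih (Nat.div n Bs) (Nat.add acc (Nat.mul (Nat.mod n Bs) r))) rs

/-- the same for a vector packed with base `8` -/
noncomputable def mvT (rs : List ℕ) : ℕ → ℕ → ℕ :=
  List.rec (motive := fun _ => ℕ → ℕ → ℕ) (fun _ acc => acc)
    (fun r _ ih n acc => ih (Nat.div n 8) (Nat.add acc (Nat.mul (Nat.mod n 8) r))) rs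

/-- a state: component, packed vector, bound of the digits -/
structure St where
  nd : Nd
  n : ℕ
  K : ℕ

/-- action of a generator on a state -/
noncomputable def op (e : ℕ) (s : St) : St :=
  ⟨s.nd.next e, mv (s.nd.rows e) s.n 0, Nat.add s.K (Nat.mul s.K s.nd.c4)⟩

/-- the first component which is not `nil` -/
def pick (a b : Nd) : Nd :=
  Nd.casesOn (motive := fun _ => Nd) a b fun _ _ _ _ _ _ _ _ => a

def St.add (s t : St) : St := ⟨pick s.nd t.nd, Nat.add s.n t.n, Nat.add s.K t.K⟩

def St.sub (s t : St) : St :=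
  ⟨pick s.nd t.nd, Nat.add s.n (Nat.mul 4 t.n), Nat.add s.K (Nat.mul 4 t.K)⟩

/-- action of a Lie word (last letter first) -/
noncomputable def opw (w : List ℕ) : St → St :=
  List.rec (motive := fun _ => St → St) (fun s => ⟨s.nd, 0, s.K⟩)
    (fun e w' ih s => List.casesOn (motive := fun _ => St) w' (op e s)
      (fun _ _ => (op e (ih s)).sub (ih (op e s)))) w

/-- the last action of a generator, into the space of symbols -/
def opS (sh : ℕ → ℕ) (e : ℕ) (s : St) : St := ⟨.nil, Nat.mul s.n (sh e), s.K⟩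

/-- the last action of a Lie word -/
noncomputable def opwS (sh : ℕ → ℕ) (w : List ℕ) : St → St :=
  List.rec (motive := fun _ => St → St) (fun s => ⟨.nil, 0, s.K⟩)
    (fun e w' ih s => List.casesOn (motive := fun _ => St) w' (opS sh e s)
      (fun _ _ => (opS sh e (opw w' s)).sub (ih (op e s)))) w

/-- the relations: `p1`: `b g g g g`, `cu`: `b 0 0 0`, `p31`: `b (ggga)`, `p211`: `b (ggab)`,
`an`: antisymmetry -/
inductive Rel
  | p1 (q i g : ℕ)
  | cu (q i : ℕ)
  | p31 (q i g : ℕ) (a : List ℕ)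
  | p211 (q i g : ℕ) (a b : List ℕ)
  | an (q i e : ℕ) (w : List ℕ)

noncomputable def f31 (sh : ℕ → ℕ) (g : ℕ) (a : List ℕ) (s v1 v2 v3 : St) : St :=
  (opS sh g ((op g ((op g (opw a s)).add (opw a v1))).add (opw a v2))).add (opwS sh a v3)

noncomputable def f31a (sh : ℕ → ℕ) (g : ℕ) (a : List ℕ) (s v1 v2 : St) : St :=
  f31 sh g a s v1 v2 (op g v2)

noncomputable def f31b (sh : ℕ → ℕ) (g : ℕ) (a : List ℕ) (s v1 : St) : St :=
  f31a sh g a s v1 (op g v1)

noncomputable def f211d (sh : ℕ → ℕ) (g : ℕ) (a b : List ℕ) (s1ab s2a s2b : St) : St :=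
  ((opS sh g s1ab).add (opwS sh a s2b)).add (opwS sh b s2a)

noncomputable def f211c (sh : ℕ → ℕ) (g : ℕ) (a b : List ℕ) (s20 sa sb s1a s1b : St) : St :=
  f211d sh g a b
    (((op g ((opw a sb).add (opw b sa))).add (opw a s1b)).add (opw b s1a))
    ((op g s1a).add (opw a s20)) ((op g s1b).add (opw b s20))

noncomputable def f211b (sh : ℕ → ℕ) (g : ℕ) (a b : List ℕ) (s10 s20 sa sb : St) : St :=
  f211c sh g a b s20 sa sb ((op g sa).add (opw a s10)) ((op g sb).add (opw b s10))

noncomputable def f211 (sh : ℕ → ℕ) (g : ℕ) (a b : List ℕ) (s s10 : St) : St :=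
  f211b sh g a b s10 (op g s10) (opw a s) (opw b s)

/-- evaluation of a relation in the space of symbols -/
noncomputable def Rel.st (E : ℕ → Nd) (sh : ℕ → ℕ) (r : Rel) : St :=
  Rel.casesOn (motive := fun _ => St) r
    (fun q i g => opS sh g (op g (op g (op g ⟨E q, Nat.pow Bs i, 1⟩))))
    (fun q i => opS sh 0 (op 0 (op 0 ⟨E q, Nat.pow Bs i, 1⟩)))
    (fun q i g a => f31b sh g a ⟨E q, Nat.pow Bs i, 1⟩ (op g ⟨E q, Nat.pow Bs i, 1⟩))
    (fun q i g a b => f211 sh g a b ⟨E q, Nat.pow Bs i, 1⟩ (op g ⟨E q, Nat.pow Bs i, 1⟩))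
    (fun _ i e w => (opwS sh w ⟨E (un e), 1, 1⟩).add ⟨.nil, Nat.mul (Nat.pow Bs i) (sh e), 1⟩)

/-- code of a word (last letter first) -/
def cd : List ℕ → ℕ
  | [] => 1
  | e :: w => 4 * cd w + e

/-- label of a word -/
def dg : List ℕ → ℕ
  | [] => 0
  | e :: w => dg w + un e

def lt3 (e : ℕ) : Bool := Nat.blt e 3

def isWd : List ℕ → Bool
  | [] => true
  | e :: w => lt3 e && isWd w

def nonNil : List ℕ → Bool
  | [] => false
  | _ :: _ => true

/-- entry of a list of codes -/
def nth : List ℕ → ℕ → ℕ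
  | [], _ => 0
  | a :: _, 0 => a
  | _ :: l, i + 1 => nth l i

/-- side conditions of a relation -/
noncomputable def Rel.ok (z : Bool) (E : ℕ → Nd) (mu : ℕ) (r : Rel) : Bool :=
  Rel.casesOn (motive := fun _ => Bool) r
    (fun q i g => lt3 g && Nat.blt i (E q).codes.length && Nat.beq (q + 4 * un g) mu)
    (fun q i => z && Nat.blt i (E q).codes.length && Nat.beq (q + 3 * un 0) mu)
    (fun q i g a => lt3 g && Nat.blt i (E q).codes.length && isWd a && nonNil a &&
      Nat.beq (q + 3 * un g + dg a) mu)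
    (fun q i g a b => lt3 g && Nat.blt i (E q).codes.length && isWd a && nonNil a && isWd b &&
      nonNil b && Nat.beq (q + 2 * un g + dg a + dg b) mu)
    (fun q i e w => lt3 e && Nat.blt i (E q).codes.length && Nat.beq (q + un e) mu &&
      Nat.beq (nth (E q).codes i) (cd w) && isWd w && nonNil w && Nat.beq (dg w) q)

/-- force the evaluation of a number -/
noncomputable def frc (n : ℕ) (f : ℕ → Bool) : Bool :=
  Nat.rec (motive := fun _ => Bool) (f 0) (fun m _ => f (Nat.succ m)) n

/-- evaluation of the relations -/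
noncomputable def evR (z : Bool) (E : ℕ → Nd) (mu : ℕ) (sh : ℕ → ℕ) (rels : List Rel) :
    List ℕ → ℕ → (List ℕ → ℕ → Bool) → Bool :=
  List.rec (motive := fun _ => List ℕ → ℕ → (List ℕ → ℕ → Bool) → Bool)
    (fun acc K k => k acc K)
    (fun r _ ih acc K k => (r.ok z E mu).and
      (frc (r.st E sh).n fun n => frc (r.st E sh).K fun K1 => ih (n :: acc) (Nat.add K K1) k)) rels

/-- check of a digit vector: `L + scatter row = u` modulo five -/
noncomputable def chkL (ks : List Bool) : ℕ → ℕ → ℕ → Bool :=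
  List.rec (motive := fun _ => ℕ → ℕ → ℕ → Bool) (fun _ row _ => Nat.beq row 0)
    (fun k _ ih L row u => Bool.casesOn (motive := fun _ => Bool) k
      ((Nat.beq (Nat.mod (Nat.add (Nat.mod L Bs) (Nat.mul 4 (Nat.mod u Bs))) 5) 0).and
        (ih (Nat.div L Bs) row (Nat.div u Bs)))
      ((Nat.beq (Nat.mod (Nat.add (Nat.mod L Bs) (Nat.mod row Bs)) 5) 0).and
        ((Nat.ble (Nat.mod row Bs) 4).and
          (ih (Nat.div L Bs) (Nat.div row Bs) (Nat.div u Bs))))) ks

/-- check of all symbols -/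
noncomputable def goC (ks0 : List Bool) (Rs : List ℕ) : List Bool → List ℕ → List ℕ → ℕ → ℕ → Bool
  | [], rows, _, _, _ => List.casesOn (motive := fun _ => Bool) rows true fun _ _ => false
  | true :: ks, rows, Ts, u, bt => List.casesOn (motive := fun _ => Bool) rows false
      fun row rows => (Nat.beq row bt).and (goC ks0 Rs ks rows Ts (Nat.mul u Bs) (Nat.mul bt Bs))
  | false :: ks, rows, Ts, u, bt => List.casesOn (motive := fun _ => Bool) rows false
      fun row rows => List.casesOn (motive := fun _ => Bool) Ts false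
      fun T Ts => (frc (mvT Rs T 0) fun L => chkL ks0 L row u).and
        (goC ks0 Rs ks rows Ts (Nat.mul u Bs) bt)

/-- codes of the symbols -/
def sc (e : ℕ) : List ℕ → List ℕ
  | [] => []
  | c :: l => (4 * c + e) :: sc e l

/-- codes at the positions of the basis -/
def kc : List Bool → List ℕ → List ℕ
  | true :: ks, c :: cs => c :: kc ks cs
  | false :: ks, _ :: cs => kc ks cs
  | _, _ => []

def beqL : List ℕ → List ℕ → Bool
  | [], [] => true
  | a :: l, b :: m => Nat.beq a b && beqL l m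
  | _, _ => false

/-- symbol codes of a component -/
noncomputable def symc (E : ℕ → Nd) (mu : ℕ) : List ℕ :=
  sc 0 (E (mu - un 0)).codes ++ (sc 1 (E (mu - un 1)).codes ++ sc 2 (E (mu - un 2)).codes)

noncomputable def symr (E : ℕ → Nd) (mu : ℕ) : List ℕ :=
  (E (mu - un 0)).rows 0 ++ ((E (mu - un 1)).rows 1 ++ (E (mu - un 2)).rows 2)

/-- the shifts -/
def shf (o1 o2 : ℕ) (e : ℕ) : ℕ :=
  Nat.casesOn (motive := fun _ => ℕ) e 1 fun e' =>
    Nat.casesOn (motive := fun _ => ℕ) e' (Nat.pow Bs o1) fun _ => Nat.pow Bs o2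

/-- the certificate of a component -/
structure Crt where
  mu : ℕ
  o1 : ℕ
  o2 : ℕ
  rels : List Rel
  ks : List Bool
  Ts : List ℕ

/-- the lengths of the lists of rows -/
noncomputable def lenOK (n : Nd) (e : ℕ) : Bool := Nat.beq (n.rows e).length n.codes.length

/-- the check of a component -/
noncomputable def Crt.chk (z : Bool) (E : ℕ → Nd) (c : Crt) : Bool :=
  (Nat.ble 33792 c.mu).and <|
  (Nat.beq (E (c.mu - un 0)).codes.length c.o1).and <|
  (Nat.beq (c.o1 + (E (c.mu - un 1)).codes.length) c.o2).and <|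
  (lenOK (E (c.mu - un 0)) 0).and <| (lenOK (E (c.mu - un 1)) 1).and <|
  (lenOK (E (c.mu - un 2)) 2).and <|
  (Nat.beq c.ks.length (symc E c.mu).length).and <|
  (beqL (kc c.ks (symc E c.mu)) (E c.mu).codes).and <|
  evR z E c.mu (shf c.o1 c.o2) c.rels [] 0 fun Rs Km =>
    (Nat.ble (Nat.mul 8 Km) 1208925819614629174706175).and
      (goC c.ks Rs c.ks (symr E c.mu) c.Ts 1 1)

end Pool.Agent.Y50.FE
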