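import Pool.Agent.Y50.FE.Chk

/-!
# Soundness of the checker
-/

set_option autoImplicit false

namespace Pool.Agent.Y50.FE

universe u

variable {L : Type u} [LieRing L]

/-- symmetrised products -/
def S2 (b a c : L) : L := ⁅⁅b, a⁆, c⁆ + ⁅⁅b, c⁆, a⁆
def S3 (b a c d : L) : L := S2 ⁅b, a⁆ c d + S2 ⁅b, c⁆ a d + S2 ⁅b, d⁆ a c
def S4 (b a c d e : L) : L :=
  S3 ⁅b, a⁆ c d e + S3 ⁅b, c⁆ a d e + S3 ⁅b, d⁆ a c e + S3 ⁅b, e⁆ a c d

/-- characteristic five, and the linearised fourth Engel identity for the elements of a set closed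
under brackets -/
structure Hyp (Hm : Set L) (x : ℕ → L) : Prop where
  five : ∀ v : L, 5 • v = 0
  mem : ∀ e < 3, x e ∈ Hm
  lie : ∀ a ∈ Hm, ∀ b ∈ Hm, ⁅a, b⁆ ∈ Hm
  eng : ∀ b ∈ Hm, ∀ a ∈ Hm, ∀ c ∈ Hm, ∀ d ∈ Hm, ∀ e ∈ Hm, S4 b a c d e = 0

/-- decoding of a code (last letter first) -/
def dcd (n : ℕ) : List ℕ := if h : n < 4 then [] else (n % 4) :: dcd (n / 4)
termination_by n
decreasing_by omega

theorem dcd_cons (c e : ℕ) (hc : 1 ≤ c) (he : e < 4) : dcd (4 * c + e) = e :: dcd c := by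
  rw [dcd, dif_neg (by omega)]
  congr 1
  · omega
  · congr 1; omega

theorem cd_pos (w : List ℕ) : 1 ≤ cd w := by
  induction w with
  | nil => exact le_rfl
  | cons e w ih => unfold cd; omega

theorem isWd_cons {e : ℕ} {w : List ℕ} (h : isWd (e :: w) = true) : e < 3 ∧ isWd w = true := by
  simp only [isWd, lt3, Bool.and_eq_true] at h
  refine ⟨?_, h.2⟩
  have := h.1
  rw [Nat.blt_eq] at this
  exact this

theorem dcd_cd (w : List ℕ) (h : isWd w = true) : dcd (cd w) = w := by
  induction w with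
  | nil => rw [cd, dcd, dif_pos (by norm_num)]
  | cons e w ih =>
    obtain ⟨h1, h2⟩ := isWd_cons h
    rw [cd, dcd_cons _ _ (cd_pos w) (by omega), ih h2]

/-- the left-normed product of a word (last letter first) -/
def lw (x : ℕ → L) : List ℕ → L
  | [] => 0
  | e :: w => match w with
    | [] => x e
    | _ :: _ => ⁅lw x w, x e⁆

theorem lw_single (x : ℕ → L) (e : ℕ) : lw x [e] = x e := by
  simp [lw]

theorem lw_cons (x : ℕ → L) (e : ℕ) (w : List ℕ) (h : w ≠ []) : lw x (e :: w) = ⁅lw x w, x e⁆ := by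
  cases w with
  | nil => exact absurd rfl h
  | cons a w => rw [lw]

/-- the product with a given code -/
def wv (x : ℕ → L) (c : ℕ) : L := lw x (dcd c)

theorem wv_step (x : ℕ → L) {c e : ℕ} (hc : 4 ≤ c) (he : e < 3) :
    wv x (4 * c + e) = ⁅wv x c, x e⁆ := by
  unfold wv
  rw [dcd_cons c e (by omega) (by omega), lw_cons]
  rw [dcd, dif_neg (by omega)]
  simp

theorem wv_gen (x : ℕ → L) {e : ℕ} (he : e < 3) : wv x (4 + e) = x e := by
  unfold wv
  rw [show 4 + e = 4 * 1 + e by omega, dcd_cons 1 e le_rfl (by omega), dcd, dif_pos (by norm_num),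
    lw_single]

theorem lw_mem {Hm : Set L} {x : ℕ → L} (H : Hyp Hm x) (w : List ℕ) (h : isWd w = true)
    (hn : w ≠ []) : lw x w ∈ Hm := by
  induction w with
  | nil => exact absurd rfl hn
  | cons e w ih =>
    obtain ⟨h1, h2⟩ := isWd_cons h
    by_cases hw : w = []
    · subst hw
      rw [lw_single]
      exact H.mem e h1
    · rw [lw_cons x e w hw]
      exact H.lie _ (ih h2 hw) _ (H.mem e h1)

/-! ### packed vectors -/

def pk : List ℕ → ℕ
  | [] => 0
  | a :: l => a + Bs * pk l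

def ev (x : ℕ → L) : List ℕ → List ℕ → L
  | c :: cs, n :: l => n • wv x c + ev x cs l
  | _, _ => 0

/-- `n` represents `v` with respect to the words with codes `cs`, with digits at most `K` -/
def RepL (x : ℕ → L) (cs : List ℕ) (n K : ℕ) (v : L) : Prop :=
  ∃ l : List ℕ, l.length = cs.length ∧ (∀ y ∈ l, y ≤ K) ∧ pk l = n ∧ ev x cs l = v

theorem repL_zero (x : ℕ → L) (cs : List ℕ) (K : ℕ) : RepL x cs 0 K 0 := by
  refine ⟨List.replicate cs.length 0, List.length_replicate, ?_, ?_, ?_⟩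
  · intro y hy
    rw [List.eq_of_mem_replicate hy]
    exact Nat.zero_le _
  · induction cs with
    | nil => rfl
    | cons c cs ih => simp only [List.length_cons, List.replicate_succ, pk, ih]; norm_num
  · induction cs with
    | nil => rfl
    | cons c cs ih => simp only [List.length_cons, List.replicate_succ, ev, ih, zero_smul, add_zero]

theorem repL_mono {x : ℕ → L} {cs : List ℕ} {n K K' : ℕ} {v : L} (h : RepL x cs n K v)
    (hK : K ≤ K') : RepL x cs n K' v := by
  obtain ⟨l, h1, h2, h3, h4⟩ := h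
  exact ⟨l, h1, fun y hy => (h2 y hy).trans hK, h3, h4⟩

theorem repL_add {x : ℕ → L} {cs : List ℕ} : ∀ {n m K K' : ℕ} {v w : L}, RepL x cs n K v →
    RepL x cs m K' w → RepL x cs (n + m) (K + K') (v + w) := by
  induction cs with
  | nil =>
    rintro n m K K' v w ⟨l, h1, -, rfl, rfl⟩ ⟨l', h1', -, rfl, rfl⟩
    obtain rfl : l = [] := List.length_eq_zero_iff.1 h1
    obtain rfl : l' = [] := List.length_eq_zero_iff.1 h1'
    exact ⟨[], rfl, by simp, rfl, by simp [ev]⟩
  | cons c cs ih =>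
    rintro n m K K' v w ⟨l, h1, h2, rfl, rfl⟩ ⟨l', h1', h2', rfl, rfl⟩
    obtain ⟨a, l, rfl⟩ : ∃ a t, l = a :: t := by
      cases l with
      | nil => simp at h1
      | cons a t => exact ⟨a, t, rfl⟩
    obtain ⟨b, l', rfl⟩ : ∃ a t, l' = a :: t := by
      cases l' with
      | nil => simp at h1'
      | cons a t => exact ⟨a, t, rfl⟩
    simp only [List.length_cons, Nat.add_right_cancel_iff] at h1 h1'
    have e1 : RepL x cs (pk l) K (ev x cs l) :=
      ⟨l, h1, fun y hy => h2 y (List.mem_cons_of_mem _ hy), rfl, rfl⟩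
    have e2 : RepL x cs (pk l') K' (ev x cs l') :=
      ⟨l', h1', fun y hy => h2' y (List.mem_cons_of_mem _ hy), rfl, rfl⟩
    obtain ⟨t, t1, t2, t3, t4⟩ := ih e1 e2
    refine ⟨(a + b) :: t, by simp [t1], ?_, ?_, ?_⟩
    · intro y hy
      rcases List.mem_cons.1 hy with rfl | hy
      · exact add_le_add (h2 a List.mem_cons_self) (h2' b List.mem_cons_self)
      · exact t2 y hy
    · simp only [pk, t3]; ring
    · simp only [ev, t4, add_smul]; abel

theorem repL_smul {x : ℕ → L} {cs : List ℕ} (k : ℕ) : ∀ {n K : ℕ} {v : L}, RepL x cs n K v →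
    RepL x cs (k * n) (k * K) (k • v) := by
  induction cs with
  | nil =>
    rintro n K v ⟨l, h1, -, rfl, rfl⟩
    obtain rfl : l = [] := List.length_eq_zero_iff.1 h1
    exact ⟨[], rfl, by simp, by simp [pk], by simp [ev]⟩
  | cons c cs ih =>
    rintro n K v ⟨l, h1, h2, rfl, rfl⟩
    obtain ⟨a, l, rfl⟩ : ∃ a t, l = a :: t := by
      cases l with
      | nil => simp at h1
      | cons a t => exact ⟨a, t, rfl⟩
    simp only [List.length_cons, Nat.add_right_cancel_iff] at h1
    have e1 : RepL x cs (pk l) K (ev x cs l) :=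
      ⟨l, h1, fun y hy => h2 y (List.mem_cons_of_mem _ hy), rfl, rfl⟩
    obtain ⟨t, t1, t2, t3, t4⟩ := ih e1
    refine ⟨(k * a) :: t, by simp [t1], ?_, ?_, ?_⟩
    · intro y hy
      rcases List.mem_cons.1 hy with rfl | hy
      · exact Nat.mul_le_mul_left k (h2 a List.mem_cons_self)
      · exact t2 y hy
    · simp only [pk, t3]; ring
    · simp only [ev, t4, smul_add, mul_smul]

theorem repL_append_left {x : ℕ → L} (cs ds : List ℕ) : ∀ {n K : ℕ} {v : L}, RepL x cs n K v →
    RepL x (cs ++ ds) n K v := by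
  induction cs with
  | nil =>
    rintro n K v ⟨l, h1, -, rfl, rfl⟩
    obtain rfl : l = [] := List.length_eq_zero_iff.1 h1
    exact repL_zero x ds K
  | cons c cs ih =>
    rintro n K v ⟨l, h1, h2, rfl, rfl⟩
    obtain ⟨a, l, rfl⟩ : ∃ a t, l = a :: t := by
      cases l with
      | nil => simp at h1
      | cons a t => exact ⟨a, t, rfl⟩
    simp only [List.length_cons, Nat.add_right_cancel_iff] at h1
    obtain ⟨t, t1, t2, t3, t4⟩ := ih
      (⟨l, h1, fun y hy => h2 y (List.mem_cons_of_mem _ hy), rfl, rfl⟩ :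
        RepL x cs (pk l) K (ev x cs l))
    refine ⟨a :: t, by simp [t1], ?_, ?_, ?_⟩
    · intro y hy
      rcases List.mem_cons.1 hy with rfl | hy
      · exact h2 y List.mem_cons_self
      · exact t2 y hy
    · simp only [pk, t3]
    · simp only [List.cons_append, ev, t4]

theorem repL_append_right {x : ℕ → L} (cs ds : List ℕ) {n K : ℕ} {v : L} (h : RepL x ds n K v) :
    RepL x (cs ++ ds) (n * Bs ^ cs.length) K v := by
  induction cs with
  | nil => simpa using h
  | cons c cs ih =>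
    obtain ⟨t, t1, t2, t3, t4⟩ := ih
    refine ⟨0 :: t, by simp [t1], ?_, ?_, ?_⟩
    · intro y hy
      rcases List.mem_cons.1 hy with rfl | hy
      · exact Nat.zero_le _
      · exact t2 y hy
    · simp only [pk, t3, List.length_cons, pow_succ]; ring
    · simp only [List.cons_append, ev, t4, zero_smul, zero_add]

theorem repL_unit {x : ℕ → L} : ∀ (cs : List ℕ) (i : ℕ), i < cs.length →
    RepL x cs (Bs ^ i) 1 (wv x (nth cs i)) := by
  intro cs
  induction cs with
  | nil => intro i hi; simp at hi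
  | cons c cs ih =>
    intro i hi
    cases i with
    | zero =>
      obtain ⟨t, t1, t2, t3, t4⟩ := repL_zero x cs 1
      refine ⟨1 :: t, by simp [t1], ?_, ?_, ?_⟩
      · intro y hy
        rcases List.mem_cons.1 hy with rfl | hy
        · exact le_rfl
        · exact t2 y hy
      · simp only [pk, t3]; norm_num
      · simp only [ev, t4, nth, one_smul, add_zero]
    | succ i =>
      obtain ⟨t, t1, t2, t3, t4⟩ := ih i (by simpa using hi)
      refine ⟨0 :: t, by simp [t1], ?_, ?_, ?_⟩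
      · intro y hy
        rcases List.mem_cons.1 hy with rfl | hy
        · exact Nat.zero_le _
        · exact t2 y hy
      · simp only [pk, t3, pow_succ]; ring
      · simp only [ev, t4, nth, zero_smul, zero_add]

theorem dv {a n : ℕ} (h : a < Bs) : (a + Bs * n) / Bs = n := by
  rw [Nat.add_mul_div_left _ _ (by norm_num), Nat.div_eq_of_lt h, zero_add]

theorem md {a n : ℕ} (h : a < Bs) : (a + Bs * n) % Bs = a := by
  rw [Nat.add_mul_mod_self_left, Nat.mod_eq_of_lt h]

theorem mv_cons (r : ℕ) (rs : List ℕ) (n acc : ℕ) :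
    mv (r :: rs) n acc = mv rs (n / Bs) (acc + n % Bs * r) := rfl

theorem mvT_cons (r : ℕ) (rs : List ℕ) (n acc : ℕ) :
    mvT (r :: rs) n acc = mvT rs (n / 8) (acc + n % 8 * r) := rfl

theorem mv_rep {x : ℕ → L} (f : L →+ L) (cs' : List ℕ) {K : ℕ} (hK : K < Bs) {cs rs : List ℕ}
    (h : List.Forall₂ (fun c r => RepL x cs' r 4 (f (wv x c))) cs rs) :
    ∀ (l : List ℕ), l.length = cs.length → (∀ y ∈ l, y ≤ K) → ∀ (acc Ka : ℕ) (va : L),
      RepL x cs' acc Ka va →
      RepL x cs' (mv rs (pk l) acc) (Ka + K * (4 * cs.length)) (va + f (ev x cs l)) := by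
  induction h with
  | nil =>
    intro l h1 _ acc Ka va ha
    obtain rfl : l = [] := List.length_eq_zero_iff.1 h1
    simpa [ev, mv] using ha
  | @cons c r cs rs hr _ ih =>
    intro l h1 h2 acc Ka va ha
    obtain ⟨a, l, rfl⟩ : ∃ a t, l = a :: t := by
      cases l with
      | nil => simp at h1
      | cons a t => exact ⟨a, t, rfl⟩
    simp only [List.length_cons, Nat.add_right_cancel_iff] at h1
    have ha1 : a ≤ K := h2 a List.mem_cons_self
    have e1 : (a + Bs * pk l) / Bs = pk l := dv (by omega)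
    have e2 : (a + Bs * pk l) % Bs = a := md (by omega)
    rw [mv_cons, pk, e1, e2]
    have h3 := ih l h1 (fun y hy => h2 y (List.mem_cons_of_mem _ hy)) (acc + a * r) (Ka + a * 4)
      (va + a • f (wv x c)) (repL_add ha (repL_smul a hr))
    have h4 : va + a • f (wv x c) + f (ev x cs l) = va + f (ev x (c :: cs) (a :: l)) := by
      simp only [ev, map_add, map_nsmul]; abel
    rw [h4] at h3
    refine repL_mono h3 ?_
    simp only [List.length_cons]
    nlinarith

theorem mvT_rep {x : ℕ → L} (cs : List ℕ) {rs Ks : List ℕ}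
    (h : List.Forall₂ (fun r k => RepL x cs r k 0) rs Ks) :
    ∀ (t acc Ka : ℕ), RepL x cs acc Ka 0 →
      RepL x cs (mvT rs t acc) (Ka + 7 * Ks.sum) 0 := by
  induction h with
  | nil =>
    intro t acc Ka ha
    simpa [mvT] using ha
  | @cons r k rs Ks hr _ ih =>
    intro t acc Ka ha
    rw [mvT_cons]
    have h1 := repL_add ha (repL_smul (t % 8) hr)
    rw [smul_zero, add_zero] at h1
    refine repL_mono (ih (t / 8) _ _ h1) ?_
    simp only [List.sum_cons]
    have : t % 8 ≤ 7 := by omega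
    nlinarith

/-! ### the environment -/

/-- static conditions on the table of components -/
structure EOK (E : ℕ → Nd) : Prop where
  c4 : ∀ q, 4 * (E q).codes.length ≤ (E q).c4
  val : ∀ q, ∀ c ∈ (E q).codes, 4 ≤ c ∧ isWd (dcd c) = true
  next : ∀ q, E q = .nil ∨ ∀ e < 3, (E q).next e = E (q + un e)
  gen : ∀ e < 3, (E (un e)).codes = [4 + e]

/-- the actions into the components with label less than `X` are correct -/
def Env (x : ℕ → L) (E : ℕ → Nd) (X : ℕ) : Prop :=
  ∀ q e, e < 3 → q + un e < X → List.Forall₂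
    (fun c r => RepL x (E (q + un e)).codes r 4 ⁅wv x c, x e⁆) (E q).codes ((E q).rows e)

/-- the state `s` represents `v` in the component with label `q` -/
def SRep (x : ℕ → L) (E : ℕ → Nd) (q : ℕ) (s : St) (v : L) : Prop :=
  RepL x (E q).codes s.n s.K v ∧ (s.nd = E q ∨ (s.nd = .nil ∧ s.n = 0 ∧ v = 0))

/-- the bracket with a fixed right factor -/
def rb (a : L) : L →+ L where
  toFun v := ⁅v, a⁆
  map_zero' := zero_lie a
  map_add' u v := add_lie u v a

theorem rb_apply (a v : L) : rb a v = ⁅v, a⁆ := rfl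

theorem op_rep {x : ℕ → L} {E : ℕ → Nd} (hE : EOK E) {X q e : ℕ} (hX : Env x E X) (he : e < 3)
    (hq : q + un e < X) {s : St} {v : L} (hK : s.K < Bs) (h : SRep x E q s v) :
    SRep x E (q + un e) (op e s) ⁅v, x e⁆ := by
  obtain ⟨h1, h2 | ⟨h2, h3, rfl⟩⟩ := h
  · have e1 : (op e s).n = mv ((E q).rows e) s.n 0 := by rw [← h2]; rfl
    have e2 : (op e s).K = s.K + s.K * (E q).c4 := by rw [← h2]; rfl
    have e3 : (op e s).nd = (E q).next e := by rw [← h2]; rfl
    obtain ⟨l, l1, l2, l3, rfl⟩ := h1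
    have h4 := mv_rep (rb (x e)) (E (q + un e)).codes hK (hX q e he hq) l l1 l2 0 0 0
      (repL_zero _ _ _)
    rw [l3, zero_add, zero_add, rb_apply] at h4
    refine ⟨?_, ?_⟩
    · rw [e1, e2]
      refine repL_mono h4 ?_
      have := Nat.mul_le_mul_left s.K (hE.c4 q)
      omega
    · rw [e3, e1]
      rcases hE.next q with h5 | h5
      · right
        rw [h5] at l1 ⊢
        obtain rfl : l = [] := List.length_eq_zero_iff.1 l1
        refine ⟨rfl, ?_, ?_⟩
        · rw [← l3]; rfl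
        · simp [Nd.codes, ev]
      · left; exact h5 e he
  · have e1 : (op e s).n = 0 := by
      change mv (s.nd.rows e) s.n 0 = 0
      rw [h2]; rfl
    have e3 : (op e s).nd = .nil := by
      change s.nd.next e = .nil
      rw [h2]; rfl
    refine ⟨?_, Or.inr ⟨e3, e1, zero_lie _⟩⟩
    rw [e1, zero_lie]
    exact repL_zero _ _ _

theorem pick_ok {E : ℕ → Nd} {q : ℕ} {a b : Nd} (ha : a = E q ∨ a = .nil) (hb : b = E q ∨ b = .nil)
    (h : a = E q ∨ b = E q) : pick a b = E q := by
  rcases ha with rfl | rfl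
  · rcases hE : E q with _ | _
    · rw [hE] at hb
      rcases hb with rfl | rfl <;> rfl
    · rfl
  · rcases h with h | rfl
    · rw [← h] at hb ⊢
      rcases hb with rfl | rfl <;> rfl
    · rfl

theorem add_rep {x : ℕ → L} {E : ℕ → Nd} {q : ℕ} {s t : St} {v w : L} (h : SRep x E q s v)
    (h' : SRep x E q t w) : SRep x E q (s.add t) (v + w) := by
  refine ⟨repL_add h.1 h'.1, ?_⟩
  obtain ⟨-, h⟩ := h
  obtain ⟨-, h'⟩ := h'
  by_cases hc : s.nd = E q ∨ t.nd = E q
  · left
    exact pick_ok (h.imp_right fun h => h.1) (h'.imp_right fun h => h.1) hc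
  · push Not at hc
    obtain ⟨a1, a2, a3⟩ := h.resolve_left hc.1
    obtain ⟨b1, b2, b3⟩ := h'.resolve_left hc.2
    right
    refine ⟨?_, ?_, ?_⟩
    · change pick s.nd t.nd = .nil
      rw [a1, b1]; rfl
    · change s.n + t.n = 0
      rw [a2, b2]
    · rw [a3, b3, add_zero]

theorem neg_four {v : L} (h5 : 5 • v = 0) : 4 • v = -v := by
  have : 4 • v + v = 0 := by
    rw [← h5]; abel
  exact eq_neg_of_add_eq_zero_left this

theorem sub_rep {x : ℕ → L} {E : ℕ → Nd} (h5 : ∀ v : L, 5 • v = 0) {q : ℕ} {s t : St} {v w : L}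
    (h : SRep x E q s v) (h' : SRep x E q t w) : SRep x E q (s.sub t) (v - w) := by
  have e : SRep x E q ⟨t.nd, 4 * t.n, 4 * t.K⟩ (-w) := by
    refine ⟨?_, ?_⟩
    · rw [← neg_four (h5 w)]
      exact repL_smul 4 h'.1
    · rcases h'.2 with h | ⟨h1, h2, h3⟩
      · exact Or.inl h
      · refine Or.inr ⟨h1, ?_, ?_⟩
        · change 4 * t.n = 0
          rw [h2]
        · rw [h3, neg_zero]
  have := add_rep h e
  rw [← sub_eq_add_neg] at this
  exact this

theorem op_K (e : ℕ) (s : St) : s.K ≤ (op e s).K := Nat.le_add_right _ _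

theorem opw_nil (s : St) : opw [] s = ⟨s.nd, 0, s.K⟩ := rfl
theorem opw_single (e : ℕ) (s : St) : opw [e] s = op e s := rfl
theorem opw_cons (e a : ℕ) (w : List ℕ) (s : St) :
    opw (e :: a :: w) s = (op e (opw (a :: w) s)).sub (opw (a :: w) (op e s)) := rfl

theorem opwS_nil (sh : ℕ → ℕ) (s : St) : opwS sh [] s = ⟨.nil, 0, s.K⟩ := rfl
theorem opwS_single (sh : ℕ → ℕ) (e : ℕ) (s : St) : opwS sh [e] s = opS sh e s := rfl
theorem opwS_cons (sh : ℕ → ℕ) (e a : ℕ) (w : List ℕ) (s : St) :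
    opwS sh (e :: a :: w) s =
      (opS sh e (opw (a :: w) s)).sub (opwS sh (a :: w) (op e s)) := rfl

theorem opw_K (w : List ℕ) : ∀ s : St, s.K ≤ (opw w s).K := by
  induction w with
  | nil => intro s; exact le_rfl
  | cons e w ih =>
    intro s
    cases w with
    | nil => exact op_K e s
    | cons a w =>
      rw [opw_cons]
      exact ((ih s).trans (op_K e _)).trans (Nat.le_add_right _ _)

theorem lie_rule (v a b : L) : ⁅⁅v, a⁆, b⁆ - ⁅⁅v, b⁆, a⁆ = ⁅v, ⁅a, b⁆⁆ := by
  have h1 : ⁅v, ⁅a, b⁆⁆ = ⁅⁅v, a⁆, b⁆ + ⁅a, ⁅v, b⁆⁆ := leibniz_lie v a b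
  have h2 : ⁅a, ⁅v, b⁆⁆ = -⁅⁅v, b⁆, a⁆ := (lie_skew _ _).symm
  rw [h1, h2]; abel

theorem opw_rep {x : ℕ → L} {E : ℕ → Nd} (h5 : ∀ v : L, 5 • v = 0) (hE : EOK E) {X : ℕ}
    (hX : Env x E X) (w : List ℕ) : isWd w = true → ∀ (q : ℕ) (s : St) (v : L),
      q + dg w < X → (opw w s).K < Bs → SRep x E q s v →
      SRep x E (q + dg w) (opw w s) ⁅v, lw x w⁆ := by
  induction w with
  | nil =>
    intro _ q s v _ _ h
    refine ⟨?_, ?_⟩
    · rw [opw_nil, lw, lie_zero]
      exact repL_zero _ _ _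
    · rcases h.2 with h | ⟨h1, h2, h3⟩
      · exact Or.inl h
      · exact Or.inr ⟨h1, rfl, by rw [lw, lie_zero]⟩
  | cons e w ih =>
    intro hw q s v hq hK h
    obtain ⟨he, hw'⟩ := isWd_cons hw
    cases w with
    | nil =>
      rw [opw_single] at hK ⊢
      rw [lw_single]
      have e0 : q + dg [e] = q + un e := by simp [dg]
      rw [e0] at hq ⊢
      exact op_rep hE hX he hq (lt_of_le_of_lt (op_K e s) hK) h
    | cons a w =>
      rw [opw_cons] at hK ⊢
      rw [lw_cons x e _ (List.cons_ne_nil _ _), ← lie_rule]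
      have K1 : (op e (opw (a :: w) s)).K < Bs := lt_of_le_of_lt (Nat.le_add_right _ _) hK
      have K2 : (opw (a :: w) (op e s)).K < Bs := by
        refine lt_of_le_of_lt ?_ hK
        change _ ≤ (op e (opw (a :: w) s)).K + 4 * (opw (a :: w) (op e s)).K
        omega
      have d1 : q + dg (e :: a :: w) = (q + dg (a :: w)) + un e := by
        rw [dg]; omega
      have d2 : q + dg (e :: a :: w) = (q + un e) + dg (a :: w) := by
        rw [dg]; omega
      refine sub_rep h5 ?_ ?_
      · rw [d1] at hq ⊢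
        exact op_rep hE hX he hq (lt_of_le_of_lt (op_K _ _) K1)
          (ih hw' q s v (by omega) (lt_of_le_of_lt (op_K _ _) K1) h)
      · rw [d2] at hq ⊢
        exact ih hw' _ _ _ hq K2 (op_rep hE hX he (by omega)
          ((op_K e s).trans_lt ((opw_K _ _).trans_lt K2)) h)

end Pool.Agent.Y50.FE
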