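import Pool.Agent.Y50.FE.NSC
import Pool.Agent.Y50.FE.Snd

/-!
# The linearised fourth Engel identity for the Lie ring of an N-series of a group of exponent 5
-/

set_option autoImplicit false

namespace Pool.Agent.Y50.FE

open Subgroup
open scoped commutatorElement

universe u v

section
variable {W : Type v} [AddCommGroup W]

/-- a module which is an image of a Lie ring of a group of exponent five, with the operators
induced by a group element and by four homogeneous elements, and the image of an element -/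
def Rz (W : Type v) [AddCommGroup W] (m : ℕ) (n : Fin 4 → ℕ) (op : W →+ W)
    (A : Fin 4 → W →+ W) (bv : W) : Prop :=
  ∃ (G : Type u) (_ : Group G) (F : NS G) (Ψ : LR F →+ W) (α : G) (a : Fin 4 → G) (b : G),
    (∀ g : G, g ^ 5 = 1) ∧ (∀ j, a j ∈ F.H (n j)) ∧ b ∈ F.H m ∧
    (∀ x, Ψ (act F α x) = op (Ψ x)) ∧ (∀ j x, Ψ ⁅cls F (n j) (a j), x⁆ = A j (Ψ x)) ∧
    Ψ (cls F m b) = bv

/-- the operator on the doubled module -/
def dop (op A : W →+ W) : W × W →+ W × W where
  toFun p := (op p.1, op (p.2 + A p.1))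
  map_zero' := by simp
  map_add' p q := by
    refine Prod.ext (by simp) ?_
    simp only [Prod.fst_add, Prod.snd_add, map_add]
    abel

theorem dop_apply (op A : W →+ W) (p : W × W) : dop op A p = (op p.1, op (p.2 + A p.1)) := rfl

theorem Rz.dbl {m : ℕ} {n : Fin 4 → ℕ} {op : W →+ W} {A : Fin 4 → W →+ W} {bv : W}
    (hm : 1 ≤ m) (hn : ∀ j, 1 ≤ n j) (h : Rz.{u} W m n op A bv) (i : Fin 4) :
    Rz.{u} (W × W) m n (dop op (A i)) (fun j => (A j).prodMap (A j)) (bv, 0) := by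
  obtain ⟨G, _, F, Ψ, α, a, b, h5, ha, hb, hα, hA, hbv⟩ := h
  refine ⟨F.D (n i), inferInstance, F.dbl (n i),
    ((Ψ.comp (prj F (n i))).prod (Ψ.comp (tau F (n i)))), bet F (n i) α (a i) (ha i),
    fun j => dia F (n i) (a j), dia F (n i) b, ?_, ?_, ?_, ?_, ?_, ?_⟩
  · rintro ⟨p, hp⟩
    exact Subtype.ext (Prod.ext (h5 _) (h5 _))
  · intro j
    exact dia_mem F (ha j)
  · exact dia_mem F hb
  · intro x
    rw [dop_apply]
    refine Prod.ext ?_ ?_
    · change Ψ (prj F (n i) _) = op (Ψ (prj F (n i) x))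
      rw [prj_act F (ha i), hα]
    · change Ψ (tau F (n i) _) = op (Ψ (tau F (n i) x) + A i (Ψ (prj F (n i) x)))
      rw [tau_act F (hn i) (ha i), hα, map_add, hA]
  · intro j x
    refine Prod.ext ?_ ?_
    · change Ψ (prj F (n i) _) = A j (Ψ (prj F (n i) x))
      rw [prj_lie F (hn j) (ha j), hA]
    · change Ψ (tau F (n i) _) = A j (Ψ (tau F (n i) x))
      rw [tau_lie F (hn j) (ha j), hA]
  · refine Prod.ext ?_ ?_
    · change Ψ (prj F (n i) _) = bv
      rw [prj_dia F hm hb, hbv]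
    · change Ψ (tau F (n i) _) = 0
      rw [tau_dia F hm hb, map_zero]

theorem Rz.sum {m : ℕ} {n : Fin 4 → ℕ} {op : W →+ W} {A : Fin 4 → W →+ W} {bv : W}
    (h : Rz.{u} W m n op A bv) :
    bv + op bv + op (op bv) + op (op (op bv)) + op (op (op (op bv))) = 0 := by
  obtain ⟨G, _, F, Ψ, α, a, b, h5, ha, hb, hα, hA, hbv⟩ := h
  have h1 := congrArg Ψ (act_sum F h5 α (cls F m b))
  rw [map_zero] at h1
  rw [← hbv, ← hα, ← hα, ← hα, ← hα, ← h1]
  simp only [map_add]

/-- the difference of an operator and the identity -/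
def df (op : W →+ W) (x : W) : W := op x - x

theorem df4 (h5 : ∀ y : W, 5 • y = 0) (op : W →+ W) (x : W)
    (h : x + op x + op (op x) + op (op (op x)) + op (op (op (op x))) = 0) :
    df op (df op (df op (df op x))) = 0 := by
  unfold df
  simp only [map_sub]
  have h1 := h5 (op x)
  have h2 := h5 (op (op x))
  have h3 := h5 (op (op (op x)))
  calc _ = (x + op x + op (op x) + op (op (op x)) + op (op (op (op x))))
        - 5 • op x + 5 • op (op x) - 5 • op (op (op x)) := by abel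
    _ = 0 := by rw [h, h1, h2, h3]; simp

/-- the difference operator of the doubled module -/
def nn (N : W → W) (A : W →+ W) (p : W × W) : W × W := (N p.1, N p.2 + A p.1 + N (A p.1))

theorem df_dop (op A : W →+ W) : df (dop op A) = nn (df op) A := by
  funext p
  unfold df nn
  rw [dop_apply]
  refine Prod.ext (by simp) ?_
  simp only [Prod.snd_sub, map_add]
  abel

theorem df_id : df (AddMonoidHom.id W) = fun _ => 0 := by
  funext x
  simp [df]

/-- the difference operator on sixteen coordinates -/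
def N4 (A B C D : W →+ W) :
    (((W × W) × (W × W)) × ((W × W) × (W × W))) × (((W × W) × (W × W)) × ((W × W) × (W × W))) →
    (((W × W) × (W × W)) × ((W × W) × (W × W))) × (((W × W) × (W × W)) × ((W × W) × (W × W))) :=
  nn (nn (nn (nn (fun _ => 0) A) (B.prodMap B)) ((C.prodMap C).prodMap (C.prodMap C)))
        (((D.prodMap D).prodMap (D.prodMap D)).prodMap ((D.prodMap D).prodMap (D.prodMap D)))

theorem top_coord (A B C D : W →+ W) (b : W)
    (h : N4 A B C D (N4 A B C D (N4 A B C D (N4 A B C D ((((b, 0), 0), 0), 0)))) = 0) :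
    A (B (C (D b))) + A (B (D (C b))) + A (C (B (D b))) + A (C (D (B b))) + A (D (B (C b))) +
      A (D (C (B b))) + B (A (C (D b))) + B (A (D (C b))) + B (C (A (D b))) + B (C (D (A b))) +
      B (D (A (C b))) + B (D (C (A b))) + C (A (B (D b))) + C (A (D (B b))) + C (B (A (D b))) +
      C (B (D (A b))) + C (D (A (B b))) + C (D (B (A b))) + D (A (B (C b))) + D (A (C (B b))) +
      D (B (A (C b))) + D (B (C (A b))) + D (C (A (B b))) + D (C (B (A b))) = 0 := by
  obtain ⟨v1, h1⟩ : ∃ v, v = N4 A B C D ((((b, 0), 0), 0), 0) := ⟨_, rfl⟩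
  rw [← h1] at h
  simp [N4, nn] at h1
  obtain ⟨v2, h2⟩ : ∃ v, v = N4 A B C D v1 := ⟨_, rfl⟩
  rw [← h2] at h
  rw [h1] at h2
  simp [N4, nn] at h2
  obtain ⟨v3, h3⟩ : ∃ v, v = N4 A B C D v2 := ⟨_, rfl⟩
  rw [← h3] at h
  rw [h2] at h3
  simp [N4, nn] at h3
  rw [h3] at h
  have h4 := congrArg (fun p => p.2.2.2.2) h
  simp [N4, nn] at h4
  rw [← h4]
  abel

end

section
variable {G : Type u} [Group G] (F : NS G)

/-- left multiplication in the Lie ring -/
noncomputable def lad (y : LR F) : LR F →+ LR F where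
  toFun x := ⁅y, x⁆
  map_zero' := lie_zero y
  map_add' := lie_add y

theorem lad_apply (y x : LR F) : lad F y x = ⁅y, x⁆ := rfl

/-- The linearised fourth Engel identity for homogeneous elements. -/
theorem engel4 (h5 : ∀ g : G, g ^ 5 = 1) {m : ℕ} {n : Fin 4 → ℕ} (hm : 1 ≤ m)
    (hn : ∀ j, 1 ≤ n j) {a : Fin 4 → G} (ha : ∀ j, a j ∈ F.H (n j)) {b : G} (hb : b ∈ F.H m) :
    S4 (cls F m b) (cls F (n 0) (a 0)) (cls F (n 1) (a 1)) (cls F (n 2) (a 2))
      (cls F (n 3) (a 3)) = 0 := by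
  have R0 : Rz.{u} (LR F) m n (AddMonoidHom.id (LR F)) (fun j => lad F (cls F (n j) (a j)))
      (cls F m b) := by
    refine ⟨G, inferInstance, F, AddMonoidHom.id _, 1, a, b, h5, ha, hb, ?_, ?_, rfl⟩
    · intro x
      exact act_one F x
    · intro j x
      rfl
  have R4 := (((R0.dbl hm hn 0).dbl hm hn 1).dbl hm hn 2).dbl hm hn 3
  have s5 : ∀ y : LR F, 5 • y = 0 := five_smul F h5
  have s5a : ∀ y : LR F × LR F, 5 • y = 0 := fun y => Prod.ext (s5 _) (s5 _)
  have s5b : ∀ y : (LR F × LR F) × (LR F × LR F), 5 • y = 0 := fun y => Prod.ext (s5a _) (s5a _)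
  have s5c : ∀ y : ((LR F × LR F) × (LR F × LR F)) × ((LR F × LR F) × (LR F × LR F)),
      5 • y = 0 := fun y => Prod.ext (s5b _) (s5b _)
  have h1 := df4 (fun y => Prod.ext (s5c y.1) (s5c y.2)) _ _ R4.sum
  rw [df_dop, df_dop, df_dop, df_dop, df_id] at h1
  have h2 := top_coord _ _ _ _ _ h1
  simp only [lad_apply] at h2
  rw [← h2]
  unfold S4 S3 S2
  have sw : ∀ b p q r s : LR F, ⁅⁅⁅⁅b, p⁆, q⁆, r⁆, s⁆ = ⁅s, ⁅r, ⁅q, ⁅p, b⁆⁆⁆⁆ := by
    intro b p q r s
    rw [← lie_skew s, ← lie_skew r, ← lie_skew q, ← lie_skew p]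
    simp
  simp only [sw]
  abel

/-- the homogeneous elements -/
def Hom (F : NS G) : Set (LR F) := {v | ∃ (w : ℕ) (g : G), 1 ≤ w ∧ g ∈ F.H w ∧ v = cls F w g}

theorem hyp (h5 : ∀ g : G, g ^ 5 = 1) (x : ℕ → LR F) (hx : ∀ e < 3, x e ∈ Hom F) :
    Hyp (Hom F) x where
  five := five_smul F h5
  mem := hx
  lie := by
    rintro _ ⟨w, g, hw, hg, rfl⟩ _ ⟨v, h, hv, hh, rfl⟩
    exact ⟨w + v, ⁅g, h⁆, by omega, F.comm hg hh, cls_lie F hw hv hg hh⟩
  eng := by
    rintro _ ⟨m, b, hm, hb, rfl⟩ _ ⟨n0, a0, hn0, ha0, rfl⟩ _ ⟨n1, a1, hn1, ha1, rfl⟩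
      _ ⟨n2, a2, hn2, ha2, rfl⟩ _ ⟨n3, a3, hn3, ha3, rfl⟩
    have h := engel4 F h5 (n := ![n0, n1, n2, n3]) hm
      (by intro j; fin_cases j <;> assumption) (a := ![a0, a1, a2, a3])
      (by intro j; fin_cases j <;> assumption) hb
    simpa using h

end

end Pool.Agent.Y50.FE
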