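import Pool.Agent.Y50.FE.MN
import Pool.Agent.Y50.FE.CC.Fin
import Pool.Agent.Y50.FE.BB.Fin

/-!
# Two identities in finite groups of exponent five
-/

set_option autoImplicit false

namespace Pool.Agent.Y50.FE

open Subgroup
open scoped commutatorElement

universe u

/-- the weights -/
def w13 (e : ℕ) : ℕ := if e = 0 then 13 else 1

theorem w13_one (e : ℕ) : 1 ≤ w13 e := by unfold w13; split <;> omega

theorem w13_le (e : ℕ) : w13 e ≤ 13 := by unfold w13; split <;> omega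

theorem wwt13 (w : List ℕ) (h : isWd w = true) :
    wwt w13 w = 13 * w.count 0 + w.count 1 + w.count 2 := by
  induction w with
  | nil => rfl
  | cons e w ih =>
    obtain ⟨he, hw⟩ := isWd_cons h
    rw [wwt_cons, ih hw]
    interval_cases e
    · simp [w13]; ring
    · simp [w13]; ring
    · simp [w13]; ring

variable {G : Type u} [Group G]

theorem hom_gx (s : ℕ → G) (wt : ℕ → ℕ) (hw : ∀ e < 3, 1 ≤ wt e) :
    ∀ e < 3, gx s wt e ∈ Hom (mns s wt) :=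
  fun e he => ⟨wt e, s e, hw e he, mns_gen s wt e he, rfl⟩

/-- If `z` is a left 3-Engel element then `c = [g,z,z]` satisfies `[h,c,c] = 1`. -/
theorem lemC [Finite G] (h5 : ∀ g : G, g ^ 5 = 1) (s : ℕ → G)
    (hs : closure ({s 0, s 1, s 2} : Set G) = ⊤)
    (hz : ∀ v : G, ⁅⁅⁅v, s 0⁆, s 0⁆, s 0⁆ = 1) :
    ⁅⁅s 2, ⁅⁅s 1, s 0⁆, s 0⁆⁆, ⁅⁅s 1, s 0⁆, s 0⁆⁆ = 1 := by
  have hH := hyp (mns s w13) h5 (gx s w13) (hom_gx s w13 fun e _ => w13_one e)
  have h0 := mns_gen s w13 0 (by omega)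
  have h1 := mns_gen s w13 1 (by omega)
  have h2 := mns_gen s w13 2 (by omega)
  have hz' : ∀ v ∈ Hom (mns s w13), ⁅⁅⁅v, gx s w13 0⁆, gx s w13 0⁆, gx s w13 0⁆ = 0 := by
    rintro _ ⟨w, g, hw, hg, rfl⟩
    unfold gx
    rw [cls_lie _ hw (w13_one 0) hg h0, cls_lie _ (by omega) (w13_one 0)
      ((mns s w13).comm hg h0) h0, cls_lie _ (by omega) (w13_one 0)
      ((mns s w13).comm ((mns s w13).comm hg h0) h0) h0, hz, cls_one]
  have hb : (mns s w13).H 52 = ⊥ := by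
    refine mns_vanish h5 13 (by omega) hs (fun e _ => w13_one e) (fun e _ => w13_le e) 52
      (by omega) ?_
    intro w hw hn h52
    by_contra hne
    obtain ⟨b0, b1, b2⟩ := CC.bound hH hz' w hw hne
    rw [wwt13 w hw] at h52
    omega
  have c1 : ⁅⁅s 1, s 0⁆, s 0⁆ ∈ (mns s w13).H (1 + 13 + 13) :=
    (mns s w13).comm ((mns s w13).comm h1 h0) h0
  have c2 := (mns s w13).comm ((mns s w13).comm h2 c1) c1
  have c3 := (mns s w13).anti (show 52 ≤ 1 + (1 + 13 + 13) + (1 + 13 + 13) by omega) c2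
  rw [hb] at c3
  exact mem_bot.1 c3

/-- If `z = [y,x,x,x]` then `[g,z,z,z] = 1`. -/
theorem lemB [Finite G] (h5 : ∀ g : G, g ^ 5 = 1) (s : ℕ → G)
    (hs : closure ({s 0, s 1, s 2} : Set G) = ⊤) :
    ⁅⁅⁅s 2, ⁅⁅⁅s 1, s 0⁆, s 0⁆, s 0⁆⁆, ⁅⁅⁅s 1, s 0⁆, s 0⁆, s 0⁆⁆, ⁅⁅⁅s 1, s 0⁆, s 0⁆, s 0⁆⁆ = 1 := by
  have hH := hyp (mns s w13) h5 (gx s w13) (hom_gx s w13 fun e _ => w13_one e)
  have h0 := mns_gen s w13 0 (by omega)
  have h1 := mns_gen s w13 1 (by omega)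
  have h2 := mns_gen s w13 2 (by omega)
  have hb : (mns s w13).H 91 = ⊥ := by
    refine mns_vanish h5 13 (by omega) hs (fun e _ => w13_one e) (fun e _ => w13_le e) 91
      (by omega) ?_
    intro w hw hn h91
    by_contra hne
    obtain ⟨b0, b1, b2⟩ := BB.bound hH w hw hne
    rw [wwt13 w hw] at h91
    omega
  have c1 : ⁅⁅⁅s 1, s 0⁆, s 0⁆, s 0⁆ ∈ (mns s w13).H (1 + 13 + 13 + 13) :=
    (mns s w13).comm ((mns s w13).comm ((mns s w13).comm h1 h0) h0) h0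
  have c2 := (mns s w13).comm ((mns s w13).comm ((mns s w13).comm h2 c1) c1) c1
  have c3 := (mns s w13).anti (show 91 ≤ 1 + (1 + 13 + 13 + 13) + (1 + 13 + 13 + 13) +
    (1 + 13 + 13 + 13) by omega) c2
  rw [hb] at c3
  exact mem_bot.1 c3

end Pool.Agent.Y50.FE
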