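import Pool.Agent.Y50.FE.E4
import Pool.Agent.H77R2.AssocLie

/-!
# The smallest N-series with generators of given weights
-/

set_option autoImplicit false

namespace Pool.Agent.Y50.FE

open Subgroup
open scoped commutatorElement

universe u

section
variable {G : Type u} [Group G] (s : ℕ → G) (wt : ℕ → ℕ)

/-- the smallest N-series which contains `s e` in its term of index `wt e` for `e = 0, 1, 2` -/
def mns : NS G where
  H n := ⨅ N : {N : NS G // ∀ e < 3, s e ∈ N.H (wt e)}, N.1.H n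
  zero := by
    rw [iInf_eq_top]
    exact fun N => N.1.zero
  anti := fun h => iInf_mono fun N => N.1.anti h
  comm := by
    intro i j g h hg hh
    rw [mem_iInf] at *
    exact fun N => N.1.comm (hg N) (hh N)

theorem mns_gen (e : ℕ) (he : e < 3) : s e ∈ (mns s wt).H (wt e) := by
  change s e ∈ ⨅ N : {N : NS G // ∀ e < 3, s e ∈ N.H (wt e)}, N.1.H (wt e)
  rw [mem_iInf]
  exact fun N => N.2 e he

theorem mns_le {N : NS G} (hN : ∀ e < 3, s e ∈ N.H (wt e)) (n : ℕ) : (mns s wt).H n ≤ N.H n :=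
  iInf_le (fun N : {N : NS G // ∀ e < 3, s e ∈ N.H (wt e)} => N.1.H n) ⟨N, hN⟩

variable {s wt}

theorem mns_one (hs : closure ({s 0, s 1, s 2} : Set G) = ⊤) (hw : ∀ e < 3, 1 ≤ wt e) :
    (mns s wt).H 1 = ⊤ := by
  rw [eq_top_iff, ← hs, closure_le]
  rintro g (rfl | rfl | rfl)
  · exact (mns s wt).anti (hw 0 (by omega)) (mns_gen s wt 0 (by omega))
  · exact (mns s wt).anti (hw 1 (by omega)) (mns_gen s wt 1 (by omega))
  · exact (mns s wt).anti (hw 2 (by omega)) (mns_gen s wt 2 (by omega))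

/-- the weight of a word -/
def wwt (wt : ℕ → ℕ) (w : List ℕ) : ℕ := (w.map wt).sum

theorem wwt_cons (wt : ℕ → ℕ) (e : ℕ) (w : List ℕ) : wwt wt (e :: w) = wt e + wwt wt w := by
  simp [wwt]

section
variable {L : Type u} [LieRing L] (x : ℕ → L) (wt)

/-- the span of the products of a given weight -/
def Wsp (n : ℕ) : AddSubgroup L :=
  AddSubgroup.closure {v | ∃ w, isWd w = true ∧ w ≠ [] ∧ wwt wt w = n ∧ v = lw x w}

variable {x wt}

theorem lw_mem_Wsp {w : List ℕ} (h : isWd w = true) (hn : w ≠ []) :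
    lw x w ∈ Wsp wt x (wwt wt w) := AddSubgroup.subset_closure ⟨w, h, hn, rfl, rfl⟩

theorem isWd_cons' {e : ℕ} {w : List ℕ} (he : e < 3) (hw : isWd w = true) :
    isWd (e :: w) = true := by
  unfold isWd
  rw [hw, Bool.and_true]
  interval_cases e <;> rfl

theorem lie_x_Wsp {n e : ℕ} (he : e < 3) {v : L} (hv : v ∈ Wsp wt x n) :
    ⁅v, x e⁆ ∈ Wsp wt x (n + wt e) := by
  unfold Wsp at hv
  induction hv using AddSubgroup.closure_induction with
  | mem v hv =>
    obtain ⟨w, hw, hn, rfl, rfl⟩ := hv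
    rw [← lw_cons x e w hn, add_comm, ← wwt_cons]
    exact lw_mem_Wsp (isWd_cons' he hw) (by simp)
  | zero => rw [zero_lie]; exact zero_mem _
  | add a b _ _ ha hb => rw [add_lie]; exact add_mem ha hb
  | neg a _ ha => rw [neg_lie]; exact neg_mem ha

theorem lie_w_Wsp (w : List ℕ) (h : isWd w = true) (hn : w ≠ []) :
    ∀ {n : ℕ} {v : L}, v ∈ Wsp wt x n → ⁅v, lw x w⁆ ∈ Wsp wt x (n + wwt wt w) := by
  induction w with
  | nil => exact absurd rfl hn
  | cons e w ih =>
    intro n v hv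
    obtain ⟨he, hw⟩ := isWd_cons h
    by_cases hw0 : w = []
    · subst hw0
      rw [lw_single, wwt_cons]
      exact lie_x_Wsp he hv
    · rw [lw_cons x e w hw0, wwt_cons]
      have h1 : ⁅v, ⁅lw x w, x e⁆⁆ = ⁅⁅v, lw x w⁆, x e⁆ - ⁅⁅v, x e⁆, lw x w⁆ := by
        rw [leibniz_lie, ← lie_skew (lw x w) ⁅v, x e⁆]
        abel
      rw [h1]
      refine sub_mem ?_ ?_
      · have := lie_x_Wsp he (ih hw hw0 hv)
        rwa [show n + wwt wt w + wt e = n + (wt e + wwt wt w) by ring] at this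
      · have := ih hw hw0 (lie_x_Wsp he hv)
        rwa [show n + wt e + wwt wt w = n + (wt e + wwt wt w) by ring] at this

theorem lie_Wsp {m n : ℕ} {u v : L} (hu : u ∈ Wsp wt x m) (hv : v ∈ Wsp wt x n) :
    ⁅u, v⁆ ∈ Wsp wt x (m + n) := by
  unfold Wsp at hv
  induction hv using AddSubgroup.closure_induction with
  | mem v hv =>
    obtain ⟨w, hw, hn, rfl, rfl⟩ := hv
    exact lie_w_Wsp w hw hn hu
  | zero => rw [lie_zero]; exact zero_mem _
  | add a b _ _ ha hb => rw [lie_add]; exact add_mem ha hb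
  | neg a _ ha => rw [lie_neg]; exact neg_mem ha

end

/-- the classes of the generators -/
noncomputable def gx (s : ℕ → G) (wt : ℕ → ℕ) (e : ℕ) : LR (mns s wt) :=
  cls (mns s wt) (wt e) (s e)

/-- the elements with classes in the span of the words -/
noncomputable def sns (hs : closure ({s 0, s 1, s 2} : Set G) = ⊤) (hw : ∀ e < 3, 1 ≤ wt e) :
    NS G where
  H n :=
    { carrier := {g | g ∈ (mns s wt).H n ∧
        (1 ≤ n → cls (mns s wt) n g ∈ Wsp wt (gx s wt) n)}
      one_mem' := ⟨one_mem _, fun _ => by rw [cls_one]; exact zero_mem _⟩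
      mul_mem' := fun ha hb => ⟨mul_mem ha.1 hb.1, fun hn => by
        rw [cls_mul _ hn ha.1 hb.1]; exact add_mem (ha.2 hn) (hb.2 hn)⟩
      inv_mem' := fun ha => ⟨inv_mem ha.1, fun hn => by
        rw [cls_inv _ hn ha.1]; exact neg_mem (ha.2 hn)⟩ }
  zero := by
    rw [eq_top_iff]
    rintro g -
    refine ⟨?_, fun h => absurd h (by omega)⟩
    rw [(mns s wt).zero]
    exact mem_top g
  anti := by
    intro m n hmn g hg
    refine ⟨(mns s wt).anti hmn hg.1, fun hm => ?_⟩
    rcases Nat.eq_or_lt_of_le hmn with h | h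
    · subst h; exact hg.2 hm
    · rw [cls_zero _ hm ((mns s wt).anti h hg.1)]
      exact zero_mem _
  comm := by
    intro i j g h hg hh
    refine ⟨(mns s wt).comm hg.1 hh.1, fun hij => ?_⟩
    have h1 := mns_one hs hw
    rcases Nat.eq_zero_or_pos i with hi | hi
    · subst hi
      rcases Nat.eq_zero_or_pos j with hj | hj
      · omega
      · have h2 : g ∈ (mns s wt).H 1 := by rw [h1]; exact mem_top g
        have h3 := (mns s wt).comm h2 hh.1
        rw [zero_add, cls_zero _ hj (by rwa [add_comm] at h3)]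
        exact zero_mem _
    · rcases Nat.eq_zero_or_pos j with hj | hj
      · subst hj
        have h2 : h ∈ (mns s wt).H 1 := by rw [h1]; exact mem_top h
        have h3 := (mns s wt).comm hg.1 h2
        rw [add_zero, cls_zero _ hi h3]
        exact zero_mem _
      · rw [← cls_lie _ hi hj hg.1 hh.1]
        exact lie_Wsp (hg.2 hi) (hh.2 hj)

theorem cls_mem_Wsp (hs : closure ({s 0, s 1, s 2} : Set G) = ⊤) (hw : ∀ e < 3, 1 ≤ wt e)
    {n : ℕ} (hn : 1 ≤ n) {g : G} (hg : g ∈ (mns s wt).H n) :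
    cls (mns s wt) n g ∈ Wsp wt (gx s wt) n := by
  have h : (mns s wt).H n ≤ (sns hs hw).H n := by
    apply mns_le
    intro e he
    refine ⟨mns_gen s wt e he, fun _ => ?_⟩
    have h1 := lw_mem_Wsp (wt := wt) (x := gx s wt) (w := [e]) (isWd_cons' he rfl) (by simp)
    rw [lw_single, wwt_cons] at h1
    exact h1
  exact (h hg).2 hn

/-- a coarse N-series -/
def cns (G : Type u) [Group G] (M : ℕ) (hM : 1 ≤ M) : NS G where
  H n := BurnLie.lcs G ((n - 1) / M)
  zero := by
    rw [Nat.zero_sub, Nat.zero_div]; rfl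
  anti := by
    intro m n h
    exact BurnLie.lcs_anti (Nat.div_le_div_right (by omega))
  comm := by
    intro i j g h hg hh
    have h1 := BurnLie.lcs_comm (G := G) _ _ (commutator_mem_commutator hg hh)
    refine BurnLie.lcs_anti ?_ h1
    have e1 := Nat.div_add_mod (i - 1) M
    have e2 := Nat.div_add_mod (j - 1) M
    have e3 := Nat.mod_lt (i - 1) hM
    have e4 := Nat.mod_lt (j - 1) hM
    have e5 : i + j - 1 < ((i - 1) / M + (j - 1) / M + 1 + 1) * M := by
      have : ((i - 1) / M + (j - 1) / M + 1 + 1) * M =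
        M * ((i - 1) / M) + M * ((j - 1) / M) + M + M := by ring
      rw [this]
      omega
    exact Nat.lt_succ_iff.1 ((Nat.div_lt_iff_lt_mul hM).2 e5)

theorem mns_bot [Finite G] (h5 : ∀ g : G, g ^ 5 = 1) (M : ℕ) (hM : 1 ≤ M)
    (hwM : ∀ e < 3, wt e ≤ M) : ∃ n, (mns s wt).H n = ⊥ := by
  have hp : IsPGroup 5 G := fun g => ⟨1, by rw [pow_one]; exact h5 g⟩
  have : Fact (Nat.Prime 5) := ⟨by norm_num⟩
  have hnil : Group.IsNilpotent G := hp.isNilpotent
  obtain ⟨c, hc⟩ := Subgroup.nilpotent_iff_lowerCentralSeries.1 hnil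
  refine ⟨c * M + 1, ?_⟩
  rw [eq_bot_iff]
  have h1 := mns_le s wt (N := cns G M hM) (by
    intro e he
    change s e ∈ BurnLie.lcs G ((wt e - 1) / M)
    have : (wt e - 1) / M = 0 := Nat.div_eq_of_lt (by have := hwM e he; omega)
    rw [this]
    exact mem_top _) (c * M + 1)
  have h2 : (cns G M hM).H (c * M + 1) = ⊥ := by
    change BurnLie.lcs G ((c * M + 1 - 1) / M) = ⊥
    rw [Nat.add_sub_cancel, Nat.mul_div_cancel _ hM]
    exact hc
  rwa [h2] at h1

theorem mns_vanish [Finite G] (h5 : ∀ g : G, g ^ 5 = 1) (M : ℕ) (hM : 1 ≤ M)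
    (hs : closure ({s 0, s 1, s 2} : Set G) = ⊤) (hw : ∀ e < 3, 1 ≤ wt e)
    (hwM : ∀ e < 3, wt e ≤ M) (K : ℕ) (hK : 1 ≤ K)
    (hv : ∀ w, isWd w = true → w ≠ [] → K ≤ wwt wt w → lw (gx s wt) w = 0) :
    (mns s wt).H K = ⊥ := by
  have h1 : ∀ n, K ≤ n → (mns s wt).H n ≤ (mns s wt).H (n + 1) := by
    intro n hn g hg
    have h2 := cls_mem_Wsp hs hw (by omega) hg
    have h3 : Wsp wt (gx s wt) n = ⊥ := by
      rw [eq_bot_iff]
      unfold Wsp
      rw [AddSubgroup.closure_le]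
      rintro v ⟨w, hw1, hw2, rfl, rfl⟩
      exact hv w hw1 hw2 hn
    rw [h3] at h2
    exact mem_of_cls _ (by omega) hg h2
  have h2 : ∀ j, (mns s wt).H K ≤ (mns s wt).H (K + j) := by
    intro j
    induction j with
    | zero => exact le_refl _
    | succ j ih => exact ih.trans (h1 _ (by omega))
  obtain ⟨n, hn⟩ := mns_bot (s := s) (wt := wt) h5 M hM hwM
  rw [eq_bot_iff, ← hn]
  exact (h2 n).trans ((mns s wt).anti (by omega))

end

end Pool.Agent.Y50.FE
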