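import Pool.Agent.Y50.FE.GL
import Pool.Agent.H32BU.TSCH
import Pool.Agent.H32BU.TLFS
import Pool.Agent.H32BU.TLFD
import Pool.Agent.H32BU.Fin

/-!
# Groups of exponent five with finite 3-generator subgroups are locally finite
-/

set_option autoImplicit false

namespace Pool.Agent.Y50.FE

open Subgroup
open scoped commutatorElement
open Pool.Agent.H32BU

section
variable {G : Type} [Group G]

/-- `lemC` in a group with finite 3-generator subgroups -/
theorem lemC' (h5 : ∀ g : G, g ^ 5 = 1)
    (h3 : ∀ a b c : G, Finite (closure ({a, b, c} : Set G))) (z : G)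
    (hz : ∀ v : G, ⁅⁅⁅v, z⁆, z⁆, z⁆ = 1) (g h : G) :
    ⁅⁅h, ⁅⁅g, z⁆, z⁆⁆, ⁅⁅g, z⁆, z⁆⁆ = 1 := by
  have hf := h3 z g h
  have m0 : z ∈ closure ({z, g, h} : Set G) := subset_closure (by simp)
  have m1 : g ∈ closure ({z, g, h} : Set G) := subset_closure (by simp)
  have m2 : h ∈ closure ({z, g, h} : Set G) := subset_closure (by simp)
  let s : ℕ → closure ({z, g, h} : Set G) :=
    fun e => if e = 0 then ⟨z, m0⟩ else if e = 1 then ⟨g, m1⟩ else ⟨h, m2⟩
  have hs : closure ({s 0, s 1, s 2} : Set (closure ({z, g, h} : Set G))) = ⊤ := by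
    rw [← closure_closure_coe_preimage]
    congr 1
    ext x
    obtain ⟨x, hx⟩ := x
    simp [s, Subtype.ext_iff]
  have h1 := lemC (fun g => Subtype.ext (h5 _)) s hs (fun v => Subtype.ext (hz v.1))
  exact congrArg Subtype.val h1

/-- `lemB` in a group with finite 3-generator subgroups -/
theorem lemB' (h5 : ∀ g : G, g ^ 5 = 1)
    (h3 : ∀ a b c : G, Finite (closure ({a, b, c} : Set G))) (x y g : G) :
    ⁅⁅⁅g, ⁅⁅⁅y, x⁆, x⁆, x⁆⁆, ⁅⁅⁅y, x⁆, x⁆, x⁆⁆, ⁅⁅⁅y, x⁆, x⁆, x⁆⁆ = 1 := by
  have hf := h3 x y g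
  have m0 : x ∈ closure ({x, y, g} : Set G) := subset_closure (by simp)
  have m1 : y ∈ closure ({x, y, g} : Set G) := subset_closure (by simp)
  have m2 : g ∈ closure ({x, y, g} : Set G) := subset_closure (by simp)
  let s : ℕ → closure ({x, y, g} : Set G) :=
    fun e => if e = 0 then ⟨x, m0⟩ else if e = 1 then ⟨y, m1⟩ else ⟨g, m2⟩
  have hs : closure ({s 0, s 1, s 2} : Set (closure ({x, y, g} : Set G))) = ⊤ := by
    rw [← closure_closure_coe_preimage]
    congr 1
    ext x
    obtain ⟨x, hx⟩ := x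
    simp [s, Subtype.ext_iff]
  have h1 := lemB (fun g => Subtype.ext (h5 _)) s hs
  exact congrArg Subtype.val h1

/-- locally finite subgroup -/
def LFs (A : Subgroup G) : Prop := ∀ S : Finset G, (S : Set G) ⊆ A → Finite (closure (S : Set G))

theorem LFs.mono {A B : Subgroup G} (h : A ≤ B) (hB : LFs B) : LFs A :=
  fun S hS => hB S (hS.trans h)

theorem lfs_iff (A : Subgroup G) : LFs A ↔ LF A := by
  classical
  constructor
  · intro h S
    have h1 := h (S.image Subtype.val) (by
      intro x hx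
      rw [Finset.coe_image] at hx
      obtain ⟨y, -, rfl⟩ := hx
      exact y.2)
    have h2 : closure ((S.image Subtype.val : Finset G) : Set G) =
        (closure (S : Set A)).map A.subtype := by
      rw [MonoidHom.map_closure, Finset.coe_image]; rfl
    rw [h2] at h1
    have h3 : (A.subtype '' (closure (S : Set A) : Set A)).Finite := by
      rw [← Subgroup.coe_map]
      exact Set.toFinite _
    exact (Set.Finite.of_finite_image h3 A.subtype_injective.injOn).to_subtype
  · intro h S hS
    have h1 := h (S.subtype (fun x => x ∈ A))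
    have h2 : closure (S : Set G) =
        (closure ((S.subtype (fun x => x ∈ A) : Finset A) : Set A)).map A.subtype := by
      rw [MonoidHom.map_closure]
      congr 1
      ext x
      simp only [Set.mem_image, Finset.mem_coe, Finset.mem_subtype]
      constructor
      · intro hx
        exact ⟨⟨x, hS hx⟩, hx, rfl⟩
      · rintro ⟨y, hy, rfl⟩
        exact hy
    rw [h2]
    have h3 : ((closure ((S.subtype (fun x => x ∈ A) : Finset A) : Set A)).map A.subtype :
        Set G).Finite := by
      rw [Subgroup.coe_map]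
      exact Set.Finite.image _ (Set.toFinite _)
    exact h3.to_subtype

theorem LFs.sup {A B : Subgroup G} (hA : A.Normal) (hB : B.Normal) (h1 : LFs A) (h2 : LFs B) :
    LFs (A ⊔ B) :=
  (lfs_iff _).2 ((t_LFS t_SCH).2.2 G A B hA hB ((lfs_iff _).1 h1) ((lfs_iff _).1 h2))

theorem LFs.bot : LFs (⊥ : Subgroup G) := by
  intro S hS
  have : closure (S : Set G) ≤ ⊥ := (closure_le _).2 hS
  rw [le_bot_iff.1 this]
  infer_instance

/-- the locally finite radical -/
def Rd (G : Type) [Group G] : Subgroup G where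
  carrier := {g | LFs (normalClosure ({g} : Set G))}
  one_mem' := by
    change LFs (normalClosure ({1} : Set G))
    refine LFs.mono ?_ LFs.bot
    exact normalClosure_le_normal (by simp)
  mul_mem' := by
    intro a b ha hb
    refine LFs.mono ?_ (LFs.sup normalClosure_normal normalClosure_normal ha hb)
    refine normalClosure_le_normal ?_
    rw [Set.singleton_subset_iff]
    exact mul_mem (le_sup_left (a := normalClosure ({a} : Set G)) (b := normalClosure {b})
      (subset_normalClosure rfl)) (le_sup_right (a := normalClosure ({a} : Set G))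
      (b := normalClosure {b}) (subset_normalClosure rfl))
  inv_mem' := by
    intro a ha
    refine LFs.mono ?_ ha
    refine normalClosure_le_normal ?_
    rw [Set.singleton_subset_iff]
    exact inv_mem (subset_normalClosure rfl)

theorem mem_Rd (g : G) : g ∈ Rd G ↔ LFs (normalClosure ({g} : Set G)) := Iff.rfl

instance Rd_normal : (Rd G).Normal := by
  refine ⟨fun a ha g => ?_⟩
  rw [mem_Rd] at *
  refine LFs.mono ?_ ha
  refine normalClosure_le_normal ?_
  rw [Set.singleton_subset_iff]
  exact normalClosure_normal.conj_mem a (subset_normalClosure (Set.mem_singleton a)) g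

theorem LFs_Rd : LFs (Rd G) := by
  classical
  intro S hS
  have h : ∃ N : Subgroup G, N.Normal ∧ LFs N ∧ (S : Set G) ⊆ N := by
    induction S using Finset.induction_on with
    | empty => exact ⟨⊥, inferInstance, LFs.bot, by simp⟩
    | insert a S _ ih =>
      rw [Finset.coe_insert, Set.insert_subset_iff] at hS
      obtain ⟨N, hN, h1, h2⟩ := ih hS.2
      refine ⟨normalClosure ({a} : Set G) ⊔ N, sup_normal _ _,
        LFs.sup normalClosure_normal hN hS.1 h1, ?_⟩
      rw [Finset.coe_insert, Set.insert_subset_iff]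
      exact ⟨le_sup_left (a := normalClosure ({a} : Set G)) (b := N) (subset_normalClosure rfl),
        h2.trans (le_sup_right (a := normalClosure ({a} : Set G)) (b := N))⟩
  obtain ⟨N, -, h1, h2⟩ := h
  exact h1 S h2

theorem Rd_quot (c : G ⧸ Rd G) (hc : LFs (normalClosure ({c} : Set (G ⧸ Rd G)))) : c = 1 := by
  obtain ⟨g, rfl⟩ := QuotientGroup.mk_surjective c
  set π : G →* G ⧸ Rd G := QuotientGroup.mk' (Rd G) with hπ
  set C := normalClosure ({(g : G ⧸ Rd G)} : Set (G ⧸ Rd G)) with hC
  have hCn : C.Normal := normalClosure_normal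
  set N := C.comap π with hN
  have hNn : N.Normal := hCn.comap π
  have hRN : Rd G ≤ N := by
    intro x hx
    have h1 : π x = 1 := (QuotientGroup.eq_one_iff x).2 hx
    change π x ∈ C
    rw [h1]
    exact one_mem _
  have hLN : LF N := by
    have hn : ((Rd G).subgroupOf N).Normal := inferInstance
    refine t_SCH N ((Rd G).subgroupOf N) ?_ ?_
    · refine TLFS.sub _ ↥(Rd G)
        { toFun := fun x => ⟨((x : N) : G), x.2⟩
          map_one' := rfl
          map_mul' := fun _ _ => rfl } ?_ ((lfs_iff _).1 LFs_Rd)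
      intro x y hxy
      have : ((x : N) : G) = ((y : N) : G) := congrArg (fun z : ↥(Rd G) => (z : G)) hxy
      exact Subtype.ext (Subtype.ext this)
    · let f : N →* C := (π.comp N.subtype).codRestrict C (fun x => x.2)
      have hker : (Rd G).subgroupOf N ≤ f.ker := by
        intro x hx
        rw [MonoidHom.mem_ker]
        exact Subtype.ext ((QuotientGroup.eq_one_iff (x : G)).2 hx)
      refine TLFS.sub _ C (QuotientGroup.lift _ f hker) ?_ ((lfs_iff _).1 hc)
      rw [injective_iff_map_eq_one]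
      intro x hx
      obtain ⟨y, rfl⟩ := QuotientGroup.mk_surjective x
      rw [QuotientGroup.eq_one_iff]
      have h2 : f y = 1 := hx
      have h3 : π (y : G) = 1 := congrArg Subtype.val h2
      exact (QuotientGroup.eq_one_iff (y : G)).1 h3
  have hg : g ∈ N := by
    change π g ∈ C
    exact subset_normalClosure rfl
  refine (QuotientGroup.eq_one_iff g).2 ?_
  rw [mem_Rd]
  refine LFs.mono ?_ ((lfs_iff _).2 hLN)
  exact normalClosure_le_normal (by rwa [Set.singleton_subset_iff])

/-- an element which commutes with its conjugates lies in the radical -/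
theorem lemP (h5 : ∀ g : G, g ^ 5 = 1) (c : G) (hc : ∀ h : G, ⁅⁅h, c⁆, c⁆ = 1) :
    LFs (normalClosure ({c} : Set G)) := by
  have h1 : ∀ h : G, (h * c * h⁻¹) * c = c * (h * c * h⁻¹) := by
    intro h
    have h2 := commutatorElement_eq_one_iff_mul_comm.1 (hc h)
    rw [commutatorElement_def] at h2
    calc (h * c * h⁻¹) * c = (h * c * h⁻¹ * c⁻¹ * c) * c := by group
      _ = (c * (h * c * h⁻¹ * c⁻¹)) * c := by rw [h2]
      _ = c * (h * c * h⁻¹) := by group
  have h2 : ∀ x ∈ Group.conjugatesOfSet ({c} : Set G), ∀ y ∈ Group.conjugatesOfSet ({c} : Set G),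
      x * y = y * x := by
    intro x hx y hy
    simp only [Group.mem_conjugatesOfSet_iff, Set.mem_singleton_iff, exists_eq_left,
      isConj_iff] at hx hy
    obtain ⟨g, rfl⟩ := hx
    obtain ⟨h, rfl⟩ := hy
    have h3 := h1 (h⁻¹ * g)
    calc g * c * g⁻¹ * (h * c * h⁻¹) = h * ((h⁻¹ * g * c * (h⁻¹ * g)⁻¹) * c) * h⁻¹ := by group
      _ = h * (c * (h⁻¹ * g * c * (h⁻¹ * g)⁻¹)) * h⁻¹ := by rw [h3]
      _ = h * c * h⁻¹ * (g * c * g⁻¹) := by group
  have hcm : ∀ x ∈ normalClosure ({c} : Set G), ∀ y ∈ normalClosure ({c} : Set G),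
      x * y = y * x := by
    intro x hx y hy
    letI := closureCommGroupOfComm (k := Group.conjugatesOfSet ({c} : Set G)) h2
    have h4 : (⟨x, hx⟩ : closure (Group.conjugatesOfSet ({c} : Set G))) * ⟨y, hy⟩ =
      ⟨y, hy⟩ * ⟨x, hx⟩ := mul_comm _ _
    exact congrArg Subtype.val h4
  intro S hS
  have h3 : ∀ x ∈ (S : Set G), ∀ y ∈ (S : Set G), x * y = y * x :=
    fun x hx y hy => hcm x (hS hx) y (hS hy)
  letI := closureCommGroupOfComm h3
  have hfg : Group.FG (closure (S : Set G)) := by
    rw [Group.fg_iff_subgroup_fg]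
    exact ⟨S, rfl⟩
  refine CommGroup.finite_of_fg_isMulTorsion _ ?_
  intro x
  rw [isOfFinOrder_iff_pow_eq_one]
  exact ⟨5, by norm_num, Subtype.ext (h5 _)⟩

/-- **Theorem.**  A group of exponent five whose 3-generator subgroups are finite is locally
finite. -/
theorem main5 (h5 : ∀ g : G, g ^ 5 = 1)
    (h3 : ∀ a b c : G, Finite (closure ({a, b, c} : Set G))) : LF G := by
  have q5 : ∀ g : G ⧸ Rd G, g ^ 5 = 1 := by
    intro g
    obtain ⟨g, rfl⟩ := QuotientGroup.mk_surjective g
    rw [← QuotientGroup.mk_pow, h5]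
    rfl
  have q3 : ∀ a b c : G ⧸ Rd G, Finite (closure ({a, b, c} : Set (G ⧸ Rd G))) := by
    intro a b c
    obtain ⟨a, rfl⟩ := QuotientGroup.mk_surjective a
    obtain ⟨b, rfl⟩ := QuotientGroup.mk_surjective b
    obtain ⟨c, rfl⟩ := QuotientGroup.mk_surjective c
    have h := h3 a b c
    have e : closure ({(a : G ⧸ Rd G), (b : G ⧸ Rd G), (c : G ⧸ Rd G)} : Set (G ⧸ Rd G)) =
        (closure ({a, b, c} : Set G)).map (QuotientGroup.mk' (Rd G)) := by
      rw [MonoidHom.map_closure]
      congr 1
      simp [Set.image_insert_eq]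
    rw [e]
    have h4 : (((closure ({a, b, c} : Set G)).map (QuotientGroup.mk' (Rd G)) :
        Subgroup (G ⧸ Rd G)) : Set (G ⧸ Rd G)).Finite := by
      rw [Subgroup.coe_map]
      exact Set.Finite.image _ (Set.toFinite _)
    exact h4.to_subtype
  have P : ∀ c : G ⧸ Rd G, (∀ h : G ⧸ Rd G, ⁅⁅h, c⁆, c⁆ = 1) → c = 1 :=
    fun c hc => Rd_quot c (lemP q5 c hc)
  have C : ∀ z : G ⧸ Rd G, (∀ v : G ⧸ Rd G, ⁅⁅⁅v, z⁆, z⁆, z⁆ = 1) → z = 1 := by
    intro z hz
    refine P z fun g => ?_
    exact P _ fun h => lemC' q5 q3 z hz g h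
  have T : ∀ x : G ⧸ Rd G, x = 1 := by
    intro x
    refine C x fun y => ?_
    exact C _ fun g => lemB' q5 q3 x y g
  have hR : Rd G = ⊤ := by
    rw [eq_top_iff]
    rintro g -
    exact (QuotientGroup.eq_one_iff g).1 (T g)
  intro S
  refine LFs_Rd S ?_
  rw [hR]
  exact Set.subset_univ _

end

end Pool.Agent.Y50.FE
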