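import Pool.Agent.Y50.FE.NSL

/-!
# N-series: classes, the action of the group, doubling
-/

set_option autoImplicit false

namespace Pool.Agent.Y50.FE

open Subgroup
open scoped commutatorElement

universe u v

section
variable {G : Type u} [Group G] (F : NS G)

instance NS.instNormalH (n : ℕ) : (F.H n).Normal := F.normal n

/-- the class in degree `w ≥ 1` of an element of `H w` -/
noncomputable def cls (w : ℕ) (g : G) : LR F :=
  open Classical in if h : g ∈ F.L (w - 1) then mkL F (w - 1) ⟨g, h⟩ else 0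

theorem NS.mem_L {w : ℕ} (hw : 1 ≤ w) {g : G} (h : g ∈ F.H w) : g ∈ F.L (w - 1) := by
  unfold NS.L
  rwa [Nat.sub_add_cancel hw]

theorem cls_mk {w : ℕ} {g : G} (h : g ∈ F.L (w - 1)) : cls F w g = mkL F (w - 1) ⟨g, h⟩ := by
  unfold cls
  exact dif_pos h

theorem cls_succ (n : ℕ) (g : F.L n) : cls F (n + 1) (g : G) = mkL F n g := cls_mk F g.2

theorem cls_one (w : ℕ) : cls F w 1 = 0 := by
  rw [cls_mk F (one_mem _)]
  exact mkL_one F _

theorem cls_mul {w : ℕ} (hw : 1 ≤ w) {g h : G} (hg : g ∈ F.H w) (hh : h ∈ F.H w) :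
    cls F w (g * h) = cls F w g + cls F w h := by
  rw [cls_mk F (F.mem_L hw hg), cls_mk F (F.mem_L hw hh),
    cls_mk F (mul_mem (F.mem_L hw hg) (F.mem_L hw hh)), ← mkL_mul]
  rfl

theorem cls_inv {w : ℕ} (hw : 1 ≤ w) {g : G} (hg : g ∈ F.H w) : cls F w g⁻¹ = -cls F w g := by
  have h := cls_mul F hw hg (inv_mem hg)
  rw [mul_inv_cancel, cls_one] at h
  exact eq_neg_of_add_eq_zero_right h.symm

theorem cls_zero {w : ℕ} (hw : 1 ≤ w) {g : G} (hg : g ∈ F.H (w + 1)) : cls F w g = 0 := by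
  have h : g ∈ F.L (w - 1) := F.mem_L hw (F.anti (Nat.le_succ w) hg)
  rw [cls_mk F h, ← mkL_one F (w - 1)]
  unfold mkL
  congr 1
  rw [grMk_eq]
  have h2 : g⁻¹ ∈ F.L (w - 1 + 1) := by
    unfold NS.L
    rw [Nat.sub_add_cancel hw]
    exact inv_mem hg
  simpa using h2

theorem mem_of_cls {w : ℕ} (hw : 1 ≤ w) {g : G} (hg : g ∈ F.H w) (h : cls F w g = 0) :
    g ∈ F.H (w + 1) := by
  rw [cls_mk F (F.mem_L hw hg), ← mkL_one F (w - 1)] at h
  unfold mkL at h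
  have h1 := DirectSum.of_injective (β := Grd F) (w - 1) h
  rw [grMk_eq] at h1
  have h2 : g⁻¹ ∈ F.L (w - 1 + 1) := by simpa using h1
  unfold NS.L at h2
  rw [Nat.sub_add_cancel hw] at h2
  simpa using inv_mem h2

theorem cls_lie {i j : ℕ} (hi : 1 ≤ i) (hj : 1 ≤ j) {g h : G} (hg : g ∈ F.H i)
    (hh : h ∈ F.H j) : ⁅cls F i g, cls F j h⁆ = cls F (i + j) ⁅g, h⁆ := by
  have h1 : ⁅g, h⁆ ∈ F.L (i + j - 1) := F.mem_L (by omega) (F.comm hg hh)
  rw [cls_mk F (F.mem_L hi hg), cls_mk F (F.mem_L hj hh), cls_mk F h1]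
  change lieHom F _ _ = _
  rw [lieHom_mkL]
  exact mkL_congr F (by omega) rfl

theorem cls_conj {w k : ℕ} (hw : 1 ≤ w) (hk : 1 ≤ k) {g x : G} (hg : g ∈ F.H w)
    (hx : x ∈ F.H k) : cls F w (x * g * x⁻¹) = cls F w g := by
  rw [cls_mk F (F.mem_L hw hg), cls_mk F (conj_mem' x (F.mem_L hw hg))]
  exact mkL_conj F _ x (F.mem_L hk hx) _ _ rfl

/-- induction on sums of classes -/
theorem ind_cls {p : LR F → Prop} (h0 : p 0)
    (h1 : ∀ (w : ℕ) (g : G), 1 ≤ w → g ∈ F.H w → p (cls F w g))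
    (h2 : ∀ x y, p x → p y → p (x + y)) (x : LR F) : p x := by
  refine ind F h0 (fun n g => ?_) h2 x
  rw [← cls_succ]
  exact h1 (n + 1) g (by omega) g.2

theorem hom_ext {W : Type v} [AddCommGroup W] {f g : LR F →+ W}
    (h : ∀ (w : ℕ) (x : G), 1 ≤ w → x ∈ F.H w → f (cls F w x) = g (cls F w x)) : f = g := by
  ext x
  induction x using ind_cls with
  | h0 => rw [map_zero, map_zero]
  | h1 w g hw hg => exact h w g hw hg
  | h2 x y hx hy => rw [map_add, map_add, hx, hy]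

theorem five_smul (h5 : ∀ g : G, g ^ 5 = 1) (x : LR F) : 5 • x = 0 := by
  induction x using ind_cls with
  | h0 => rw [smul_zero]
  | h1 w g hw hg =>
    have h : ∀ n : ℕ, cls F w (g ^ n) = n • cls F w g := by
      intro n
      induction n with
      | zero => rw [pow_zero, cls_one, zero_smul]
      | succ n ih => rw [pow_succ, cls_mul F hw (pow_mem hg n) hg, ih, succ_nsmul]
    rw [← h, h5, cls_one]
  | h2 x y hx hy => rw [smul_add, hx, hy, add_zero]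

/-- the component of `liftL` -/
noncomputable def liftG {W : Type v} [AddCommGroup W] (f : ℕ → G → W)
    (h1 : ∀ w, 1 ≤ w → ∀ g ∈ F.H w, ∀ h ∈ F.H w, f w (g * h) = f w g + f w h)
    (h2 : ∀ w, 1 ≤ w → ∀ g ∈ F.H (w + 1), f w g = 0) (n : ℕ) : Grd F n →+ W :=
    { toFun := fun x : Grd F n => Quotient.liftOn (Additive.toMul x : QL F n)
        (fun g : F.L n => f (n + 1) (g : G)) (by
          intro a b hab
          have h3 : (a : G)⁻¹ * (b : G) ∈ F.L (n + 1) := by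
            have h4 := QuotientGroup.leftRel_apply.1 hab
            rwa [mem_subgroupOf] at h4
          have h5 : (b : G) = (a : G) * ((a : G)⁻¹ * (b : G)) := by group
          change f (n + 1) (a : G) = f (n + 1) (b : G)
          rw [h5, h1 (n + 1) (by omega) _ a.2 _ (F.anti (Nat.le_succ _) h3),
            h2 (n + 1) (by omega) _ h3, add_zero])
      map_zero' := h2 (n + 1) (by omega) 1 (one_mem _)
      map_add' := by
        intro x y
        obtain ⟨g, rfl⟩ := grMk_surj F n x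
        obtain ⟨h, rfl⟩ := grMk_surj F n y
        exact h1 (n + 1) (by omega) _ g.2 _ h.2 }

theorem liftG_mk {W : Type v} [AddCommGroup W] {f : ℕ → G → W}
    {h1 : ∀ w, 1 ≤ w → ∀ g ∈ F.H w, ∀ h ∈ F.H w, f w (g * h) = f w g + f w h}
    {h2 : ∀ w, 1 ≤ w → ∀ g ∈ F.H (w + 1), f w g = 0} (n : ℕ) (g : F.L n) :
    liftG F f h1 h2 n (grMk F n g) = f (n + 1) (g : G) := rfl

/-- the additive map given by its values on classes -/
noncomputable def liftL {W : Type v} [AddCommGroup W] (f : ℕ → G → W)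
    (h1 : ∀ w, 1 ≤ w → ∀ g ∈ F.H w, ∀ h ∈ F.H w, f w (g * h) = f w g + f w h)
    (h2 : ∀ w, 1 ≤ w → ∀ g ∈ F.H (w + 1), f w g = 0) : LR F →+ W :=
  DirectSum.toAddMonoid (liftG F f h1 h2)

theorem liftL_cls {W : Type v} [AddCommGroup W] {f : ℕ → G → W}
    {h1 : ∀ w, 1 ≤ w → ∀ g ∈ F.H w, ∀ h ∈ F.H w, f w (g * h) = f w g + f w h}
    {h2 : ∀ w, 1 ≤ w → ∀ g ∈ F.H (w + 1), f w g = 0} {w : ℕ} (hw : 1 ≤ w) {g : G}
    (hg : g ∈ F.H w) : liftL F f h1 h2 (cls F w g) = f w g := by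
  rw [cls_mk F (F.mem_L hw hg)]
  have e : liftL F f h1 h2 (mkL F (w - 1) ⟨g, F.mem_L hw hg⟩) =
      liftG F f h1 h2 (w - 1) (grMk F (w - 1) ⟨g, F.mem_L hw hg⟩) :=
    DirectSum.toAddMonoid_of _ _ _
  rw [e, liftG_mk, Nat.sub_add_cancel hw]

/-- the action of a group element -/
noncomputable def act (a : G) : LR F →+ LR F :=
  liftL F (fun w g => cls F w (a * g * a⁻¹))
    (by
      intro w hw g hg h hh
      rw [show a * (g * h) * a⁻¹ = (a * g * a⁻¹) * (a * h * a⁻¹) by group]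
      exact cls_mul F hw (conj_mem' a hg) (conj_mem' a hh))
    (by
      intro w hw g hg
      exact cls_zero F hw (conj_mem' a hg))

theorem act_cls {w : ℕ} (hw : 1 ≤ w) (a : G) {g : G} (hg : g ∈ F.H w) :
    act F a (cls F w g) = cls F w (a * g * a⁻¹) := liftL_cls F hw hg

theorem act_one (x : LR F) : act F 1 x = x := by
  have h : act F 1 = AddMonoidHom.id _ := by
    apply hom_ext
    intro w g hw hg
    rw [act_cls F hw 1 hg]
    simp
  rw [h]; rfl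

theorem act_sum (h5 : ∀ g : G, g ^ 5 = 1) (a : G) (x : LR F) :
    x + act F a x + act F a (act F a x) + act F a (act F a (act F a x)) +
      act F a (act F a (act F a (act F a x))) = 0 := by
  induction x using ind_cls with
  | h0 => simp
  | h1 w g hw hg =>
    have c1 : a * g * a⁻¹ ∈ F.H w := conj_mem' a hg
    have c2 : a * (a * g * a⁻¹) * a⁻¹ ∈ F.H w := conj_mem' a c1
    have c3 : a * (a * (a * g * a⁻¹) * a⁻¹) * a⁻¹ ∈ F.H w := conj_mem' a c2
    have c4 : a * (a * (a * (a * g * a⁻¹) * a⁻¹) * a⁻¹) * a⁻¹ ∈ F.H w := conj_mem' a c3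
    rw [act_cls F hw a hg, act_cls F hw a c1, act_cls F hw a c2, act_cls F hw a c3,
      ← cls_mul F hw hg c1, ← cls_mul F hw (mul_mem hg c1) c2,
      ← cls_mul F hw (mul_mem (mul_mem hg c1) c2) c3,
      ← cls_mul F hw (mul_mem (mul_mem (mul_mem hg c1) c2) c3) c4]
    have e : g * (a * g * a⁻¹) * (a * (a * g * a⁻¹) * a⁻¹) *
        (a * (a * (a * g * a⁻¹) * a⁻¹) * a⁻¹) *
        (a * (a * (a * (a * g * a⁻¹) * a⁻¹) * a⁻¹) * a⁻¹) = (g * a) ^ 5 * (a ^ 5)⁻¹ := by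
      simp only [pow_succ, pow_zero, one_mul]
      group
    rw [e, h5, h5, inv_one, mul_one, cls_one]
  | h2 x y hx hy =>
    have h : (x + y + act F a (x + y) + act F a (act F a (x + y)) +
        act F a (act F a (act F a (x + y))) + act F a (act F a (act F a (act F a (x + y))))) =
        (x + act F a x + act F a (act F a x) + act F a (act F a (act F a x)) +
          act F a (act F a (act F a (act F a x)))) +
        (y + act F a y + act F a (act F a y) + act F a (act F a (act F a y)) +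
          act F a (act F a (act F a (act F a y)))) := by
      simp only [map_add]; abel
    rw [h, hx, hy, add_zero]

/-! ### doubling -/

/-- the pairs of elements which agree modulo `H n` -/
def NS.D (n : ℕ) : Subgroup (G × G) where
  carrier := {p | p.1⁻¹ * p.2 ∈ F.H n}
  one_mem' := by
    change (1 : G)⁻¹ * 1 ∈ F.H n
    simp [one_mem]
  mul_mem' := by
    intro p q hp hq
    change (p.1 * q.1)⁻¹ * (p.2 * q.2) ∈ F.H n
    have e : (p.1 * q.1)⁻¹ * (p.2 * q.2) =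
        (q.1⁻¹ * (p.1⁻¹ * p.2) * q.1⁻¹⁻¹) * (q.1⁻¹ * q.2) := by group
    rw [e]
    exact mul_mem (conj_mem' q.1⁻¹ hp) hq
  inv_mem' := by
    intro p hp
    change (p.1⁻¹)⁻¹ * p.2⁻¹ ∈ F.H n
    have e : (p.1⁻¹)⁻¹ * p.2⁻¹ = p.1 * (p.1⁻¹ * p.2)⁻¹ * p.1⁻¹ := by group
    rw [e]
    exact conj_mem' p.1 (inv_mem hp)

theorem comm_right (a b c : G) : ⁅a, b * c⁆ = ⁅a, b⁆ * (b * ⁅a, c⁆ * b⁻¹) := by
  simp only [commutatorElement_def]; group

theorem comm_left (a b c : G) : ⁅a * b, c⁆ = (a * ⁅b, c⁆ * a⁻¹) * ⁅a, c⁆ := by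
  simp only [commutatorElement_def]; group

/-- the N-series of the doubled group -/
def NS.dbl (n : ℕ) : NS (F.D n) where
  H i :=
    { carrier := {p | p.1.1 ∈ F.H i ∧ p.1.1⁻¹ * p.1.2 ∈ F.H (i + n)}
      one_mem' := by
        change (1 : G) ∈ F.H i ∧ (1 : G)⁻¹ * 1 ∈ F.H (i + n)
        simp [one_mem]
      mul_mem' := by
        rintro p q ⟨hp, hp'⟩ ⟨hq, hq'⟩
        refine ⟨mul_mem hp hq, ?_⟩
        change (p.1.1 * q.1.1)⁻¹ * (p.1.2 * q.1.2) ∈ F.H (i + n)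
        have e : (p.1.1 * q.1.1)⁻¹ * (p.1.2 * q.1.2) =
            (q.1.1⁻¹ * (p.1.1⁻¹ * p.1.2) * q.1.1⁻¹⁻¹) * (q.1.1⁻¹ * q.1.2) := by group
        rw [e]
        exact mul_mem (conj_mem' q.1.1⁻¹ hp') hq'
      inv_mem' := by
        rintro p ⟨hp, hp'⟩
        refine ⟨inv_mem hp, ?_⟩
        change (p.1.1⁻¹)⁻¹ * p.1.2⁻¹ ∈ F.H (i + n)
        have e : (p.1.1⁻¹)⁻¹ * p.1.2⁻¹ = p.1.1 * (p.1.1⁻¹ * p.1.2)⁻¹ * p.1.1⁻¹ := by group
        rw [e]
        exact conj_mem' p.1.1 (inv_mem hp') }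
  zero := by
    rw [eq_top_iff]
    rintro p -
    refine ⟨?_, ?_⟩
    · rw [F.zero]; exact mem_top _
    · rw [zero_add]; exact p.2
  anti := by
    intro i j hij p hp
    exact ⟨F.anti hij hp.1, F.anti (by omega) hp.2⟩
  comm := by
    rintro i j p q ⟨hp, hp'⟩ ⟨hq, hq'⟩
    refine ⟨F.comm hp hq, ?_⟩
    change ⁅p.1.1, q.1.1⁆⁻¹ * ⁅p.1.2, q.1.2⁆ ∈ F.H (i + j + n)
    set g := p.1.1
    set k := q.1.1
    have e1 : p.1.2 = g * (g⁻¹ * p.1.2) := by group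
    have e2 : q.1.2 = k * (k⁻¹ * q.1.2) := by group
    have hq2 : q.1.2 ∈ F.H j := by
      rw [e2]
      exact mul_mem hq (F.anti (by omega) hq')
    rw [e1, comm_left]
    have h1 : ⁅g⁻¹ * p.1.2, q.1.2⁆ ∈ F.H (i + j + n) := by
      have := F.comm hp' hq2
      rwa [show i + n + j = i + j + n by omega] at this
    have h2 : ⁅g, k⁻¹ * q.1.2⁆ ∈ F.H (i + j + n) := by
      have := F.comm hp hq'
      rwa [show i + (j + n) = i + j + n by omega] at this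
    have e3 : ⁅g, q.1.2⁆ = ⁅g, k⁆ * (k * ⁅g, k⁻¹ * q.1.2⁆ * k⁻¹) := by
      rw [← comm_right]
      congr 1
    rw [e3]
    have e4 : ⁅g, k⁆⁻¹ * (g * ⁅g⁻¹ * p.1.2, q.1.2⁆ * g⁻¹ *
        (⁅g, k⁆ * (k * ⁅g, k⁻¹ * q.1.2⁆ * k⁻¹))) =
        (⁅g, k⁆⁻¹ * (g * ⁅g⁻¹ * p.1.2, q.1.2⁆ * g⁻¹) * ⁅g, k⁆⁻¹⁻¹) *
          (k * ⁅g, k⁻¹ * q.1.2⁆ * k⁻¹) := by group
    rw [e4]
    exact mul_mem (conj_mem' _ (conj_mem' _ h1)) (conj_mem' _ h2)

/-- the first coordinate -/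
noncomputable def prj (n : ℕ) : LR (F.dbl n) →+ LR F :=
  liftL (F.dbl n) (fun w p => cls F w p.1.1)
    (by
      rintro w hw p ⟨hp, -⟩ q ⟨hq, -⟩
      exact cls_mul F hw hp hq)
    (by
      rintro w hw p ⟨hp, -⟩
      exact cls_zero F hw hp)

/-- the quotient of the coordinates -/
noncomputable def tau (n : ℕ) : LR (F.dbl n) →+ LR F :=
  liftL (F.dbl n) (fun w p => cls F (w + n) (p.1.1⁻¹ * p.1.2))
    (by
      rintro w hw p ⟨hp, hp'⟩ q ⟨hq, hq'⟩
      change cls F (w + n) ((p.1.1 * q.1.1)⁻¹ * (p.1.2 * q.1.2)) = _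
      have e : (p.1.1 * q.1.1)⁻¹ * (p.1.2 * q.1.2) =
          (q.1.1⁻¹ * (p.1.1⁻¹ * p.1.2) * q.1.1⁻¹⁻¹) * (q.1.1⁻¹ * q.1.2) := by group
      rw [e, cls_mul F (by omega) (conj_mem' _ hp') hq',
        cls_conj F (by omega) hw hp' (inv_mem hq)])
    (by
      rintro w hw p ⟨hp, hp'⟩
      refine cls_zero F (by omega) ?_
      rwa [show w + n + 1 = w + 1 + n by omega])

theorem prj_cls {n w : ℕ} (hw : 1 ≤ w) {p : F.D n} (hp : p ∈ (F.dbl n).H w) :
    prj F n (cls (F.dbl n) w p) = cls F w p.1.1 := liftL_cls (F.dbl n) hw hp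

theorem tau_cls {n w : ℕ} (hw : 1 ≤ w) {p : F.D n} (hp : p ∈ (F.dbl n).H w) :
    tau F n (cls (F.dbl n) w p) = cls F (w + n) (p.1.1⁻¹ * p.1.2) := liftL_cls (F.dbl n) hw hp

/-- diagonal elements -/
def dia (n : ℕ) (a : G) : F.D n := ⟨(a, a), by
  change a⁻¹ * a ∈ F.H n
  rw [inv_mul_cancel]; exact one_mem _⟩

theorem dia_mem {n i : ℕ} {a : G} (ha : a ∈ F.H i) : dia F n a ∈ (F.dbl n).H i := by
  refine ⟨ha, ?_⟩
  change a⁻¹ * a ∈ F.H (i + n)
  rw [inv_mul_cancel]; exact one_mem _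

/-- the elements `(α, α a)` -/
def bet (n : ℕ) (α a : G) (ha : a ∈ F.H n) : F.D n := ⟨(α, α * a), by
  change α⁻¹ * (α * a) ∈ F.H n
  rwa [inv_mul_cancel_left]⟩

theorem prj_dia {n i : ℕ} (hi : 1 ≤ i) {a : G} (ha : a ∈ F.H i) :
    prj F n (cls (F.dbl n) i (dia F n a)) = cls F i a := prj_cls F hi (dia_mem F ha)

theorem tau_dia {n i : ℕ} (hi : 1 ≤ i) {a : G} (ha : a ∈ F.H i) :
    tau F n (cls (F.dbl n) i (dia F n a)) = 0 := by
  rw [tau_cls F hi (dia_mem F ha)]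
  change cls F (i + n) (a⁻¹ * a) = 0
  rw [inv_mul_cancel, cls_one]

theorem prj_lie {n i : ℕ} (hi : 1 ≤ i) {a : G} (ha : a ∈ F.H i) (x : LR (F.dbl n)) :
    prj F n ⁅cls (F.dbl n) i (dia F n a), x⁆ = ⁅cls F i a, prj F n x⁆ := by
  induction x using ind_cls with
  | h0 => simp
  | h1 w p hw hp =>
    rw [cls_lie (F.dbl n) hi hw (dia_mem F ha) hp,
      prj_cls F (by omega) ((F.dbl n).comm (dia_mem F ha) hp), prj_cls F hw hp,
      cls_lie F hi hw ha hp.1]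
    rfl
  | h2 x y hx hy => rw [lie_add, map_add, map_add, lie_add, hx, hy]

theorem tau_lie {n i : ℕ} (hi : 1 ≤ i) {a : G} (ha : a ∈ F.H i) (x : LR (F.dbl n)) :
    tau F n ⁅cls (F.dbl n) i (dia F n a), x⁆ = ⁅cls F i a, tau F n x⁆ := by
  induction x using ind_cls with
  | h0 => simp
  | h1 w p hw hp =>
    have hc : ⁅a, p.1.1⁻¹ * p.1.2⁆ ∈ F.H (i + (w + n)) := F.comm ha hp.2
    rw [cls_lie (F.dbl n) hi hw (dia_mem F ha) hp,
      tau_cls F (by omega) ((F.dbl n).comm (dia_mem F ha) hp), tau_cls F hw hp,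
      cls_lie F hi (by omega) ha hp.2]
    change cls F (i + w + n) (⁅a, p.1.1⁆⁻¹ * ⁅a, p.1.2⁆) = _
    have e1 : ⁅a, p.1.2⁆ = ⁅a, p.1.1⁆ * (p.1.1 * ⁅a, p.1.1⁻¹ * p.1.2⁆ * p.1.1⁻¹) := by
      rw [← comm_right]
      congr 1
      group
    rw [e1, inv_mul_cancel_left, ← add_assoc] at *
    exact cls_conj F (by omega) hw hc hp.1
  | h2 x y hx hy => rw [lie_add, map_add, map_add, lie_add, hx, hy]

theorem prj_act {n : ℕ} {α a : G} (ha : a ∈ F.H n) (x : LR (F.dbl n)) :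
    prj F n (act (F.dbl n) (bet F n α a ha) x) = act F α (prj F n x) := by
  induction x using ind_cls with
  | h0 => simp
  | h1 w p hw hp =>
    rw [act_cls (F.dbl n) hw _ hp, prj_cls F hw (conj_mem' _ hp), prj_cls F hw hp,
      act_cls F hw α hp.1]
    rfl
  | h2 x y hx hy => rw [map_add, map_add, map_add, map_add, hx, hy]

theorem tau_act {n : ℕ} (hn : 1 ≤ n) {α a : G} (ha : a ∈ F.H n) (x : LR (F.dbl n)) :
    tau F n (act (F.dbl n) (bet F n α a ha) x) =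
      act F α (tau F n x + ⁅cls F n a, prj F n x⁆) := by
  induction x using ind_cls with
  | h0 => simp
  | h1 w p hw hp =>
    have h1 : p.1.1⁻¹ * a * p.1.1⁻¹⁻¹ * a⁻¹ ∈ F.H (w + n) := F.comm (inv_mem hp.1) ha
    have h2 : a * (p.1.1⁻¹ * p.1.2) * a⁻¹ ∈ F.H (w + n) := conj_mem' _ hp.2
    rw [act_cls (F.dbl n) hw _ hp, tau_cls F hw (conj_mem' _ hp), tau_cls F hw hp,
      prj_cls F hw hp]
    change cls F (w + n) ((α * p.1.1 * α⁻¹)⁻¹ * ((α * a) * p.1.2 * (α * a)⁻¹)) = _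
    have e1 : (α * p.1.1 * α⁻¹)⁻¹ * ((α * a) * p.1.2 * (α * a)⁻¹) =
        α * ((p.1.1⁻¹ * a * p.1.1⁻¹⁻¹ * a⁻¹) * (a * (p.1.1⁻¹ * p.1.2) * a⁻¹)) * α⁻¹ := by group
    have e2 : ⁅cls F n a, cls F w p.1.1⁆ = cls F (w + n) (p.1.1⁻¹ * a * p.1.1⁻¹⁻¹ * a⁻¹) := by
      have e3 : ⁅p.1.1⁻¹, a⁆ = p.1.1⁻¹ * a * p.1.1⁻¹⁻¹ * a⁻¹ := rfl
      rw [← e3, ← cls_lie F hw hn (inv_mem hp.1) ha, cls_inv F hw hp.1, neg_lie, lie_skew]
    rw [e1, e2, ← act_cls F (by omega) α (mul_mem h1 h2), cls_mul F (by omega) h1 h2,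
      cls_conj F (by omega) hn hp.2 ha, add_comm]
  | h2 x y hx hy =>
    have e1 : tau F n (act (F.dbl n) (bet F n α a ha) (x + y)) =
        tau F n (act (F.dbl n) (bet F n α a ha) x) + tau F n (act (F.dbl n) (bet F n α a ha) y) := by
      rw [map_add, map_add]
    have e2 : tau F n (x + y) + ⁅cls F n a, prj F n (x + y)⁆ =
        (tau F n x + ⁅cls F n a, prj F n x⁆) + (tau F n y + ⁅cls F n a, prj F n y⁆) := by
      rw [map_add, map_add, lie_add]; abel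
    rw [e1, e2, hx, hy]
    exact (map_add (act F α) _ _).symm

end

end Pool.Agent.Y50.FE
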