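import Mathlib

/-!
# N-series and their associated Lie rings

An N-series of a group `G` is a descending series `G = H 0 ≥ H 1 ≥ …` with
`[H i, H j] ≤ H (i + j)`.  The construction of the Lie ring follows
`Pool.Agent.H77R2.AssocLie`, which treats the lower central series.
-/

set_option autoImplicit false

namespace Pool.Agent.Y50.FE

open Subgroup
open scoped commutatorElement

universe u

/-- N-series -/
structure NS (G : Type u) [Group G] where
  H : ℕ → Subgroup G
  zero : H 0 = ⊤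
  anti : ∀ {m n : ℕ}, m ≤ n → H n ≤ H m
  comm : ∀ {i j : ℕ} {g h : G}, g ∈ H i → h ∈ H j → ⁅g, h⁆ ∈ H (i + j)

variable {G : Type u} [Group G] (F : NS G)

theorem NS.normal (n : ℕ) : (F.H n).Normal := by
  refine ⟨fun g hg x => ?_⟩
  have hx : x ∈ F.H 0 := by rw [F.zero]; exact mem_top x
  have h1 := F.comm hx hg
  rw [zero_add, commutatorElement_def] at h1
  have h2 := mul_mem h1 hg
  rwa [inv_mul_cancel_right] at h2

/-- the terms of positive index -/
def NS.L (n : ℕ) : Subgroup G := F.H (n + 1)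

instance NS.instNormal (n : ℕ) : (F.L n).Normal := F.normal _

variable {F} in
theorem NS.Lanti {m n : ℕ} (h : m ≤ n) : F.L n ≤ F.L m := F.anti (by omega)

variable {F} in
theorem NS.Lcomm {m n : ℕ} {g h : G} (hg : g ∈ F.L m) (hh : h ∈ F.L n) :
    ⁅g, h⁆ ∈ F.L (m + n + 1) := by
  have := F.comm hg hh
  rwa [show m + 1 + (n + 1) = m + n + 1 + 1 by omega] at this

/-- The Hall–Witt identity in the form used by Mathlib. -/
theorem hall_witt (x y z : G) :
    ⁅z, ⁅x, y⁆⁆ =
      x * (z * ⁅y, ⁅z⁻¹, x⁻¹⁆⁆⁻¹ * z⁻¹ * (y * ⁅x⁻¹, ⁅y⁻¹, z⁆⁆⁻¹ * y⁻¹)) * x⁻¹ := by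
  simp only [commutatorElement_def]
  group

theorem conj_mem' {N : Subgroup G} [hN : N.Normal] (g : G) {n : G} (h : n ∈ N) :
    g * n * g⁻¹ ∈ N := hN.conj_mem n h g

/-- The quotient group `γ_{n+1}(G) / γ_{n+2}(G)` (written multiplicatively). -/
abbrev QL (n : ℕ) : Type _ := F.L n ⧸ (F.L (n + 1)).subgroupOf (F.L n)

theorem QL_mul_comm (n : ℕ) (a b : QL F n) : a * b = b * a := by
  obtain ⟨a, rfl⟩ := QuotientGroup.mk_surjective a
  obtain ⟨b, rfl⟩ := QuotientGroup.mk_surjective b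
  rw [← QuotientGroup.mk_mul, ← QuotientGroup.mk_mul, QuotientGroup.eq]
  rw [mem_subgroupOf]
  have h1 : ⁅(b : G)⁻¹, (a : G)⁻¹⁆ ∈ F.L (n + n + 1) :=
    NS.Lcomm (inv_mem b.2) (inv_mem a.2)
  have h2 : ⁅(b : G)⁻¹, (a : G)⁻¹⁆ ∈ F.L (n + 1) := NS.Lanti (by omega) h1
  have h3 : (((a * b)⁻¹ * (b * a) : F.L n) : G) = ⁅(b : G)⁻¹, (a : G)⁻¹⁆ := by
    simp only [commutatorElement_def, Subgroup.coe_mul, Subgroup.coe_inv]; group
  rw [h3]
  exact h2

/-- The quotients of the lower central series are commutative. -/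
instance instCommGroupQL (n : ℕ) : CommGroup (QL F n) where
  toGroup := inferInstance
  mul_comm := QL_mul_comm F n

/-- The degree `n + 1` component `γ_{n+1}(G) / γ_{n+2}(G)` of the associated Lie ring, written
additively. -/
def Grd (n : ℕ) : Type _ := Additive (QL F n)

instance instGrd (n : ℕ) : AddCommGroup (Grd F n) :=
  (inferInstance : AddCommGroup (Additive (QL F n)))

/-- The class of an element of `γ_{n+1}(G)`. -/
def grMk (n : ℕ) (g : F.L n) : Grd F n := Additive.ofMul (QuotientGroup.mk g)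

theorem grMk_surj (n : ℕ) (x : Grd F n) : ∃ g : F.L n, grMk F n g = x :=
  QuotientGroup.mk_surjective (Additive.toMul x)

theorem grMk_mul (n : ℕ) (g h : F.L n) : grMk F n (g * h) = grMk F n g + grMk F n h := rfl

theorem grMk_inv (n : ℕ) (g : F.L n) : grMk F n g⁻¹ = - grMk F n g := rfl

theorem grMk_one (n : ℕ) : grMk F n (1 : F.L n) = 0 := rfl

theorem grMk_eq (n : ℕ) (g h : F.L n) :
    grMk F n g = grMk F n h ↔ (g : G)⁻¹ * (h : G) ∈ F.L (n + 1) := by
  change (QuotientGroup.mk g : QL F n) = QuotientGroup.mk h ↔ _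
  rw [QuotientGroup.eq, mem_subgroupOf]
  rfl

/-- The commutator of elements of `γ_{m+1}` and `γ_{n+1}`, as an element of `γ_{m+n+2}`. -/
def brElt (m n : ℕ) (g : F.L m) (h : F.L n) : F.L (m + n + 1) :=
  ⟨⁅(g : G), (h : G)⁆, NS.Lcomm g.2 h.2⟩

theorem brElt_mul_right (m n : ℕ) (g : F.L m) (h h' : F.L n) :
    grMk F (m + n + 1) (brElt F m n g (h * h')) =
      grMk F (m + n + 1) (brElt F m n g h) + grMk F (m + n + 1) (brElt F m n g h') := by
  rw [← grMk_mul, grMk_eq]
  have h1 : ⁅(h : G), ⁅(g : G), (h' : G)⁆⁆ ∈ F.L (n + (m + n + 1) + 1) :=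
    NS.Lcomm h.2 (NS.Lcomm g.2 h'.2)
  have h2 : ⁅(h : G), ⁅(g : G), (h' : G)⁆⁆ ∈ F.L (m + n + 1 + 1) := NS.Lanti (by omega) h1
  have h3 := conj_mem' ⁅(g : G), (h' : G)⁆⁻¹ (inv_mem h2)
  convert h3 using 1
  simp only [brElt, commutatorElement_def, Subgroup.coe_mul]
  group

theorem brElt_mul_left (m n : ℕ) (g g' : F.L m) (h : F.L n) :
    grMk F (m + n + 1) (brElt F m n (g * g') h) =
      grMk F (m + n + 1) (brElt F m n g h) + grMk F (m + n + 1) (brElt F m n g' h) := by
  rw [add_comm (grMk F _ _), ← grMk_mul, grMk_eq]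
  have h1 : ⁅(g : G), ⁅(g' : G), (h : G)⁆⁆ ∈ F.L (m + (m + n + 1) + 1) :=
    NS.Lcomm g.2 (NS.Lcomm g'.2 h.2)
  have h2 : ⁅(g : G), ⁅(g' : G), (h : G)⁆⁆ ∈ F.L (m + n + 1 + 1) := NS.Lanti (by omega) h1
  have h3 := conj_mem' (⁅(g : G), (h : G)⁆⁻¹ * ⁅(g' : G), (h : G)⁆⁻¹) (inv_mem h2)
  convert h3 using 1
  simp only [brElt, commutatorElement_def, Subgroup.coe_mul]
  group

theorem brElt_right_mem (m n : ℕ) (g : F.L m) (h : F.L n)
    (hh : (h : G) ∈ F.L (n + 1)) : grMk F (m + n + 1) (brElt F m n g h) = 0 := by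
  rw [← grMk_one, grMk_eq]
  have h1 := NS.Lcomm g.2 hh
  have h2 : ⁅(g : G), (h : G)⁆ ∈ F.L (m + n + 1 + 1) := NS.Lanti (by omega) h1
  simpa [brElt] using inv_mem h2

theorem brElt_left_mem (m n : ℕ) (g : F.L m) (h : F.L n)
    (hg : (g : G) ∈ F.L (m + 1)) : grMk F (m + n + 1) (brElt F m n g h) = 0 := by
  rw [← grMk_one, grMk_eq]
  have h1 := NS.Lcomm hg h.2
  have h2 : ⁅(g : G), (h : G)⁆ ∈ F.L (m + n + 1 + 1) := NS.Lanti (by omega) h1
  simpa [brElt] using inv_mem h2

/-- The class of `[g, h]` depends only on the classes of `g` and `h`. -/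
theorem brElt_congr (m n : ℕ) (g g' : F.L m) (hg : grMk F m g = grMk F m g')
    (h h' : F.L n) (hh : grMk F n h = grMk F n h') :
    grMk F (m + n + 1) (brElt F m n g h) = grMk F (m + n + 1) (brElt F m n g' h') := by
  have e1 : g' = g * (g⁻¹ * g') := by group
  have e2 : h' = h * (h⁻¹ * h') := by group
  rw [grMk_eq] at hg hh
  rw [e1, brElt_mul_left, brElt_left_mem F m n (g⁻¹ * g') h' hg, add_zero, e2, brElt_mul_right,
    brElt_right_mem F m n g (h⁻¹ * h') hh, add_zero]

theorem brElt_rel (m n : ℕ) ⦃g g' : F.L m⦄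
    (hg : QuotientGroup.leftRel ((F.L (m + 1)).subgroupOf (F.L m)) g g') ⦃h h' : F.L n⦄
    (hh : QuotientGroup.leftRel ((F.L (n + 1)).subgroupOf (F.L n)) h h') :
    QuotientGroup.leftRel ((F.L (m + n + 1 + 1)).subgroupOf (F.L (m + n + 1)))
      (brElt F m n g h) (brElt F m n g' h') :=
  Quotient.exact (brElt_congr F m n g g' (Quotient.sound hg) h h' (Quotient.sound hh))

/-- The bracket of homogeneous elements, as a function: it sends the classes of `g ∈ γ_{m+1}` and
`h ∈ γ_{n+1}` to the class of `[g, h]` (see `grBrFun_mk`). -/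
def grBrFun (m n : ℕ) (x : Grd F m) (y : Grd F n) : Grd F (m + n + 1) :=
  Additive.ofMul (Quotient.map₂ (brElt F m n) (brElt_rel F m n) (Additive.toMul x) (Additive.toMul y))

theorem grBrFun_mk (m n : ℕ) (g : F.L m) (h : F.L n) :
    grBrFun F m n (grMk F m g) (grMk F n h) = grMk F (m + n + 1) (brElt F m n g h) := rfl

theorem grBrFun_add_right (m n : ℕ) (x : Grd F m) (y y' : Grd F n) :
    grBrFun F m n x (y + y') = grBrFun F m n x y + grBrFun F m n x y' := by
  obtain ⟨g, rfl⟩ := grMk_surj F m x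
  obtain ⟨h, rfl⟩ := grMk_surj F n y
  obtain ⟨h', rfl⟩ := grMk_surj F n y'
  rw [← grMk_mul, grBrFun_mk, grBrFun_mk, grBrFun_mk, brElt_mul_right]

theorem grBrFun_add_left (m n : ℕ) (x x' : Grd F m) (y : Grd F n) :
    grBrFun F m n (x + x') y = grBrFun F m n x y + grBrFun F m n x' y := by
  obtain ⟨g, rfl⟩ := grMk_surj F m x
  obtain ⟨g', rfl⟩ := grMk_surj F m x'
  obtain ⟨h, rfl⟩ := grMk_surj F n y
  rw [← grMk_mul, grBrFun_mk, grBrFun_mk, grBrFun_mk, brElt_mul_left]

/-- The bracket of homogeneous elements, with the first argument fixed. -/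
def grBr (m n : ℕ) (x : Grd F m) : Grd F n →+ Grd F (m + n + 1) :=
  AddMonoidHom.mk' (grBrFun F m n x) (grBrFun_add_right F m n x)

theorem grBr_mk (m n : ℕ) (g : F.L m) (h : F.L n) :
    grBr F m n (grMk F m g) (grMk F n h) = grMk F (m + n + 1) (brElt F m n g h) := grBrFun_mk F m n g h

theorem grBr_add (m n : ℕ) (x x' : Grd F m) : grBr F m n (x + x') = grBr F m n x + grBr F m n x' :=
  AddMonoidHom.ext fun y => grBrFun_add_left F m n x x' y

/-- The associated Lie ring `𝓛(G) = ⨁_{i ≥ 1} γ_i(G) / γ_{i+1}(G)`; the summand with index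
`n : ℕ` is `γ_{n+1}(G) / γ_{n+2}(G)`. -/
def LR : Type _ := DirectSum ℕ (Grd F)

noncomputable instance instAddLR : AddCommGroup (LR F) :=
  (inferInstance : AddCommGroup (DirectSum ℕ (Grd F)))

/-- The inclusion of the homogeneous component. -/
def ofL (n : ℕ) : Grd F n →+ LR F := DirectSum.of (Grd F) n

/-- The bracket with a homogeneous element on the left. -/
noncomputable def lieHom1 (m : ℕ) (x : Grd F m) : LR F →+ LR F :=
  DirectSum.toAddMonoid fun n => (ofL F (m + n + 1)).comp (grBr F m n x)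

theorem lieHom1_of (m n : ℕ) (x : Grd F m) (y : Grd F n) :
    lieHom1 F m x (ofL F n y) = ofL F (m + n + 1) (grBr F m n x y) :=
  DirectSum.toAddMonoid_of _ _ _

theorem addHom_ext' {A : Type*} [AddCommMonoid A] {f g : LR F →+ A}
    (h : ∀ (n : ℕ) (x : Grd F n), f (ofL F n x) = g (ofL F n x)) : f = g :=
  DirectSum.addHom_ext h

theorem lieHom1_add (m : ℕ) (x x' : Grd F m) :
    lieHom1 F m (x + x') = lieHom1 F m x + lieHom1 F m x' := by
  apply addHom_ext'
  intro n y
  rw [AddMonoidHom.add_apply, lieHom1_of, lieHom1_of, lieHom1_of, grBr_add,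
    AddMonoidHom.add_apply, map_add]

/-- The biadditive extension of the bracket of homogeneous elements. -/
noncomputable def lieHom : LR F →+ LR F →+ LR F :=
  DirectSum.toAddMonoid fun m => AddMonoidHom.mk' (lieHom1 F m) (lieHom1_add F m)

theorem lieHom_of (m n : ℕ) (x : Grd F m) (y : Grd F n) :
    lieHom F (ofL F m x) (ofL F n y) = ofL F (m + n + 1) (grBr F m n x y) := by
  have h1 : (lieHom F (ofL F m x) : LR F →+ LR F) = lieHom1 F m x :=
    DirectSum.toAddMonoid_of _ _ _
  rw [h1, lieHom1_of]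

/-- The class, in the component of index `n`, of an element of `γ_{n+1}`. -/
noncomputable def mkL (n : ℕ) (g : F.L n) : LR F := ofL F n (grMk F n g)

theorem mkL_mul (n : ℕ) (g h : F.L n) : mkL F n (g * h) = mkL F n g + mkL F n h := by
  unfold mkL; rw [grMk_mul, map_add]

theorem mkL_inv (n : ℕ) (g : F.L n) : mkL F n g⁻¹ = - mkL F n g := by
  unfold mkL; rw [grMk_inv, map_neg]

theorem mkL_one (n : ℕ) : mkL F n (1 : F.L n) = 0 := by
  unfold mkL; rw [grMk_one, map_zero]

theorem mkL_congr {m n : ℕ} (h : m = n) {g : F.L m} {g' : F.L n} (hg : (g : G) = g') :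
    mkL F m g = mkL F n g' := by
  subst h
  congr 1
  exact Subtype.ext hg

theorem mkL_conj (n : ℕ) {k : ℕ} (x : G) (hx : x ∈ F.L k) (g g' : F.L n)
    (hg : (g' : G) = x * g * x⁻¹) : mkL F n g' = mkL F n g := by
  refine congrArg (ofL F n) ?_
  rw [eq_comm, grMk_eq, hg]
  have h0 : ⁅(g : G)⁻¹, x⁆ ∈ F.L (n + k + 1) := NS.Lcomm (inv_mem g.2) hx
  have h1 : ⁅(g : G)⁻¹, x⁆ ∈ F.L (n + 1) := NS.Lanti (by omega) h0
  convert h1 using 1
  simp only [commutatorElement_def]
  group

theorem lieHom_mkL (m n : ℕ) (g : F.L m) (h : F.L n) :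
    lieHom F (mkL F m g) (mkL F n h) = mkL F (m + n + 1) ⟨⁅(g : G), (h : G)⁆, NS.Lcomm g.2 h.2⟩ := by
  unfold mkL; rw [lieHom_of, grBr_mk]; rfl

/-- Two additive maps out of the associated Lie ring agree if they agree on the classes. -/
theorem addHom_ext {A : Type*} [AddCommMonoid A] {f g : LR F →+ A}
    (h : ∀ (n : ℕ) (x : F.L n), f (mkL F n x) = g (mkL F n x)) : f = g := by
  apply DirectSum.addHom_ext
  intro n y
  obtain ⟨x, rfl⟩ := grMk_surj F n y
  exact h n x

theorem ind {p : LR F → Prop} (h0 : p 0) (h1 : ∀ (n : ℕ) (g : F.L n), p (mkL F n g))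
    (h2 : ∀ x y, p x → p y → p (x + y)) (x : LR F) : p x :=
  DirectSum.induction_on (motive := p) x h0
    (fun n y => by obtain ⟨g, rfl⟩ := grMk_surj F n y; exact h1 n g) h2

theorem lie_antisymm (x y : LR F) : lieHom F x y = - lieHom F y x := by
  have h : (lieHom F : LR F →+ LR F →+ LR F) = - (lieHom F).flip := by
    apply addHom_ext
    intro m g
    apply addHom_ext
    intro n h
    rw [AddMonoidHom.neg_apply, AddMonoidHom.neg_apply, AddMonoidHom.flip_apply, lieHom_mkL,
      lieHom_mkL, ← mkL_inv]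
    apply mkL_congr F (by ring)
    exact (commutatorElement_inv _ _).symm
  exact DFunLike.congr_fun (DFunLike.congr_fun h x) y

theorem lieHom_add_left (x y z : LR F) :
    lieHom F (x + y) z = lieHom F x z + lieHom F y z := by
  rw [map_add]
  exact AddMonoidHom.add_apply _ _ _

theorem lie_alt (x : LR F) : lieHom F x x = 0 := by
  induction x using ind with
  | h0 => rw [map_zero]
  | h1 n g =>
    rw [lieHom_mkL, ← mkL_one F (n + n + 1)]
    apply mkL_congr F rfl
    exact commutatorElement_self _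
  | h2 x y hx hy =>
    have h1 : lieHom F (x + y) (x + y) = lieHom F x x + lieHom F x y + (lieHom F y x + lieHom F y y) := by
      rw [map_add, lieHom_add_left, lieHom_add_left]
      abel
    refine h1.trans ?_
    rw [hx, hy, lie_antisymm F x y]
    abel

theorem jac_aux (m n p : ℕ) (x : F.L m) (y : F.L n) (z : F.L p) :
    lieHom F (mkL F p z) (lieHom F (mkL F m x) (mkL F n y)) + lieHom F (mkL F n y) (lieHom F (mkL F p z) (mkL F m x))
      + lieHom F (mkL F m x) (lieHom F (mkL F n y) (mkL F p z)) = 0 := by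
  have e1 : lieHom F (mkL F n y) (lieHom F (mkL F p z) (mkL F m x)) =
      lieHom F (mkL F n y) (lieHom F (mkL F p z⁻¹) (mkL F m x⁻¹)) := by
    simp only [mkL_inv, map_neg, AddMonoidHom.neg_apply, neg_neg]
  have e2 : lieHom F (mkL F m x) (lieHom F (mkL F n y) (mkL F p z)) =
      lieHom F (mkL F m x⁻¹) (lieHom F (mkL F n y⁻¹) (mkL F p z)) := by
    simp only [mkL_inv, map_neg, AddMonoidHom.neg_apply, neg_neg]
  rw [e1, e2]
  simp only [lieHom_mkL]
  have hz1 : ⁅(y : G), ⁅(z : G)⁻¹, (x : G)⁻¹⁆⁆ ∈ F.L (m + n + p + 2) := by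
    have := NS.Lcomm y.2 (NS.Lcomm (inv_mem z.2) (inv_mem x.2))
    exact NS.Lanti (by omega) this
  have hz2 : ⁅(x : G)⁻¹, ⁅(y : G)⁻¹, (z : G)⁆⁆ ∈ F.L (m + n + p + 2) := by
    have := NS.Lcomm (inv_mem x.2) (NS.Lcomm (inv_mem y.2) z.2)
    exact NS.Lanti (by omega) this
  have hz3 : ⁅(z : G), ⁅(x : G), (y : G)⁆⁆ ∈ F.L (m + n + p + 2) := by
    have := NS.Lcomm z.2 (NS.Lcomm x.2 y.2)
    exact NS.Lanti (by omega) this
  set A : F.L (m + n + p + 2) := ⟨_, hz1⟩ with hA
  set B : F.L (m + n + p + 2) := ⟨_, hz2⟩ with hB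
  set C : F.L (m + n + p + 2) := ⟨_, hz3⟩ with hC
  suffices E : ∀ a b c : LR F, a = mkL F _ C → b = mkL F _ A → c = mkL F _ B → a + b + c = 0 by
    apply E
    · exact mkL_congr F (by omega) rfl
    · exact mkL_congr F (by omega) rfl
    · exact mkL_congr F (by omega) rfl
  have hA' : mkL F (m + n + p + 2) (⟨(z : G) * (A⁻¹ : F.L _) * (z : G)⁻¹,
      conj_mem' _ (A⁻¹ : F.L _).2⟩ : F.L (m + n + p + 2)) = - mkL F _ A := by
    rw [mkL_conj F _ (z : G) z.2 A⁻¹ _ rfl, mkL_inv]
  have hB' : mkL F (m + n + p + 2) (⟨(y : G) * (B⁻¹ : F.L _) * (y : G)⁻¹,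
      conj_mem' _ (B⁻¹ : F.L _).2⟩ : F.L (m + n + p + 2)) = - mkL F _ B := by
    rw [mkL_conj F _ (y : G) y.2 B⁻¹ _ rfl, mkL_inv]
  have hC' : mkL F (m + n + p + 2) C = - mkL F _ A + - mkL F _ B := by
    rw [← hA', ← hB', ← mkL_mul]
    apply mkL_conj F _ (x : G) x.2
    exact hall_witt (x : G) (y : G) (z : G)
  rintro a b c rfl rfl rfl
  rw [hC']
  abel

theorem lie_leibniz (x y z : LR F) :
    lieHom F x (lieHom F y z) = lieHom F (lieHom F x y) z + lieHom F y (lieHom F x z) := by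
  have key : ∀ (m n p : ℕ) (x : F.L m) (y : F.L n) (z : F.L p),
      lieHom F (mkL F m x) (lieHom F (mkL F n y) (mkL F p z)) =
      lieHom F (lieHom F (mkL F m x) (mkL F n y)) (mkL F p z) +
        lieHom F (mkL F n y) (lieHom F (mkL F m x) (mkL F p z)) := by
    intro m n p x y z
    have h := jac_aux F m n p x y z
    rw [lie_antisymm F (lieHom F (mkL F m x) (mkL F n y)) (mkL F p z),
      lie_antisymm F (mkL F m x) (mkL F p z), map_neg]
    rw [← sub_eq_zero, ← h]
    abel
  have h3 : (lieHom F : LR F →+ LR F →+ LR F) = lieHom F := rfl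
  -- extend additively in `x`
  have step1 : ∀ (n p : ℕ) (y : F.L n) (z : F.L p) (x : LR F),
      lieHom F x (lieHom F (mkL F n y) (mkL F p z)) =
      lieHom F (lieHom F x (mkL F n y)) (mkL F p z) +
        lieHom F (mkL F n y) (lieHom F x (mkL F p z)) := by
    intro n p y z x
    have : ((lieHom F).flip (lieHom F (mkL F n y) (mkL F p z)) : LR F →+ LR F) =
        ((lieHom F).flip (mkL F p z)).comp ((lieHom F).flip (mkL F n y)) +
        (lieHom F (mkL F n y)).comp ((lieHom F).flip (mkL F p z)) := by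
      apply addHom_ext
      intro m x
      simpa using key m n p x y z
    simpa using DFunLike.congr_fun this x
  have step2 : ∀ (p : ℕ) (z : F.L p) (x y : LR F),
      lieHom F x (lieHom F y (mkL F p z)) =
      lieHom F (lieHom F x y) (mkL F p z) + lieHom F y (lieHom F x (mkL F p z)) := by
    intro p z x y
    have : ((lieHom F x).comp ((lieHom F).flip (mkL F p z)) : LR F →+ LR F) =
        ((lieHom F).flip (mkL F p z)).comp (lieHom F x) +
        ((lieHom F).flip (lieHom F x (mkL F p z))) := by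
      apply addHom_ext
      intro n y
      simpa using step1 n p y z x
    simpa using DFunLike.congr_fun this y
  have : ((lieHom F x).comp (lieHom F y) : LR F →+ LR F) =
      lieHom F (lieHom F x y) + (lieHom F y).comp (lieHom F x) := by
    apply addHom_ext
    intro p z
    simpa using step2 p z x y
  simpa using DFunLike.congr_fun this z

/-- The bracket of the associated Lie ring. -/
noncomputable def br (x y : LR F) : LR F := lieHom F x y

theorem br_add_left (x y z : LR F) : br F (x + y) z = br F x z + br F y z := lieHom_add_left F x y z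

theorem br_add_right (x y z : LR F) : br F x (y + z) = br F x y + br F x z := map_add _ _ _

theorem br_self (x : LR F) : br F x x = 0 := lie_alt F x

theorem br_leibniz (x y z : LR F) : br F x (br F y z) = br F (br F x y) z + br F y (br F x z) :=
  lie_leibniz F x y z

/-- The associated Lie ring is a Lie ring. -/
noncomputable instance instLieRingAssocLie : LieRing (LR F) where
  bracket := br F
  add_lie := br_add_left F
  lie_add := br_add_right F
  lie_self := br_self F
  leibniz_lie := br_leibniz F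


end Pool.Agent.Y50.FE
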