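import Pool.Agent.Y50.FE.Snd

/-!
# Soundness of the checker: relations
-/

set_option autoImplicit false

namespace Pool.Agent.Y50.FE

universe u

variable {L : Type u} [LieRing L]

theorem smul24 {v : L} (h5 : ∀ v : L, 5 • v = 0) (h : 24 • v = 0) : v = 0 := by
  have e : v = 5 • (5 • v) - 24 • v := by
    rw [smul_smul]
    have : (5 * 5) • v = 24 • v + v := by
      rw [show (5 * 5 : ℕ) = 24 + 1 by norm_num, add_smul, one_smul]
    rw [this]; abel
  rw [e, h, h5, sub_zero]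

theorem smul6 {v : L} (h5 : ∀ v : L, 5 • v = 0) (h : 6 • v = 0) : v = 0 := by
  have e : v = 6 • v - 5 • v := by
    rw [show (6 : ℕ) = 5 + 1 by norm_num, add_smul, one_smul]; abel
  rw [e, h, h5, sub_zero]

theorem smul2 {v : L} (h5 : ∀ v : L, 5 • v = 0) (h : 2 • v = 0) : v = 0 := by
  apply smul6 h5
  rw [show (6 : ℕ) = 3 * 2 by norm_num, mul_smul, h, smul_zero]

variable {Hm : Set L} {x : ℕ → L}

theorem law1 (H : Hyp Hm x) {b g : L} (hb : b ∈ Hm) (hg : g ∈ Hm) : ⁅⁅⁅⁅b, g⁆, g⁆, g⁆, g⁆ = 0 := by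
  apply smul24 H.five
  rw [← H.eng b hb g hg g hg g hg g hg]
  simp only [S4, S3, S2]
  abel

theorem law31 (H : Hyp Hm x) {b g a : L} (hb : b ∈ Hm) (hg : g ∈ Hm) (ha : a ∈ Hm) :
    ⁅⁅⁅⁅b, a⁆, g⁆ + ⁅⁅b, g⁆, a⁆, g⁆ + ⁅⁅⁅b, g⁆, g⁆, a⁆, g⁆ + ⁅⁅⁅⁅b, g⁆, g⁆, g⁆, a⁆ = 0 := by
  apply smul6 H.five
  rw [← H.eng b hb g hg g hg g hg a ha]
  simp only [S4, S3, S2, add_lie]
  abel

theorem law211 (H : Hyp Hm x) {b g a c : L} (hb : b ∈ Hm) (hg : g ∈ Hm) (ha : a ∈ Hm)
    (hc : c ∈ Hm) :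
    ⁅⁅⁅⁅b, c⁆, a⁆ + ⁅⁅b, a⁆, c⁆, g⁆ + ⁅⁅⁅b, c⁆, g⁆ + ⁅⁅b, g⁆, c⁆, a⁆ +
        ⁅⁅⁅b, a⁆, g⁆ + ⁅⁅b, g⁆, a⁆, c⁆, g⁆ +
      ⁅⁅⁅⁅b, c⁆, g⁆ + ⁅⁅b, g⁆, c⁆, g⁆ + ⁅⁅⁅b, g⁆, g⁆, c⁆, a⁆ +
      ⁅⁅⁅⁅b, a⁆, g⁆ + ⁅⁅b, g⁆, a⁆, g⁆ + ⁅⁅⁅b, g⁆, g⁆, a⁆, c⁆ = 0 := by
  apply smul2 H.five
  rw [← H.eng b hb g hg g hg a ha c hc]
  simp only [S4, S3, S2, add_lie]
  abel

/-! ### the space of symbols -/

theorem sc_length (e : ℕ) (cs : List ℕ) : (sc e cs).length = cs.length := by
  induction cs with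
  | nil => rfl
  | cons c cs ih => simp only [sc, List.length_cons, ih]

theorem ev_sc {e : ℕ} (he : e < 3) : ∀ (cs l : List ℕ), (∀ c ∈ cs, 4 ≤ c) →
    ev x (sc e cs) l = ⁅ev x cs l, x e⁆ := by
  intro cs
  induction cs with
  | nil => intro l _; simp [sc, ev]
  | cons c cs ih =>
    intro l h
    cases l with
    | nil => simp [sc, ev]
    | cons a l =>
      simp only [sc, ev, add_lie]
      rw [ih l fun c hc => h c (List.mem_cons_of_mem _ hc),
        wv_step x (h c List.mem_cons_self) he, ← rb_apply (x e) (a • wv x c), map_nsmul, rb_apply]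

theorem rep_sc {e : ℕ} (he : e < 3) {cs : List ℕ} (h : ∀ c ∈ cs, 4 ≤ c) {n K : ℕ} {v : L}
    (hr : RepL x cs n K v) : RepL x (sc e cs) n K ⁅v, x e⁆ := by
  obtain ⟨l, l1, l2, l3, rfl⟩ := hr
  exact ⟨l, by rw [sc_length, l1], l2, l3, ev_sc he cs l h⟩

variable {E : ℕ → Nd}

theorem opS_rep (hE : EOK E) {mu q e : ℕ} (he : e < 3) (hq : q + un e = mu) {o1 o2 : ℕ}
    (h1 : o1 = (E (mu - un 0)).codes.length) (h2 : o2 = o1 + (E (mu - un 1)).codes.length)
    {s : St} {v : L} (h : SRep x E q s v) :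
    RepL x (symc E mu) (opS (shf o1 o2) e s).n (opS (shf o1 o2) e s).K ⁅v, x e⁆ := by
  have hq' : q = mu - un e := by omega
  have h3 := rep_sc he (fun c hc => (hE.val q c hc).1) h.1
  rw [hq'] at h3
  unfold symc
  interval_cases e
  · have e1 : (opS (shf o1 o2) 0 s).n = s.n := by
      change s.n * 1 = s.n
      omega
    rw [e1]
    exact repL_append_left _ _ h3
  · have e1 : (opS (shf o1 o2) 1 s).n = s.n * Bs ^ (sc 0 (E (mu - un 0)).codes).length := by
      rw [sc_length, ← h1]; rfl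
    rw [e1]
    exact repL_append_right _ _ (repL_append_left _ _ h3)
  · have e1 : (opS (shf o1 o2) 2 s).n = (s.n * Bs ^ (sc 1 (E (mu - un 1)).codes).length) *
        Bs ^ (sc 0 (E (mu - un 0)).codes).length := by
      rw [sc_length, sc_length, ← h1, mul_assoc, ← pow_add,
        show (E (mu - un 1)).codes.length + o1 = o2 by omega]
      rfl
    rw [e1]
    exact repL_append_right _ _ (repL_append_right _ _ h3)

theorem opwS_rep (h5 : ∀ v : L, 5 • v = 0) (hE : EOK E) {X : ℕ} (hX : Env x E X) {mu : ℕ}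
    (hmu : mu < X + 32769) {o1 o2 : ℕ}
    (h1 : o1 = (E (mu - un 0)).codes.length) (h2 : o2 = o1 + (E (mu - un 1)).codes.length)
    (w : List ℕ) : isWd w = true → ∀ (q : ℕ) (s : St) (v : L),
      q + dg w = mu → (opwS (shf o1 o2) w s).K < Bs → SRep x E q s v →
      RepL x (symc E mu) (opwS (shf o1 o2) w s).n (opwS (shf o1 o2) w s).K ⁅v, lw x w⁆ := by
  have un3 : ∀ e < 3, 32769 ≤ un e := by
    intro e he
    interval_cases e <;> decide
  induction w with
  | nil =>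
    intro _ q s v _ _ h
    rw [opwS_nil, lw, lie_zero]
    exact repL_zero _ _ _
  | cons e w ih =>
    intro hw q s v hq hK h
    obtain ⟨he, hw'⟩ := isWd_cons hw
    have u1 := un3 e he
    cases w with
    | nil =>
      rw [opwS_single, lw_single]
      have e0 : q + dg [e] = q + un e := by simp [dg]
      exact opS_rep hE he (e0 ▸ hq) h1 h2 h
    | cons a w =>
      rw [opwS_cons] at hK ⊢
      rw [lw_cons x e _ (List.cons_ne_nil _ _), ← lie_rule]
      have K1 : (opw (a :: w) s).K < Bs := lt_of_le_of_lt (Nat.le_add_right _ _) hK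
      have K2 : (opwS (shf o1 o2) (a :: w) (op e s)).K < Bs := by
        refine lt_of_le_of_lt ?_ hK
        change _ ≤ (opw (a :: w) s).K + 4 * (opwS (shf o1 o2) (a :: w) (op e s)).K
        omega
      have dgc : dg (e :: a :: w) = dg (a :: w) + un e := rfl
      have d1 : (q + dg (a :: w)) + un e = mu := by omega
      have d2 : (q + un e) + dg (a :: w) = mu := by omega
      have d3 : 32769 ≤ dg (a :: w) := by
        have := un3 a (isWd_cons hw').1
        have dgc' : dg (a :: w) = dg w + un a := rfl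
        omega
      have r1 := opS_rep hE he d1 h1 h2
        (opw_rep h5 hE hX (a :: w) hw' q s v (by omega) K1 h)
      have K0 : s.K < Bs := (opw_K _ _).trans_lt K1
      have r2 := ih hw' _ _ _ d2 K2 (op_rep hE hX he (by omega) K0 h)
      have r3 := repL_add r1 (repL_smul 4 r2)
      rw [neg_four (h5 _), ← sub_eq_add_neg] at r3
      exact r3

/-- all data for a component -/
structure Ctx (x : ℕ → L) (Hm : Set L) (E : ℕ → Nd) (X mu o1 o2 : ℕ) : Prop where
  H : Hyp Hm x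
  hE : EOK E
  hX : Env x E X
  hmu : mu < X + 32769
  h1 : o1 = (E (mu - un 0)).codes.length
  h2 : o2 = o1 + (E (mu - un 1)).codes.length

theorem nth_mem : ∀ (l : List ℕ) (i : ℕ), i < l.length → nth l i ∈ l := by
  intro l
  induction l with
  | nil => intro i hi; simp at hi
  | cons a l ih =>
    intro i hi
    cases i with
    | zero => exact List.mem_cons_self
    | succ i => exact List.mem_cons_of_mem _ (ih i (by simpa using hi))

theorem un_ge (e : ℕ) : 32769 ≤ un e := by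
  rcases e with _ | _ | e
  · decide
  · decide
  · exact (by decide : 32769 ≤ 33792)

theorem dg_ge {a : List ℕ} (h : a ≠ []) : 32769 ≤ dg a := by
  cases a with
  | nil => exact absurd rfl h
  | cons e a =>
    have := un_ge e
    rw [dg]; omega

theorem ne_of_nonNil {a : List ℕ} (h : nonNil a = true) : a ≠ [] := by
  rintro rfl
  simp [nonNil] at h

section
variable {X mu o1 o2 : ℕ} (C : Ctx x Hm E X mu o1 o2)

/-- conditional representation -/
def CR (x : ℕ → L) (E : ℕ → Nd) (q : ℕ) (s : St) (v : L) : Prop := s.K < Bs → SRep x E q s v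

/-- conditional representation in the space of symbols -/
def CS (x : ℕ → L) (E : ℕ → Nd) (mu : ℕ) (s : St) (v : L) : Prop :=
  s.K < Bs → RepL x (symc E mu) s.n s.K v

theorem CR.cast {q q' : ℕ} {s : St} {v : L} (h : CR x E q s v) (e : q = q') : CR x E q' s v :=
  e ▸ h

include C in
theorem Ctx.start {q i : ℕ} (hi : i < (E q).codes.length) :
    CR x E q ⟨E q, Nat.pow Bs i, 1⟩ (wv x (nth (E q).codes i)) := fun _ =>
  ⟨repL_unit _ _ hi, Or.inl rfl⟩

include C in
theorem Ctx.wvm {q i : ℕ} (hi : i < (E q).codes.length) : wv x (nth (E q).codes i) ∈ Hm := by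
  have h := C.hE.val q _ (nth_mem (E q).codes i hi)
  refine lw_mem C.H _ h.2 ?_
  rw [dcd, dif_neg (by omega)]
  simp

theorem CR.add {q : ℕ} {s t : St} {v w : L} (h : CR x E q s v) (h' : CR x E q t w) :
    CR x E q (s.add t) (v + w) := fun hK =>
  add_rep (h (lt_of_le_of_lt (Nat.le_add_right _ _) hK))
    (h' (lt_of_le_of_lt (Nat.le_add_left _ _) hK))

theorem CS.add {s t : St} {v w : L} (h : CS x E mu s v) (h' : CS x E mu t w) :
    CS x E mu (s.add t) (v + w) := fun hK =>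
  repL_add (h (lt_of_le_of_lt (Nat.le_add_right _ _) hK))
    (h' (lt_of_le_of_lt (Nat.le_add_left _ _) hK))

include C in
theorem Ctx.op {q e : ℕ} {s : St} {v : L} (h : CR x E q s v) (he : e < 3) (hq : q + un e < X) :
    CR x E (q + un e) (op e s) ⁅v, x e⁆ := fun hK =>
  op_rep C.hE C.hX he hq ((op_K _ _).trans_lt hK) (h ((op_K _ _).trans_lt hK))

include C in
theorem Ctx.opw {q : ℕ} {w : List ℕ} {s : St} {v : L} (h : CR x E q s v) (hw : isWd w = true)
    (hq : q + dg w < X) : CR x E (q + dg w) (opw w s) ⁅v, lw x w⁆ := fun hK =>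
  opw_rep C.H.five C.hE C.hX w hw q s v hq hK (h ((opw_K _ _).trans_lt hK))

include C in
theorem Ctx.opS {q e : ℕ} {s : St} {v : L} (h : CR x E q s v) (he : e < 3) (hq : q + un e = mu) :
    CS x E mu (opS (shf o1 o2) e s) ⁅v, x e⁆ := fun hK =>
  opS_rep C.hE he hq C.h1 C.h2 (h hK)

theorem opwS_K (sh : ℕ → ℕ) (w : List ℕ) : ∀ s : St, s.K ≤ (Pool.Agent.Y50.FE.opwS sh w s).K := by
  induction w with
  | nil => intro s; exact le_rfl
  | cons e w ih =>
    intro s
    cases w with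
    | nil => exact le_rfl
    | cons a w =>
      rw [opwS_cons]
      exact (opw_K _ s).trans (Nat.le_add_right _ _)

include C in
theorem Ctx.opwS {q : ℕ} {w : List ℕ} {s : St} {v : L} (h : CR x E q s v) (hw : isWd w = true)
    (hq : q + dg w = mu) : CS x E mu (opwS (shf o1 o2) w s) ⁅v, lw x w⁆ := fun hK =>
  opwS_rep C.H.five C.hE C.hX C.hmu C.h1 C.h2 w hw q s v hq hK
    (h ((opwS_K _ _ _).trans_lt hK))

include C in
theorem Ctx.p1 {q i g : ℕ} (hg : g < 3) (hi : i < (E q).codes.length) (hq : q + 4 * un g = mu) :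
    CS x E mu (Rel.st E (shf o1 o2) (.p1 q i g)) 0 := by
  have u := un_ge g
  have hmu := C.hmu
  rw [← law1 C.H (C.wvm hi) (C.H.mem g hg)]
  exact C.opS (C.op (C.op (C.op (C.start hi) hg (by omega)) hg (by omega)) hg (by omega)) hg
    (by omega)

include C in
theorem Ctx.cu {q i : ℕ} (hz : ∀ v ∈ Hm, ⁅⁅⁅v, x 0⁆, x 0⁆, x 0⁆ = 0)
    (hi : i < (E q).codes.length) (hq : q + 3 * un 0 = mu) :
    CS x E mu (Rel.st E (shf o1 o2) (.cu q i)) 0 := by
  have u := un_ge 0
  have hmu := C.hmu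
  rw [← hz _ (C.wvm hi)]
  exact C.opS (C.op (C.op (C.start hi) (by norm_num) (by omega)) (by norm_num) (by omega))
    (by norm_num) (by omega)

include C in
theorem Ctx.p31 {q i g : ℕ} {a : List ℕ} (hg : g < 3) (hi : i < (E q).codes.length)
    (ha : isWd a = true) (ha' : a ≠ []) (hq : q + 3 * un g + dg a = mu) :
    CS x E mu (Rel.st E (shf o1 o2) (.p31 q i g a)) 0 := by
  have u := un_ge g
  have u' := dg_ge ha'
  have hmu := C.hmu
  rw [← law31 C.H (C.wvm hi) (C.H.mem g hg) (lw_mem C.H a ha ha')]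
  have s0 := C.start hi
  have v1 := C.op s0 hg (by omega)
  have v2 := C.op v1 hg (by omega)
  have v3 := C.op v2 hg (by omega)
  have c0 := C.opw s0 ha (by omega)
  have c1 := (C.op c0 hg (by omega)).add ((C.opw v1 ha (by omega)).cast (by omega))
  have c2 := (C.op c1 hg (by omega)).add ((C.opw v2 ha (by omega)).cast (by omega))
  exact (C.opS c2 hg (by omega)).add (C.opwS v3 ha (by omega))

include C in
theorem Ctx.p211 {q i g : ℕ} {a b : List ℕ} (hg : g < 3) (hi : i < (E q).codes.length)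
    (ha : isWd a = true) (ha' : a ≠ []) (hb : isWd b = true) (hb' : b ≠ [])
    (hq : q + 2 * un g + dg a + dg b = mu) :
    CS x E mu (Rel.st E (shf o1 o2) (.p211 q i g a b)) 0 := by
  have u := un_ge g
  have u' := dg_ge ha'
  have u'' := dg_ge hb'
  have hmu := C.hmu
  rw [← law211 C.H (C.wvm hi) (C.H.mem g hg) (lw_mem C.H a ha ha') (lw_mem C.H b hb hb')]
  have s0 := C.start hi
  have s1 := C.op s0 hg (by omega)
  have s2 := C.op s1 hg (by omega)
  have sa := C.opw s0 ha (by omega)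
  have sb := C.opw s0 hb (by omega)
  have s1a := (C.op sa hg (by omega)).add ((C.opw s1 ha (by omega)).cast (by omega))
  have s1b := (C.op sb hg (by omega)).add ((C.opw s1 hb (by omega)).cast (by omega))
  have sab := (C.opw sb ha (by omega)).add ((C.opw sa hb (by omega)).cast (by omega))
  have s2a := (C.op s1a hg (by omega)).add ((C.opw s2 ha (by omega)).cast (by omega))
  have s2b := (C.op s1b hg (by omega)).add ((C.opw s2 hb (by omega)).cast (by omega))
  have s1ab := ((C.op sab hg (by omega)).add ((C.opw s1b ha (by omega)).cast (by omega))).add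
    ((C.opw s1a hb (by omega)).cast (by omega))
  exact ((C.opS s1ab hg (by omega)).add (C.opwS s2b ha (by omega))).add
    (C.opwS s2a hb (by omega))

include C in
theorem Ctx.an {q i e : ℕ} {w : List ℕ} (he : e < 3) (hi : i < (E q).codes.length)
    (hq : q + un e = mu) (hc : nth (E q).codes i = cd w) (hw : isWd w = true)
    (hd : dg w = q) : CS x E mu (Rel.st E (shf o1 o2) (.an q i e w)) 0 := by
  have e1 : wv x (nth (E q).codes i) = lw x w := by
    rw [hc, wv, dcd_cd w hw]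
  have e2 : ⁅x e, lw x w⁆ + ⁅wv x (nth (E q).codes i), x e⁆ = 0 := by
    rw [e1, ← lie_skew (x e) (lw x w)]; abel
  rw [← e2]
  have hmu := C.hmu
  have g0 : CR x E (un e) ⟨E (un e), 1, 1⟩ (x e) := by
    intro _
    refine ⟨?_, Or.inl rfl⟩
    have h := repL_unit (x := x) (E (un e)).codes 0 (by rw [C.hE.gen e he]; exact Nat.one_pos)
    rw [C.hE.gen e he] at h ⊢
    rw [nth, wv_gen x he] at h
    exact h
  have r1 := C.opwS g0 hw (by omega)
  have r2 := C.opS (C.start hi) he hq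
  intro hK
  refine repL_add (r1 (lt_of_le_of_lt (Nat.le_add_right _ _) hK)) ?_
  exact r2 (show 1 < Bs by norm_num)

include C in
theorem Ctx.rel {z : Bool} (hz : z = true → ∀ v ∈ Hm, ⁅⁅⁅v, x 0⁆, x 0⁆, x 0⁆ = 0) (r : Rel)
    (h : r.ok z E mu = true) : CS x E mu (Rel.st E (shf o1 o2) r) 0 := by
  cases r with
  | p1 q i g =>
    simp only [Rel.ok, Bool.and_eq_true, lt3, Nat.blt_eq, Nat.beq_eq] at h
    exact C.p1 h.1.1 h.1.2 h.2
  | cu q i =>
    simp only [Rel.ok, Bool.and_eq_true, Nat.blt_eq, Nat.beq_eq] at h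
    exact C.cu (hz h.1.1) h.1.2 h.2
  | p31 q i g a =>
    simp only [Rel.ok, Bool.and_eq_true, lt3, Nat.blt_eq, Nat.beq_eq] at h
    exact C.p31 h.1.1.1.1 h.1.1.1.2 h.1.1.2 (ne_of_nonNil h.1.2) h.2
  | p211 q i g a b =>
    simp only [Rel.ok, Bool.and_eq_true, lt3, Nat.blt_eq, Nat.beq_eq] at h
    exact C.p211 h.1.1.1.1.1.1 h.1.1.1.1.1.2 h.1.1.1.1.2 (ne_of_nonNil h.1.1.1.2) h.1.1.2
      (ne_of_nonNil h.1.2) h.2
  | an q i e w =>
    simp only [Rel.ok, Bool.and_eq_true, lt3, Nat.blt_eq, Nat.beq_eq] at h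
    exact C.an h.1.1.1.1.1.1 h.1.1.1.1.1.2 h.1.1.1.1.2 h.1.1.1.2 h.1.1.2 h.2

end

end Pool.Agent.Y50.FE
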