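import Pool.Agent.Y50.FE.Snd2

/-!
# Soundness of the checker: components
-/

set_option autoImplicit false

namespace Pool.Agent.Y50.FE

universe u

variable {L : Type u} [LieRing L] {Hm : Set L} {x : ℕ → L} {E : ℕ → Nd}

theorem frc_eq (n : ℕ) (f : ℕ → Bool) : frc n f = f n := by
  cases n <;> rfl

theorem and_true' {a b : Bool} : a.and b = true ↔ a = true ∧ b = true := Bool.and_eq_true_iff

theorem evR_sound {X mu o1 o2 : ℕ} (C : Ctx x Hm E X mu o1 o2) {z : Bool}
    (hz : z = true → ∀ v ∈ Hm, ⁅⁅⁅v, x 0⁆, x 0⁆, x 0⁆ = 0) (k : List ℕ → ℕ → Bool)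
    (rels : List Rel) : ∀ (acc : List ℕ) (K : ℕ),
      evR z E mu (shf o1 o2) rels acc K k = true →
      ∃ Rs Km, k Rs Km = true ∧ K ≤ Km ∧ (Km < Bs → ∀ Ks0,
        List.Forall₂ (fun r k => RepL x (symc E mu) r k 0) acc Ks0 → Ks0.sum = K →
        ∃ Ks, List.Forall₂ (fun r k => RepL x (symc E mu) r k 0) Rs Ks ∧ Ks.sum = Km) := by
  induction rels with
  | nil =>
    intro acc K h
    exact ⟨acc, K, h, le_rfl, fun _ Ks0 h1 h2 => ⟨Ks0, h1, h2⟩⟩
  | cons r rels ih =>
    intro acc K h
    change (r.ok z E mu).and (frc (r.st E (shf o1 o2)).n fun n => frc (r.st E (shf o1 o2)).K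
      fun K1 => evR z E mu (shf o1 o2) rels (n :: acc) (Nat.add K K1) k) = true at h
    rw [and_true', frc_eq, frc_eq] at h
    obtain ⟨h0, h⟩ := h
    obtain ⟨Rs, Km, h1, h2, h3⟩ := ih _ _ h
    have h2' : K + (r.st E (shf o1 o2)).K ≤ Km := h2
    refine ⟨Rs, Km, h1, by omega, fun hKm Ks0 h4 h5 => ?_⟩
    refine h3 hKm ((r.st E (shf o1 o2)).K :: Ks0) (List.Forall₂.cons ?_ h4) ?_
    · exact C.rel hz r h0 (by omega)
    · change _ = K + (r.st E (shf o1 o2)).K
      rw [List.sum_cons, h5]; omega

/-- the part of a sum over the positions outside the basis -/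
def nsum (x : ℕ → L) : List Bool → List ℕ → List ℕ → L
  | true :: ks, _ :: cs, _ :: l => nsum x ks cs l
  | false :: ks, c :: cs, n :: l => n • wv x c + nsum x ks cs l
  | _, _, _ => 0

theorem chkL_false (ks : List Bool) (L row u : ℕ) : chkL (false :: ks) L row u =
    ((Nat.beq ((L % Bs + 4 * (u % Bs)) % 5) 0).and (chkL ks (L / Bs) row (u / Bs))) := rfl

theorem chkL_true (ks : List Bool) (L row u : ℕ) : chkL (true :: ks) L row u =
    ((Nat.beq ((L % Bs + row % Bs) % 5) 0).and
      ((Nat.ble (row % Bs) 4).and (chkL ks (L / Bs) (row / Bs) (u / Bs)))) := rfl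

theorem smul_of_mod {v : L} (h5 : ∀ v : L, 5 • v = 0) {n : ℕ} (h : n % 5 = 0) : n • v = 0 := by
  obtain ⟨m, rfl⟩ := Nat.dvd_of_mod_eq_zero h
  rw [mul_comm, mul_smul, h5, smul_zero]

theorem chkL_sound (h5 : ∀ v : L, 5 • v = 0) (ks : List Bool) : ∀ (cs l ul : List ℕ) (row : ℕ),
    ks.length = cs.length → l.length = cs.length → ul.length = cs.length →
    (∀ y ∈ l, y < Bs) → (∀ y ∈ ul, y < Bs) → chkL ks (pk l) row (pk ul) = true →
    ∃ rl : List ℕ, rl.length = (kc ks cs).length ∧ (∀ y ∈ rl, y ≤ 4) ∧ pk rl = row ∧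
      ev x cs l + ev x (kc ks cs) rl = nsum x ks cs ul := by
  induction ks with
  | nil =>
    intro cs l ul row h1 h2 h3 _ _ h
    obtain rfl : cs = [] := List.length_eq_zero_iff.1 h1.symm
    obtain rfl : l = [] := List.length_eq_zero_iff.1 h2
    obtain rfl : ul = [] := List.length_eq_zero_iff.1 h3
    have h4 : row = 0 := Nat.eq_of_beq_eq_true h
    subst h4
    exact ⟨[], rfl, by simp, rfl, by simp [ev, nsum]⟩
  | cons k ks ih =>
    intro cs l ul row h1 h2 h3 hl hul h
    obtain ⟨c, cs, rfl⟩ : ∃ a t, cs = a :: t := by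
      cases cs with
      | nil => simp at h1
      | cons a t => exact ⟨a, t, rfl⟩
    obtain ⟨a, l, rfl⟩ : ∃ a t, l = a :: t := by
      cases l with
      | nil => simp at h2
      | cons a t => exact ⟨a, t, rfl⟩
    obtain ⟨b, ul, rfl⟩ : ∃ a t, ul = a :: t := by
      cases ul with
      | nil => simp at h3
      | cons a t => exact ⟨a, t, rfl⟩
    simp only [List.length_cons, Nat.add_right_cancel_iff] at h1 h2 h3
    have ha := hl a List.mem_cons_self
    have hb := hul b List.mem_cons_self
    have e1 : (a + Bs * pk l) % Bs = a := md ha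
    have e2 : (a + Bs * pk l) / Bs = pk l := dv ha
    have e3 : (b + Bs * pk ul) % Bs = b := md hb
    have e4 : (b + Bs * pk ul) / Bs = pk ul := dv hb
    have hl' : ∀ y ∈ l, y < Bs := fun y hy => hl y (List.mem_cons_of_mem _ hy)
    have hul' : ∀ y ∈ ul, y < Bs := fun y hy => hul y (List.mem_cons_of_mem _ hy)
    cases k with
    | false =>
      rw [pk, pk, chkL_false, and_true', e1, e2, e3, e4] at h
      obtain ⟨h6, h7⟩ := h
      obtain ⟨rl, r1, r2, r3, r4⟩ := ih cs l ul row h1 h2 h3 hl' hul' h7
      refine ⟨rl, r1, r2, r3, ?_⟩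
      have h8 : (a + 4 * b) • wv x c = 0 := smul_of_mod h5 (Nat.eq_of_beq_eq_true h6)
      have h9 : a • wv x c = b • wv x c := by
        have : a • wv x c + 4 • (b • wv x c) = 0 := by
          rw [← mul_smul, ← add_smul]; exact h8
        rw [neg_four (h5 _), ← sub_eq_add_neg, sub_eq_zero] at this
        exact this
      simp only [ev, nsum, kc] at r4 ⊢
      rw [← r4, h9]
      abel
    | true =>
      rw [pk, pk, chkL_true, and_true', and_true', e1, e2, e4] at h
      obtain ⟨h6, h7, h8⟩ := h
      obtain ⟨rl, r1, r2, r3, r4⟩ := ih cs l ul (row / Bs) h1 h2 h3 hl' hul' h8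
      refine ⟨row % Bs :: rl, ?_, ?_, ?_, ?_⟩
      · simp only [kc, List.length_cons, r1]
      · intro y hy
        rcases List.mem_cons.1 hy with rfl | hy
        · exact Nat.le_of_ble_eq_true h7
        · exact r2 y hy
      · rw [pk, r3]; exact Nat.mod_add_div row Bs
      · have h9 : (a + row % Bs) • wv x c = 0 := smul_of_mod h5 (Nat.eq_of_beq_eq_true h6)
        rw [add_smul] at h9
        simp only [ev, nsum, kc] at r4 ⊢
        rw [← r4]
        calc a • wv x c + ev x cs l + ((row % Bs) • wv x c + ev x (kc ks cs) rl)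
            = (a • wv x c + (row % Bs) • wv x c) + (ev x cs l + ev x (kc ks cs) rl) := by abel
          _ = _ := by rw [h9, zero_add]

/-- unit vectors -/
def ulist (s n : ℕ) : List ℕ := List.replicate s 0 ++ 1 :: List.replicate n 0

theorem pk_replicate (n : ℕ) : pk (List.replicate n 0) = 0 := by
  induction n with
  | zero => rfl
  | succ n ih => rw [List.replicate_succ, pk, ih, Nat.mul_zero]

theorem pk_ulist (s n : ℕ) : pk (ulist s n) = Bs ^ s := by
  induction s with
  | zero => simp [ulist, pk, pk_replicate]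
  | succ s ih =>
    have : ulist (s + 1) n = 0 :: ulist s n := by simp [ulist, List.replicate_succ]
    rw [this, pk, ih, pow_succ]; ring

theorem nsum_zero (ks : List Bool) : ∀ (cs : List ℕ) (n : ℕ),
    nsum x ks cs (List.replicate n 0) = 0 := by
  induction ks with
  | nil => intro cs n; simp [nsum]
  | cons k ks ih =>
    intro cs n
    cases cs with
    | nil => cases k <;> simp [nsum]
    | cons c cs =>
      cases n with
      | zero => cases k <;> simp [nsum]
      | succ n =>
        cases k with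
        | false => simp only [List.replicate_succ, nsum, ih, zero_smul, add_zero]
        | true => simp only [List.replicate_succ, nsum, ih]

theorem nsum_ulist (kp ks : List Bool) (cs : List ℕ) (c n : ℕ) : ∀ (cp : List ℕ),
    kp.length = cp.length →
    nsum x (kp ++ false :: ks) (cp ++ c :: cs) (ulist cp.length n) = wv x c := by
  induction kp with
  | nil =>
    intro cp h
    obtain rfl : cp = [] := List.length_eq_zero_iff.1 h.symm
    simp only [List.nil_append, ulist, List.length_nil, List.replicate_zero, nsum, one_smul,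
      nsum_zero, add_zero]
  | cons k kp ih =>
    intro cp h
    obtain ⟨a, cp, rfl⟩ : ∃ a t, cp = a :: t := by
      cases cp with
      | nil => simp at h
      | cons a t => exact ⟨a, t, rfl⟩
    simp only [List.length_cons, Nat.add_right_cancel_iff] at h
    have e : ulist (a :: cp).length n = 0 :: ulist cp.length n := by
      simp [ulist, List.replicate_succ]
    rw [e]
    cases k with
    | false => simp only [List.cons_append, nsum, zero_smul, zero_add, ih cp h]
    | true => simp only [List.cons_append, nsum, ih cp h]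

/-- number of basis positions -/
def nt : List Bool → ℕ
  | [] => 0
  | true :: ks => nt ks + 1
  | false :: ks => nt ks

theorem nt_append (a b : List Bool) : nt (a ++ b) = nt a + nt b := by
  induction a with
  | nil => simp [nt]
  | cons k a ih => cases k <;> simp only [List.cons_append, nt, ih] <;> omega

theorem nth_kc (kp ks : List Bool) (cs : List ℕ) (c : ℕ) : ∀ (cp : List ℕ),
    kp.length = cp.length →
    nth (kc (kp ++ true :: ks) (cp ++ c :: cs)) (nt kp) = c ∧
      nt kp < (kc (kp ++ true :: ks) (cp ++ c :: cs)).length := by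
  induction kp with
  | nil =>
    intro cp h
    obtain rfl : cp = [] := List.length_eq_zero_iff.1 h.symm
    simp [kc, nt, nth]
  | cons k kp ih =>
    intro cp h
    obtain ⟨a, cp, rfl⟩ : ∃ a t, cp = a :: t := by
      cases cp with
      | nil => simp at h
      | cons a t => exact ⟨a, t, rfl⟩
    simp only [List.length_cons, Nat.add_right_cancel_iff] at h
    obtain ⟨h1, h2⟩ := ih cp h
    cases k with
    | false =>
      simp only [List.cons_append, kc, nt]
      exact ⟨h1, h2⟩
    | true =>
      simp only [List.cons_append, kc, nt, nth, List.length_cons]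
      exact ⟨h1, by omega⟩

theorem goC_true (ks0 : List Bool) (Rs : List ℕ) (ks : List Bool) (row : ℕ) (rows Ts : List ℕ)
    (u bt : ℕ) : goC ks0 Rs (true :: ks) (row :: rows) Ts u bt =
      (Nat.beq row bt).and (goC ks0 Rs ks rows Ts (u * Bs) (bt * Bs)) := rfl

theorem goC_false (ks0 : List Bool) (Rs : List ℕ) (ks : List Bool) (row : ℕ) (rows : List ℕ)
    (T : ℕ) (Ts : List ℕ) (u bt : ℕ) : goC ks0 Rs (false :: ks) (row :: rows) (T :: Ts) u bt =
      (frc (mvT Rs T 0) fun L => chkL ks0 L row u).and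
        (goC ks0 Rs ks rows Ts (u * Bs) bt) := rfl

theorem goC_sound (h5 : ∀ v : L, 5 • v = 0) {Rs Ks cs0 : List ℕ} {ks0 : List Bool}
    (hk : ks0.length = cs0.length)
    (hR : List.Forall₂ (fun r k => RepL x cs0 r k 0) Rs Ks) (hK : 7 * Ks.sum < Bs)
    (ks : List Bool) : ∀ (kp : List Bool) (cp cs rows Ts : List ℕ), ks0 = kp ++ ks →
      cs0 = cp ++ cs → kp.length = cp.length →
      goC ks0 Rs ks rows Ts (Bs ^ cp.length) (Bs ^ nt kp) = true →
      List.Forall₂ (fun c r => RepL x (kc ks0 cs0) r 4 (wv x c)) cs rows := by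
  induction ks with
  | nil =>
    intro kp cp cs rows Ts h1 h2 h3 h
    have h4 : cs = [] := by
      rw [h1, h2, List.append_nil, List.length_append] at hk
      exact List.length_eq_zero_iff.1 (by omega)
    subst h4
    cases rows with
    | nil => exact List.Forall₂.nil
    | cons r rows => exact absurd h (by simp [goC])
  | cons k ks ih =>
    intro kp cp cs rows Ts h1 h2 h3 h
    obtain ⟨c, cs, rfl⟩ : ∃ a t, cs = a :: t := by
      cases cs with
      | nil =>
        rw [h1, h2, List.append_nil, List.length_append] at hk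
        simp at hk
        omega
      | cons a t => exact ⟨a, t, rfl⟩
    obtain ⟨row, rows, rfl⟩ : ∃ a t, rows = a :: t := by
      cases rows with
      | nil => cases k <;> exact absurd h (by simp [goC])
      | cons a t => exact ⟨a, t, rfl⟩
    have e1 : ks0 = (kp ++ [k]) ++ ks := by rw [h1]; simp
    have e2 : cs0 = (cp ++ [c]) ++ cs := by rw [h2]; simp
    have e3 : (kp ++ [k]).length = (cp ++ [c]).length := by simp [h3]
    have e4 : Bs ^ cp.length * Bs = Bs ^ (cp ++ [c]).length := by
      rw [List.length_append, List.length_singleton, pow_succ]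
    cases k with
    | true =>
      rw [goC_true, and_true'] at h
      obtain ⟨h4, h5'⟩ := h
      have e5 : Bs ^ nt kp * Bs = Bs ^ nt (kp ++ [true]) := by
        rw [nt_append, show nt [true] = 1 from rfl, pow_succ]
      rw [e4, e5] at h5'
      refine List.Forall₂.cons ?_ (ih _ _ _ _ _ e1 e2 e3 h5')
      have h6 : row = Bs ^ nt kp := Nat.eq_of_beq_eq_true h4
      obtain ⟨h7, h8⟩ := nth_kc kp ks cs c cp h3
      rw [← h1, ← h2] at h7 h8
      have h9 := repL_unit (x := x) (kc ks0 cs0) (nt kp) h8
      rw [h7] at h9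
      rw [h6]
      exact repL_mono h9 (by norm_num)
    | false =>
      obtain ⟨T, Ts, rfl⟩ : ∃ a t, Ts = a :: t := by
        cases Ts with
        | nil => exact absurd h (by simp [goC])
        | cons a t => exact ⟨a, t, rfl⟩
      rw [goC_false, and_true', frc_eq] at h
      obtain ⟨h4, h5'⟩ := h
      have e5 : Bs ^ nt kp = Bs ^ nt (kp ++ [false]) := by
        rw [nt_append, show nt [false] = 0 from rfl, add_zero]
      rw [e4, e5] at h5'
      refine List.Forall₂.cons ?_ (ih _ _ _ _ _ e1 e2 e3 h5')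
      obtain ⟨l, l1, l2, l3, l4⟩ := mvT_rep cs0 hR T 0 0 (repL_zero _ _ _)
      rw [← l3] at h4
      have h10 : Bs ^ cp.length = pk (ulist cp.length cs.length) := (pk_ulist _ _).symm
      rw [h10] at h4
      have hlen : (ulist cp.length cs.length).length = cs0.length := by
        rw [h2]; simp [ulist]
      obtain ⟨rl, r1, r2, r3, r4⟩ := chkL_sound (x := x) h5 ks0 cs0 l _ row hk l1 hlen
        (fun y hy => lt_of_le_of_lt (l2 y hy) (by omega))
        (fun y hy => by
          simp only [ulist, List.mem_append, List.mem_cons, List.mem_replicate] at hy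
          rcases hy with ⟨-, rfl⟩ | rfl | ⟨-, rfl⟩ <;> norm_num) h4
      refine ⟨rl, r1, r2, r3, ?_⟩
      rw [l4, zero_add] at r4
      rw [r4]
      have h11 := nsum_ulist (x := x) kp ks cs c cs.length cp h3
      rw [← h1, ← h2] at h11
      exact h11

theorem forall2_split {α β : Type*} {R : α → β → Prop} : ∀ (a : List α) (c : List β)
    (b : List α) (d : List β), List.Forall₂ R (a ++ b) (c ++ d) → a.length = c.length →
    List.Forall₂ R a c ∧ List.Forall₂ R b d := by
  intro a
  induction a with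
  | nil =>
    intro c b d h h1
    obtain rfl : c = [] := List.length_eq_zero_iff.1 h1.symm
    exact ⟨List.Forall₂.nil, h⟩
  | cons x a ih =>
    intro c b d h h1
    cases c with
    | nil => simp at h1
    | cons y c =>
      simp only [List.cons_append, List.forall₂_cons] at h
      simp only [List.length_cons, Nat.add_right_cancel_iff] at h1
      obtain ⟨h2, h3⟩ := ih c b d h.2 h1
      exact ⟨List.Forall₂.cons h.1 h2, h3⟩

theorem forall2_sc {e : ℕ} (he : e < 3) {P : L → ℕ → Prop} : ∀ (cs rs : List ℕ),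
    (∀ c ∈ cs, 4 ≤ c) → List.Forall₂ (fun c r => P (wv x c) r) (sc e cs) rs →
    List.Forall₂ (fun c r => P ⁅wv x c, x e⁆ r) cs rs := by
  intro cs
  induction cs with
  | nil =>
    intro rs _ h
    simp only [sc, List.forall₂_nil_left_iff] at h
    subst h
    exact List.Forall₂.nil
  | cons c cs ih =>
    intro rs hc h
    cases rs with
    | nil => simp [sc] at h
    | cons r rs =>
      simp only [sc, List.forall₂_cons] at h
      refine List.Forall₂.cons ?_ (ih rs (fun c h => hc c (List.mem_cons_of_mem _ h)) h.2)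
      rw [← wv_step x (hc c List.mem_cons_self) he]
      exact h.1

theorem beqL_eq : ∀ (a b : List ℕ), beqL a b = true → a = b := by
  intro a
  induction a with
  | nil =>
    intro b h
    cases b with
    | nil => rfl
    | cons b bs => simp [beqL] at h
  | cons x a ih =>
    intro b h
    cases b with
    | nil => simp [beqL] at h
    | cons b bs =>
      simp only [beqL, Bool.and_eq_true, Nat.beq_eq] at h
      rw [h.1, ih bs h.2]

theorem km_lt {K : ℕ} (h : Nat.ble (Nat.mul 8 K) 1208925819614629174706175 = true) :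
    7 * K < Bs := by
  have h1 : 8 * K ≤ 1208925819614629174706175 := Nat.le_of_ble_eq_true h
  have h2 : 7 * K ≤ 8 * K := Nat.mul_le_mul_right K (by norm_num)
  exact lt_of_le_of_lt (h2.trans h1) (by norm_num)

theorem chk_sound (H : Hyp Hm x) (hE : EOK E) {X : ℕ} (hX : Env x E X) {z : Bool}
    (hz : z = true → ∀ v ∈ Hm, ⁅⁅⁅v, x 0⁆, x 0⁆, x 0⁆ = 0) {c : Crt} (h : c.chk z E = true)
    (hmu : c.mu < X + 32769) : ∀ q e, e < 3 → q + un e = c.mu → List.Forall₂
      (fun c r => RepL x (E (q + un e)).codes r 4 ⁅wv x c, x e⁆) (E q).codes ((E q).rows e) := by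
  simp only [Crt.chk, and_true', lenOK] at h
  obtain ⟨h1, h2, h3, h4, h5, h6, h7, h8, h9⟩ := h
  have a1 := Nat.le_of_ble_eq_true h1
  have a2 := Nat.eq_of_beq_eq_true h2
  have a3 := Nat.eq_of_beq_eq_true h3
  have a4 := Nat.eq_of_beq_eq_true h4
  have a5 := Nat.eq_of_beq_eq_true h5
  have a6 := Nat.eq_of_beq_eq_true h6
  have a7 := Nat.eq_of_beq_eq_true h7
  have a8 := beqL_eq _ _ h8
  have C : Ctx x Hm E X c.mu c.o1 c.o2 := ⟨H, hE, hX, hmu, a2.symm, a3.symm⟩
  obtain ⟨Rs, Km, b1, -, b3⟩ := evR_sound C hz _ c.rels [] 0 h9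
  rw [and_true'] at b1
  obtain ⟨b1, b4⟩ := b1
  have b5 := km_lt b1
  obtain ⟨Ks, b6, b7⟩ := b3 (lt_of_le_of_lt (Nat.le_mul_of_pos_left Km (by norm_num)) b5) []
    List.Forall₂.nil rfl
  rw [← b7] at b5
  have b8 : List.Forall₂ (fun c' r => RepL x (kc c.ks (symc E c.mu)) r 4 (wv x c'))
      (symc E c.mu) (symr E c.mu) :=
    goC_sound (x := x) H.five a7 b6 b5 c.ks [] [] (symc E c.mu) (symr E c.mu) c.Ts
      (List.nil_append _).symm (List.nil_append _).symm rfl
      (by
        have e1 : Bs ^ ([] : List ℕ).length = 1 := pow_zero _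
        have e2 : Bs ^ nt [] = 1 := pow_zero _
        rw [e1, e2]
        exact b4)
  rw [a8] at b8
  unfold symc symr at b8
  obtain ⟨d0, d'⟩ := forall2_split _ _ _ _ b8 (by rw [sc_length]; exact a4.symm)
  obtain ⟨d1, d2⟩ := forall2_split _ _ _ _ d' (by rw [sc_length]; exact a5.symm)
  intro q e he hq
  have hq' : q = c.mu - un e := by omega
  rw [hq, hq']
  have hv : ∀ c' ∈ (E (c.mu - un e)).codes, 4 ≤ c' := fun c' hc' => (hE.val _ c' hc').1
  interval_cases e
  · exact forall2_sc (P := fun v r => RepL x (E c.mu).codes r 4 v) (by norm_num) _ _ hv d0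
  · exact forall2_sc (P := fun v r => RepL x (E c.mu).codes r 4 v) (by norm_num) _ _ hv d1
  · exact forall2_sc (P := fun v r => RepL x (E c.mu).codes r 4 v) (by norm_num) _ _ hv d2

theorem env_all' (H : Hyp Hm x) (hE : EOK E) {z : Bool}
    (hz : z = true → ∀ v ∈ Hm, ⁅⁅⁅v, x 0⁆, x 0⁆, x 0⁆ = 0) (keys : List ℕ)
    (hk : ∀ q, E q = .nil ∨ q ∈ keys)
    (hc : ∀ q ∈ keys, ∀ e < 3, ∃ c : Crt, c.mu = q + un e ∧ c.chk z E = true)
    (X : ℕ) : Env x E X := by
  have key : ∀ w : ℕ, Env x E (w * 32768) := by
    intro w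
    induction w with
    | zero => intro q e _ h; omega
    | succ w ih =>
      intro q e he hq
      rcases hk q with h | h
      · rw [h]; exact List.Forall₂.nil
      · obtain ⟨c, hc1, hc2⟩ := hc q h e he
        exact chk_sound H hE ih hz hc2 (by omega) q e he hc1.symm
  intro q e he hq
  exact key X q e he (by omega)

/-- the span of the words with given codes -/
def spn (x : ℕ → L) (cs : List ℕ) : AddSubgroup L :=
  AddSubgroup.closure {v | ∃ c ∈ cs, wv x c = v}

theorem mem_spn {cs : List ℕ} {c : ℕ} (h : c ∈ cs) : wv x c ∈ spn x cs :=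
  AddSubgroup.subset_closure ⟨c, h, rfl⟩

theorem spn_mono {cs ds : List ℕ} (h : ∀ c ∈ cs, c ∈ ds) : spn x cs ≤ spn x ds := by
  apply AddSubgroup.closure_mono
  rintro v ⟨c, hc, rfl⟩
  exact ⟨c, h c hc, rfl⟩

theorem ev_mem (cs : List ℕ) : ∀ l : List ℕ, ev x cs l ∈ spn x cs := by
  induction cs with
  | nil => intro l; simp [ev, zero_mem]
  | cons c cs ih =>
    intro l
    cases l with
    | nil => simp [ev, zero_mem]
    | cons n l =>
      rw [ev]
      exact add_mem (nsmul_mem (mem_spn List.mem_cons_self) n)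
        (spn_mono (fun c' h => List.mem_cons_of_mem _ h) (ih l))

theorem forall2_ex {R : ℕ → ℕ → Prop} {cs rs : List ℕ} (h : List.Forall₂ R cs rs) {c : ℕ}
    (hc : c ∈ cs) : ∃ r, R c r := by
  induction h with
  | nil => simp at hc
  | @cons a b _ _ h6 _ ih' =>
    rcases List.mem_cons.1 hc with rfl | hc
    · exact ⟨b, h6⟩
    · exact ih' hc

theorem lw_span (hE : EOK E) (hX : ∀ X, Env x E X) (w : List ℕ) (hw : isWd w = true)
    (hn : w ≠ []) : lw x w ∈ spn x (E (dg w)).codes := by
  induction w with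
  | nil => exact absurd rfl hn
  | cons e w ih =>
    obtain ⟨he, hw'⟩ := isWd_cons hw
    by_cases h : w = []
    · subst h
      have e0 : dg [e] = un e := by simp [dg]
      rw [lw_single, e0, hE.gen e he, ← wv_gen x he]
      exact mem_spn (List.mem_singleton_self _)
    · rw [lw_cons x e w h]
      have h1 := ih hw' h
      have h2 : spn x (E (dg w)).codes ≤ (spn x (E (dg (e :: w))).codes).comap (rb (x e)) := by
        unfold spn
        rw [AddSubgroup.closure_le]
        rintro v ⟨c, hc, rfl⟩
        change ⁅wv x c, x e⁆ ∈ spn x (E (dg (e :: w))).codes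
        have h3 := hX (dg w + un e + 1) (dg w) e he (by omega)
        obtain ⟨r, l, -, -, -, hl⟩ := forall2_ex h3 hc
        rw [← hl]
        exact ev_mem _ l
      exact h2 h1

theorem cnt_dg (w : List ℕ) (hw : isWd w = true) :
    dg w = w.count 0 * 32769 + w.count 1 * 32800 + w.count 2 * 33792 := by
  induction w with
  | nil => rfl
  | cons e w ih =>
    obtain ⟨he, hw'⟩ := isWd_cons hw
    rw [dg, ih hw']
    interval_cases e
    · simp [un]; omega
    · simp [un]; omega
    · simp [un]; omega

/-- the bounds for the degrees of the keys -/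
def keyOK (m0 m1 m2 k : ℕ) : Bool :=
  Nat.ble (k % 32) m0 && Nat.ble (k / 32 % 32) m1 && Nat.ble (k / 1024 % 32) m2 &&
    Nat.beq k (k % 32 * 32769 + k / 32 % 32 * 32800 + k / 1024 % 32 * 33792)

theorem words_bound (hE : EOK E) (hX : ∀ X, Env x E X) (keys : List ℕ)
    (hk : ∀ q, E q = .nil ∨ q ∈ keys) {m0 m1 m2 : ℕ} (hm0 : m0 ≤ 20) (hm1 : m1 ≤ 20)
    (hm2 : m2 ≤ 20) (hkey : ∀ k ∈ keys, keyOK m0 m1 m2 k = true) (w : List ℕ)
    (hw : isWd w = true) (h : lw x w ≠ 0) :
    w.count 0 ≤ m0 ∧ w.count 1 ≤ m1 ∧ w.count 2 ≤ m2 := by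
  induction w with
  | nil => simp
  | cons e w ih =>
    obtain ⟨he, hw'⟩ := isWd_cons hw
    have h1 := cnt_dg _ hw
    have h2 : w.count 0 ≤ m0 ∧ w.count 1 ≤ m1 ∧ w.count 2 ≤ m2 := by
      by_cases hn : w = []
      · subst hn; simp
      · refine ih hw' fun h0 => h ?_
        rw [lw_cons x e w hn, h0, zero_lie]
    have h3 : ∀ i : ℕ, (e :: w).count i ≤ w.count i + 1 := by
      intro i
      rw [List.count_cons]
      split_ifs <;> omega
    have c0 := h3 0
    have c1 := h3 1
    have c2 := h3 2
    rcases hk (dg (e :: w)) with h4 | h4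
    · exfalso
      apply h
      have h5 := lw_span hE hX (e :: w) hw (List.cons_ne_nil _ _)
      rw [h4] at h5
      have h6 : {v : L | ∃ c ∈ Nd.nil.codes, wv x c = v} = (∅ : Set L) := by
        ext v
        simp [Nd.codes]
      unfold spn at h5
      rw [h6, AddSubgroup.closure_empty, AddSubgroup.mem_bot] at h5
      exact h5
    · have h5 := hkey _ h4
      simp only [keyOK, Bool.and_eq_true, Nat.ble_eq, Nat.beq_eq] at h5
      obtain ⟨⟨⟨a1, a2⟩, a3⟩, a4⟩ := h5
      rw [h1] at a1 a2 a3 a4
      generalize (e :: w).count 0 = A at *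
      generalize (e :: w).count 1 = B at *
      generalize (e :: w).count 2 = C at *
      have e0 : (A * 32769 + B * 32800 + C * 33792) % 32 = A := by omega
      have e1 : (A * 32769 + B * 32800 + C * 33792) / 32 % 32 = B := by omega
      have e2 : (A * 32769 + B * 32800 + C * 33792) / 1024 % 32 = C := by omega
      rw [e0] at a1
      rw [e1] at a2
      rw [e2] at a3
      exact ⟨a1, a2, a3⟩

end Pool.Agent.Y50.FE
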