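import Pool.Agent.Y50.FE.Snd3

/-!
# Tables of components
-/

set_option autoImplicit false

namespace Pool.Agent.Y50.FE

universe u

/-- the keys of a search tree -/
def Tr.keys : Tr → List ℕ
  | .nil => []
  | .node k _ l r => l.keys ++ k :: r.keys

theorem Tr.get_node (k : ℕ) (c : Nd) (l r : Tr) (q : ℕ) : (Tr.node k c l r).get q =
    Bool.casesOn (motive := fun _ => Nd) (Nat.beq q k)
      (Bool.casesOn (motive := fun _ => Nd) (Nat.ble q k) (r.get q) (l.get q)) c := rfl

theorem Tr.get_mem (t : Tr) (q : ℕ) : t.get q = .nil ∨ q ∈ t.keys := by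
  induction t with
  | nil => exact Or.inl rfl
  | node k c l r ihl ihr =>
    rw [Tr.get_node, Tr.keys]
    cases h1 : Nat.beq q k with
    | true =>
      right
      rw [Nat.eq_of_beq_eq_true h1]
      simp
    | false =>
      cases h2 : Nat.ble q k with
      | true =>
        rcases ihl with h | h
        · exact Or.inl h
        · exact Or.inr (List.mem_append_left _ h)
      | false =>
        rcases ihr with h | h
        · exact Or.inl h
        · exact Or.inr (List.mem_append_right _ (List.mem_cons_of_mem _ h))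

/-- validity of a code, with fuel -/
def okc : ℕ → ℕ → Bool
  | 0, _ => false
  | f + 1, c => Nat.ble 4 c && Nat.ble (c % 4) 2 && (Nat.beq (c / 4) 1 || okc f (c / 4))

theorem okc_sound : ∀ (f c : ℕ), okc f c = true → 4 ≤ c ∧ isWd (dcd c) = true := by
  intro f
  induction f with
  | zero => intro c h; simp [okc] at h
  | succ f ih =>
    intro c h
    simp only [okc, Bool.and_eq_true, Bool.or_eq_true, Nat.ble_eq, Nat.beq_eq] at h
    obtain ⟨⟨h1, h2⟩, h3⟩ := h
    refine ⟨h1, ?_⟩
    rw [dcd, dif_neg (by omega)]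
    simp only [isWd, lt3, Bool.and_eq_true, Nat.blt_eq]
    refine ⟨by omega, ?_⟩
    rcases h3 with h3 | h3
    · rw [h3, dcd, dif_pos (by norm_num)]; rfl
    · exact (ih _ h3).2

/-- static check of a component -/
def okNd (n : Nd) : Bool := Nat.ble (4 * n.codes.length) n.c4 && n.codes.all (okc 30)

/-- what has to be known for each key -/
def Q (z : Bool) (E : ℕ → Nd) (k e : ℕ) : Prop :=
  (E k).next e = E (k + un e) ∧ ∃ c : Crt, c.mu = k + un e ∧ c.chk z E = true

def PK (z : Bool) (E : ℕ → Nd) (k : ℕ) : Prop := Q z E k 0 ∧ Q z E k 1 ∧ Q z E k 2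

theorem fa {P : ℕ → Prop} {a : ℕ} {l : List ℕ} (h : P a) (h' : ∀ k ∈ l, P k) :
    ∀ k ∈ a :: l, P k := List.forall_mem_cons.2 ⟨h, h'⟩

theorem fn {P : ℕ → Prop} : ∀ k ∈ ([] : List ℕ), P k := by simp

variable {L : Type u} [LieRing L] {Hm : Set L} {x : ℕ → L}

theorem table {t : Tr} {z : Bool} {keys : List ℕ} (hkeys : t.keys = keys)
    (h1 : (keys.all fun k => okNd (t.get k)) = true)
    (hg : ((t.get 32769).codes = [4] ∧ (t.get 32800).codes = [5]) ∧ (t.get 33792).codes = [6])
    (h2 : ∀ k ∈ keys, PK z t.get k) (H : Hyp Hm x)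
    (hz : z = true → ∀ v ∈ Hm, ⁅⁅⁅v, x 0⁆, x 0⁆, x 0⁆ = 0)
    {m0 m1 m2 : ℕ} (hm0 : m0 ≤ 20) (hm1 : m1 ≤ 20) (hm2 : m2 ≤ 20)
    (hkey : (keys.all fun k => keyOK m0 m1 m2 k) = true) (w : List ℕ)
    (hw : isWd w = true) (h : lw x w ≠ 0) :
    w.count 0 ≤ m0 ∧ w.count 1 ≤ m1 ∧ w.count 2 ≤ m2 := by
  have hk : ∀ q, t.get q = .nil ∨ q ∈ keys := by
    intro q
    rw [← hkeys]
    exact t.get_mem q
  have hok : ∀ q, okNd (t.get q) = true := by
    intro q
    rcases hk q with h | h
    · rw [h]; rfl
    · exact List.all_eq_true.1 h1 q h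
  have hE : EOK t.get := by
    refine ⟨fun q => ?_, fun q c hc => ?_, fun q => ?_, fun e he => ?_⟩
    · have := hok q
      simp only [okNd, Bool.and_eq_true, Nat.ble_eq] at this
      exact this.1
    · have := hok q
      simp only [okNd, Bool.and_eq_true] at this
      exact okc_sound 30 c (List.all_eq_true.1 this.2 c hc)
    · rcases hk q with h | h
      · exact Or.inl h
      · right
        obtain ⟨a0, a1, a2⟩ := h2 q h
        intro e he
        interval_cases e
        · exact a0.1
        · exact a1.1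
        · exact a2.1
    · interval_cases e
      · exact hg.1.1
      · exact hg.1.2
      · exact hg.2
  have hX : ∀ X, Env x t.get X := by
    refine env_all' H hE hz keys hk fun q hq e he => ?_
    obtain ⟨a0, a1, a2⟩ := h2 q hq
    interval_cases e
    · exact a0.2
    · exact a1.2
    · exact a2.2
  exact words_bound hE hX keys hk hm0 hm1 hm2 (List.all_eq_true.1 hkey) w hw h

end Pool.Agent.Y50.FE
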