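import Pool.Agent.Y50.FE.Main
import Pool.Agent.W629.TwiceLF

/-!
# Exponent five: consequences for the free Burnside groups of rank three
-/

set_option autoImplicit false

namespace Pool.Agent.Y50.FE

open Pool.Agent.H32BU

universe u

/-- the theorem in all universes -/
theorem main5_u (G : Type u) [Group G] (h5 : ∀ x : G, x ^ 5 = 1)
    (h3 : ∀ x y z : G, Finite (Subgroup.closure ({x, y, z} : Set G))) (S : Set G)
    (hS : S.Finite) : Finite (Subgroup.closure S) := by
  refine Pool.Agent.W629.finite_closure_u S hS fun Q _ f hf => ?_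
  refine main5 (fun x => hf (by rw [map_pow, map_one]; exact h5 _)) fun a b c => ?_
  refine Pool.Agent.W629.finite_of_image f hf _ ?_
  have h := h3 (f a) (f b) (f c)
  have e : f '' ({a, b, c} : Set Q) = {f a, f b, f c} := by
    rw [Set.image_insert_eq, Set.image_pair]
  rw [e]
  exact h

/-- 3-generator groups of exponent `n` are images of the free Burnside group -/
theorem three_of_bu {n : ℕ} (hB : Finite (Bu 3 n)) (G : Type u) [Group G]
    (hG : ∀ x : G, x ^ n = 1) (x y z : G) :
    Finite (Subgroup.closure ({x, y, z} : Set G)) := by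
  let f : FreeGroup (Fin 3) →* G := FreeGroup.lift ![x, y, z]
  have hker : Subgroup.normalClosure (Set.range fun w : FreeGroup (Fin 3) => w ^ n) ≤ f.ker := by
    apply Subgroup.normalClosure_le_normal
    rintro _ ⟨w, rfl⟩
    simp [MonoidHom.mem_ker, hG]
  let F : Bu 3 n →* G := QuotientGroup.lift _ f hker
  have hr : Subgroup.closure ({x, y, z} : Set G) ≤ F.range := by
    rw [Subgroup.closure_le]
    rintro s (rfl | rfl | rfl)
    · exact ⟨QuotientGroup.mk (FreeGroup.of 0), by simp [F, f]⟩
    · exact ⟨QuotientGroup.mk (FreeGroup.of 1), by simp [F, f]⟩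
    · exact ⟨QuotientGroup.mk (FreeGroup.of 2), by simp [F, f]⟩
  have : Finite F.range := Finite.of_surjective F.rangeRestrict F.rangeRestrict_surjective
  exact Finite.of_injective (Subgroup.inclusion hr) (Subgroup.inclusion_injective hr)

theorem bu_of_dvd {m d n : ℕ} (hd : d ∣ n) (h : Finite (Bu m n)) : Finite (Bu m d) := by
  have hle : Subgroup.normalClosure (Set.range fun w : FreeGroup (Fin m) => w ^ n) ≤
      (QuotientGroup.mk' (Subgroup.normalClosure
        (Set.range fun w : FreeGroup (Fin m) => w ^ d))).ker := by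
    apply Subgroup.normalClosure_le_normal
    rintro _ ⟨w, rfl⟩
    obtain ⟨c, rfl⟩ := hd
    change QuotientGroup.mk' _ (w ^ (d * c)) = 1
    rw [map_pow, pow_mul]
    have h1 := TLFD.bu_pow m d (QuotientGroup.mk' (Subgroup.normalClosure
        (Set.range fun w : FreeGroup (Fin m) => w ^ d)) w)
    rw [h1, one_pow]
  refine Finite.of_surjective (QuotientGroup.lift _ _ hle) ?_
  intro x
  obtain ⟨w, rfl⟩ := QuotientGroup.mk_surjective x
  exact ⟨QuotientGroup.mk w, rfl⟩

/-- `5 ∈ 𝓛` if and only if `B(3,5)` is finite -/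
theorem inL_five : InL.{u} 5 ↔ Finite (Bu 3 5) :=
  ⟨fun h => bu_of_inL x_LFD 5 h 3,
    fun h G _ hG S hS => main5_u G hG (fun x y z => three_of_bu h G hG x y z) S hS⟩

/-- the exponents all of whose prime power divisors greater than five are in `𝓛` -/
theorem inL_iff_three (n : ℕ) (hn : 1 ≤ n)
    (hs : n.primeFactors.card ≤ 2 ∨ Group.IsSolvable (Bu 3 n))
    (hq : ∀ p k : ℕ, p.Prime → p ^ k ∣ n → 5 < p ^ k → InL.{u} (p ^ k)) :
    InL.{u} n ↔ Finite (Bu 3 n) := by
  refine ⟨fun h => bu_of_inL x_LFD n h 3, fun h => ?_⟩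
  refine (x_FINAL n hn hs ?_).2 h
  intro p k hp hk h4
  rcases Nat.lt_or_ge 5 (p ^ k) with h5 | h5
  · exact hq p k hp hk h5
  · have e : p ^ k = 5 := by omega
    rw [e] at hk ⊢
    exact inL_five.2 (bu_of_dvd hk h)

theorem pp_dvd_twenty {n p k : ℕ} (hn : n = 5 ∨ n = 10 ∨ n = 15 ∨ n = 20) (hp : p.Prime)
    (hk : p ^ k ∣ n) : p ^ k ≤ 5 := by
  have h1 : p ^ k ∣ 60 := hk.trans (by rcases hn with rfl | rfl | rfl | rfl <;> norm_num)
  have h2 : p ^ k ∈ Nat.divisors 60 := Nat.mem_divisors.2 ⟨h1, by norm_num⟩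
  by_contra hc
  push Not at hc
  have hk0 : k ≠ 0 := by
    rintro rfl
    simp at hc
  have h3 : IsPrimePow (p ^ k) := hp.isPrimePow.pow hk0
  have h4 : Nat.divisors 60 = {1, 2, 3, 4, 5, 6, 10, 12, 15, 20, 30, 60} := by decide
  rw [h4] at h2
  simp only [Finset.mem_insert, Finset.mem_singleton] at h2
  have hpd : ∀ q : ℕ, q.Prime → q ∣ p ^ k → q = p := fun q hq h =>
    (Nat.prime_dvd_prime_iff_eq hq hp).1 (hq.dvd_of_dvd_pow h)
  rcases h2 with h | h | h | h | h | h | h | h | h | h | h | h
  · omega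
  · omega
  · omega
  · omega
  · omega
  all_goals
    rw [h] at hpd
  · have a := hpd 2 (by norm_num) (by norm_num); have b := hpd 3 (by norm_num) (by norm_num); omega
  · have a := hpd 2 (by norm_num) (by norm_num); have b := hpd 5 (by norm_num) (by norm_num); omega
  · have a := hpd 2 (by norm_num) (by norm_num); have b := hpd 3 (by norm_num) (by norm_num); omega
  · have a := hpd 3 (by norm_num) (by norm_num); have b := hpd 5 (by norm_num) (by norm_num); omega
  · have a := hpd 2 (by norm_num) (by norm_num); have b := hpd 5 (by norm_num) (by norm_num); omega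
  · have a := hpd 2 (by norm_num) (by norm_num); have b := hpd 3 (by norm_num) (by norm_num); omega
  · have a := hpd 2 (by norm_num) (by norm_num); have b := hpd 3 (by norm_num) (by norm_num); omega

theorem card_small {n : ℕ} (hn : n = 5 ∨ n = 10 ∨ n = 15 ∨ n = 20) :
    n.primeFactors.card ≤ 2 := by
  have key : ∀ a b : ℕ, a.Prime → b.Prime → n ∣ a ^ 2 * b → n.primeFactors.card ≤ 2 := by
    intro a b ha hb hd
    refine (Finset.card_le_card (t := {a, b}) ?_).trans Finset.card_le_two
    intro p hp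
    have h1 := Nat.prime_of_mem_primeFactors hp
    have h2 := (Nat.dvd_of_mem_primeFactors hp).trans hd
    rw [Finset.mem_insert, Finset.mem_singleton]
    rcases h1.dvd_mul.1 h2 with h | h
    · exact Or.inl ((Nat.prime_dvd_prime_iff_eq h1 ha).1 (h1.dvd_of_dvd_pow h))
    · exact Or.inr ((Nat.prime_dvd_prime_iff_eq h1 hb).1 h)
  rcases hn with rfl | rfl | rfl | rfl
  · exact key 2 5 (by norm_num) (by norm_num) (by norm_num)
  · exact key 2 5 (by norm_num) (by norm_num) (by norm_num)
  · exact key 3 5 (by norm_num) (by norm_num) (by norm_num)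
  · exact key 2 5 (by norm_num) (by norm_num) (by norm_num)

theorem inL_small (n : ℕ) (hn : n = 5 ∨ n = 10 ∨ n = 15 ∨ n = 20) :
    InL.{u} n ↔ Finite (Bu 3 n) := by
  refine inL_iff_three n (by omega) (Or.inl (card_small hn)) ?_
  intro p k hp hk h5
  have := pp_dvd_twenty hn hp hk
  omega

end Pool.Agent.Y50.FE
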